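import Pool.Agent.Lib.MP_305fdd_al.Su.StmTree2

/-!
# MP_305fdd_al, surface groups, TREES block: preparations (HNN trees, one orbit of edges)
-/

set_option autoImplicit false

namespace Pool.Agent.SuT

open Matrix Polynomial Pool.Agent.SuUp Pool.Agent.FrS Pool.Agent.FrT

/-- one orbit of edges -/
def OE (G : Type) [Group G] {V : Type} [MulAction G V] (X : SimpleGraph V) (p q : V) : Prop :=
  ∀ w w', X.Adj w w' → ∃ g : G, (g • p = w ∧ g • q = w') ∨ (g • p = w' ∧ g • q = w)

section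

variable {G : Type} [Group G] {V : Type} [MulAction G V] {X : SimpleGraph V} {p q : V}

theorem OE.rch (h : OE G X p q) {x y : V} : Rch G X p q x y ↔ x = y := by
  constructor
  · rintro ⟨w⟩
    induction w with
    | nil => rfl
    | @cons a b c hab w ih =>
      exfalso
      rw [SimpleGraph.deleteEdges_adj] at hab
      obtain ⟨g, hg⟩ := h a b hab.1
      apply hab.2
      rcases hg with ⟨e1, e2⟩ | ⟨e1, e2⟩
      · exact ⟨g, by rw [e1, e2]⟩
      · exact ⟨g, by rw [e1, e2]; exact Sym2.eq_swap⟩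
  · rintro rfl
    exact Rch.refl X p q x

theorem OE.sst (h : OE G X p q) (hact : ∀ (g : G) (x y : V), X.Adj x y → X.Adj (g • x) (g • y))
    (x : V) : Sst (u := p) (v := q) hact x = MulAction.stabilizer G x := by
  ext g
  rw [mem_Sst, h.rch, MulAction.mem_stabilizer_iff]

theorem SC_eq (x y : V) : SC G x y = ES G x y := rfl

theorem OE.vert (h : OE G X p q) (hT : TA G X) (hpq : X.Adj p q) (x : V) :
    ∃ g : G, g • p = x ∨ g • q = x := by
  by_cases hx : x = p
  · exact ⟨1, Or.inl (by rw [one_smul, hx])⟩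
  · obtain ⟨c, hc, _⟩ := first_edge hT.tree hx
    obtain ⟨g, hg⟩ := h x c hc
    rcases hg with ⟨e1, _⟩ | ⟨_, e2⟩
    · exact ⟨g, Or.inl e1⟩
    · exact ⟨g, Or.inr e2⟩

/-- every homomorphism with trivial kernel factors -/
theorem fac_of_inj {G Γ : Type} [Group G] [Group Γ] (j : G →* Γ) (hj : Function.Injective j) :
    FrV.Fac j := by
  intro R _ _ r
  rw [(MonoidHom.ker_eq_bot_iff j).2 hj]
  exact bot_le

end

section sub

variable {Γ : Type} [Group Γ] {A : Subgroup Γ} {W : Type} [MulAction A W] {Y : SimpleGraph W}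
  {p q : W}

/-- the amalgam of a one-edge tree of a subgroup -/
theorem isAm_sub (hT : TA A Y) (hpq : Y.Adj p q) (h : OE A Y p q) (hno : ∀ a : A, a • p ≠ q) :
    IsAm A ((MulAction.stabilizer A p).map A.subtype) ((MulAction.stabilizer A q).map A.subtype)
      ((ES A p q).map A.subtype) := by
  have h1 := FrV.isAm hT.act A.subtype (fac_of_inj _ A.subtype_injective) hT.tree
    (fun g => hT.noinv g p q hpq) hpq (fun g hg => hno g (h.rch.1 hg))
  rw [h.sst, h.sst, SC_eq, A.range_subtype] at h1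
  exact h1

/-- the HNN extension of a one-edge tree of a subgroup -/
theorem isHn_sub (hT : TA A Y) (hpq : Y.Adj p q) (h : OE A Y p q) (s : A) (hs : s • p = q) :
    IsHn A ((MulAction.stabilizer A p).map A.subtype)
      ((ES A p q).map A.subtype) (s : Γ) := by
  have h1 := FrV.isHn hT.act A.subtype (fac_of_inj _ A.subtype_injective) hT.tree
    (fun g => hT.noinv g p q hpq) hpq s (h.rch.2 hs)
  rw [h.sst, SC_eq, A.range_subtype] at h1
  exact h1

end sub

theorem MC.conj {G : Type} [Group G] {Z : Subgroup G} (h : MC Z) (g : G) :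
    MC (Z.map (MulAut.conj g).toMonoidHom) := by
  obtain ⟨⟨z, hz, rfl⟩, h2⟩ := h
  constructor
  · refine ⟨g * z * g⁻¹, ?_, ?_⟩
    · intro n hn h3
      apply hz n hn
      have h4 : (g * z * g⁻¹) ^ n = g * z ^ n * g⁻¹ := by rw [conj_pow]
      rw [h4] at h3
      have h5 : z ^ n = g⁻¹ * (g * z ^ n * g⁻¹) * g := by group
      rw [h5, h3]
      group
    · rw [MonoidHom.map_zpowers]
      rfl
  · rintro _ ⟨a, ha, rfl⟩ hne x ⟨b, hb, hbx⟩
    have hb' : g * b * g⁻¹ = x * (g * a * g⁻¹) * x⁻¹ := hbx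
    have h3 := h2 a ha (by
      rintro rfl
      apply hne
      show g * 1 * g⁻¹ = 1
      group) (g⁻¹ * x * g) (by
        have : g⁻¹ * x * g * a * (g⁻¹ * x * g)⁻¹ = g⁻¹ * (x * (g * a * g⁻¹) * x⁻¹) * g := by group
        rw [this, ← hb']
        have : g⁻¹ * (g * b * g⁻¹) * g = b := by group
        rw [this]
        exact hb)
    refine ⟨_, h3, ?_⟩
    show g * (g⁻¹ * x * g) * g⁻¹ = x
    group

section

variable {G : Type} [Group G] {V : Type} [MulAction G V] {X : SimpleGraph V}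

theorem ES_smul (g : G) (x y : V) :
    ES G (g • x) (g • y) = (ES G x y).map (MulAut.conj g).toMonoidHom := by
  ext a
  constructor
  · intro ha
    rw [mem_ES] at ha
    refine ⟨g⁻¹ * a * g, ?_, ?_⟩
    · show g⁻¹ * a * g ∈ ES G x y
      rw [mem_ES]
      constructor
      · rw [mul_smul, mul_smul, ha.1, inv_smul_smul]
      · rw [mul_smul, mul_smul, ha.2, inv_smul_smul]
    · show g * (g⁻¹ * a * g) * g⁻¹ = a
      group
  · rintro ⟨b, hb, rfl⟩
    have hb' : b ∈ ES G x y := hb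
    rw [mem_ES] at hb'
    show g * b * g⁻¹ ∈ _
    rw [mem_ES]
    constructor
    · rw [mul_smul, mul_smul, inv_smul_smul, hb'.1]
    · rw [mul_smul, mul_smul, inv_smul_smul, hb'.2]

theorem mem_ES_smul {g a : G} {x y : V} : a ∈ ES G (g • x) (g • y) ↔ g⁻¹ * a * g ∈ ES G x y := by
  rw [mem_ES, mem_ES, mul_smul, mul_smul, mul_smul, mul_smul, inv_smul_eq_iff, inv_smul_eq_iff]

variable {v : V} {t : G}

theorem HT.oe (h : HT G X v t) : OE G X v (t • v) := h.one

theorem HT.vert (h : HT G X v t) (x : V) : ∃ g : G, g • v = x := by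
  obtain ⟨g, hg | hg⟩ := h.oe.vert h.toTA h.adj x
  · exact ⟨g, hg⟩
  · exact ⟨g * t, by rw [mul_smul, hg]⟩

theorem HT.inv (h : HT G X v t) : HT G X v t⁻¹ where
  toTA := h.toTA
  adj := by
    have h1 := h.act t⁻¹ _ _ h.adj
    rw [inv_smul_smul] at h1
    exact h1.symm
  one := by
    intro x y hxy
    obtain ⟨g, hg | hg⟩ := h.one x y hxy
    · refine ⟨g * t, Or.inr ⟨?_, ?_⟩⟩
      · rw [mul_smul]; exact hg.2
      · rw [mul_smul, smul_inv_smul]; exact hg.1
    · refine ⟨g * t, Or.inl ⟨?_, ?_⟩⟩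
      · rw [mul_smul]; exact hg.2
      · rw [mul_smul, smul_inv_smul]; exact hg.1
  mc := by
    have h1 := ES_smul (G := G) t⁻¹ v (t • v)
    rw [inv_smul_smul] at h1
    rw [ES_symm, h1]
    exact h.mc.conj t⁻¹

theorem HT.mul (h : HT G X v t) {a : G} (ha : a • v = v) : HT G X v (a * t) where
  toTA := h.toTA
  adj := by
    have h1 := h.act a _ _ h.adj
    rw [ha] at h1
    rw [mul_smul]
    exact h1
  one := by
    intro x y hxy
    have ha' : a⁻¹ • v = v := by rw [inv_smul_eq_iff, ha]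
    obtain ⟨g, hg | hg⟩ := h.one x y hxy
    · refine ⟨g * a⁻¹, Or.inl ⟨?_, ?_⟩⟩
      · rw [mul_smul, ha']; exact hg.1
      · rw [mul_smul, mul_smul, inv_smul_smul]; exact hg.2
    · refine ⟨g * a⁻¹, Or.inr ⟨?_, ?_⟩⟩
      · rw [mul_smul, ha']; exact hg.1
      · rw [mul_smul, mul_smul, inv_smul_smul]; exact hg.2
  mc := by
    have h1 := ES_smul (G := G) a v (t • v)
    rw [ha] at h1
    rw [mul_smul, h1]
    exact h.mc.conj a

/-- the neighbours of `v` -/
theorem HT.nbr (h : HT G X v t) {c : V} (hc : X.Adj v c) :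
    ∃ a : G, a • v = v ∧ (c = a • t • v ∨ c = a • t⁻¹ • v) := by
  obtain ⟨g, hg | hg⟩ := h.one v c hc
  · exact ⟨g, hg.1, Or.inl hg.2.symm⟩
  · refine ⟨g * t, ?_, Or.inr ?_⟩
    · rw [mul_smul]; exact hg.2
    · rw [mul_smul, smul_inv_smul]; exact hg.1.symm

/-- the two kinds of neighbours are different -/
theorem HT.types (h : HT G X v t) {a b : G} (ha : a • v = v) (hb : b • v = v) :
    a • t • v ≠ b • t⁻¹ • v := by
  intro he
  have hb' : b⁻¹ • v = v := by rw [inv_smul_eq_iff, hb]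
  refine h.noinv (t * b⁻¹ * a) v (t • v) h.adj ⟨?_, ?_⟩
  · rw [mul_smul, mul_smul, ha, hb']
  · rw [mul_smul, mul_smul, he, inv_smul_smul, smul_inv_smul]

theorem HT.isHn (h : HT G X v t) :
    IsHn ⊤ (MulAction.stabilizer G v) (ES G v (t • v)) t := by
  have h1 := FrV.isHn h.act (MonoidHom.id G) (fac_of_inj _ Function.injective_id) h.tree
    (fun g => h.noinv g _ _ h.adj) h.adj t (Rch.refl X v (t • v) (t • v))
  rw [h.oe.sst, SC_eq, Subgroup.map_id, Subgroup.map_id] at h1
  have h2 : (MonoidHom.id G).range = ⊤ := MonoidHom.range_eq_top.2 Function.surjective_id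
  rw [h2] at h1
  exact h1

end

end Pool.Agent.SuT
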