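import Pool.Agent.Lib.MP_305fdd_al.Su.StmTree2

/-!
# MP_305fdd_al, surface groups, TREES block: the axis of an element without fixed vertex
-/

set_option autoImplicit false

namespace Pool.Agent.SuT

open Pool.Agent.SuUp

/-- distances along a geodesic -/
private theorem geo_dist {V : Type} {X : SimpleGraph V} (hX : X.IsTree) (p : ℕ → V) (l : ℕ)
    (hadj : ∀ i < l, X.Adj (p i) (p (i + 1))) (hl : X.dist (p 0) (p l) = l) :
    ∀ i j, i ≤ j → j ≤ l → X.dist (p i) (p j) = j - i := by
  have hle : ∀ i k, i + k ≤ l → X.dist (p i) (p (i + k)) ≤ k := by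
    intro i k
    induction k with
    | zero => intro _; simp
    | succ k ih =>
      intro h
      have h1 := ih (by omega)
      have h2 := dist_tri hX (p i) (p (i + k)) (p (i + (k + 1)))
      have h3 : X.dist (p (i + k)) (p (i + (k + 1))) = 1 :=
        SimpleGraph.dist_eq_one_iff_adj.mpr (hadj (i + k) (by omega))
      omega
  intro i j hij hj
  have h1 := hle 0 i (by omega)
  have h2 := hle i (j - i) (by omega)
  have h3 := hle j (l - j) (by omega)
  rw [Nat.zero_add] at h1
  rw [Nat.add_sub_cancel' hij] at h2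
  rw [Nat.add_sub_cancel' hj] at h3
  have h4 := dist_tri hX (p 0) (p i) (p l)
  have h5 := dist_tri hX (p i) (p j) (p l)
  omega

theorem p_AX : S_AX := by
  intro G _ V _ X z hT hno
  classical
  obtain ⟨x0⟩ := hT.tree.connected.nonempty
  have hex : ∃ n : ℕ, ∃ x, X.dist x (z • x) = n := ⟨_, x0, rfl⟩
  obtain ⟨x, hx⟩ := Nat.find_spec hex
  have hmin : ∀ y, X.dist x (z • x) ≤ X.dist y (z • y) := by
    intro y
    rw [hx]
    exact Nat.find_min' hex ⟨y, rfl⟩
  obtain ⟨w, hwp, hwl⟩ := exists_path hT.tree x (z • x)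
  set l := w.length with hldef
  let p : ℕ → V := fun i => w.getVert i
  have hp0 : p 0 = x := w.getVert_zero
  have hpl : p l = z • x := w.getVert_length
  have hl0 : 0 < l := by
    rcases Nat.eq_zero_or_pos l with h | h
    · exfalso
      rw [h] at hwl
      exact hno ⟨x, ((hT.tree.connected.dist_eq_zero_iff).mp hwl.symm).symm⟩
    · exact h
  have hadj : ∀ i < l, X.Adj (p i) (p (i + 1)) := fun i hi => w.adj_getVert_succ hi
  have hgeo := geo_dist hT.tree p l hadj (by rw [hp0, hpl]; exact hwl.symm)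
  have hdz : ∀ i j, X.dist (z • p i) (z • p j) = X.dist (p i) (p j) := fun i j =>
    dist_smul hT.act hT.tree z _ _
  have hzp0 : z • p 0 = p l := by rw [hp0, hpl]
  have hdl : ∀ i, i ≤ l → X.dist (p i) (z • p i) = l := by
    intro i hi
    have h1 := dist_tri hT.tree (p i) (p l) (z • p i)
    have h2 := hgeo i l hi le_rfl
    have h3 : X.dist (p l) (z • p i) = i - 0 := by
      rw [← hzp0, hdz, hgeo 0 i (by omega) hi]
    have h4 := hmin (p i)
    omega
  have hA : ∀ i < l, z • p i ∈ Hf X (p i) (p (i + 1)) := by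
    intro i hi
    rw [mem_Hf]
    have h1 := dist_tri hT.tree (p (i + 1)) (p l) (z • p i)
    have h2 := hgeo (i + 1) l hi le_rfl
    have h3 : X.dist (p l) (z • p i) = i - 0 := by
      rw [← hzp0, hdz, hgeo 0 i (by omega) hi.le]
    have h4 := hdl i hi.le
    have c1 : X.dist (z • p i) (p (i + 1)) = X.dist (p (i + 1)) (z • p i) := SimpleGraph.dist_comm
    have c2 : X.dist (z • p i) (p i) = X.dist (p i) (z • p i) := SimpleGraph.dist_comm
    omega
  have hB : ∀ i < l, p i ∉ Hf X (z • p i) (z • p (i + 1)) := by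
    intro i hi h1
    rw [mem_Hf, hdl i hi.le] at h1
    have h2 : z • p (i + 1) ∉ Hf X (p i) (p (i + 1)) := by
      rw [mem_Hf]
      have c1 : X.dist (z • p (i + 1)) (p (i + 1)) = X.dist (p (i + 1)) (z • p (i + 1)) :=
        SimpleGraph.dist_comm
      have c2 : X.dist (z • p (i + 1)) (p i) = X.dist (p i) (z • p (i + 1)) :=
        SimpleGraph.dist_comm
      have h4 := hdl (i + 1) hi
      omega
    obtain ⟨e1, e2⟩ := cross_edge hT.tree (hadj i hi) h2 (hA i hi)
      (hT.act z _ _ (hadj i hi)).symm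
    exact hT.noinv z _ _ (hadj i hi) ⟨e2, e1⟩
  -- displacement of positive powers
  have hC : ∀ i < l, ∀ n : ℕ, l ≤ X.dist (p i) (z ^ (n + 1) • p i) := by
    intro i hi n
    cases n with
    | zero =>
      rw [Nat.zero_add, pow_one]
      exact (hdl i hi.le).ge
    | succ n =>
      obtain ⟨_, hb, _, _⟩ := trans_dist hT (hadj i hi) (hA i hi) (hB i hi)
      have h1 : z ^ (n + 1 + 1) • p i ∈ Hf X (z • p i) (z • p (i + 1)) := by
        rw [pow_succ', mul_smul, smul_mem_Hf hT.act hT.tree]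
        exact hb n
      have h2 := hB i hi
      rw [not_mem_Hf hT.tree (hT.act z _ _ (hadj i hi))] at h2
      have h3 := sep hT.tree (hT.act z _ _ (hadj i hi)) h2 h1
      have h4 := hdl i hi.le
      omega
  have hdist : ∀ i j, i ≤ l → j ≤ l → X.dist (p i) (p j) = (j - i) + (i - j) := by
    intro i j hi hj
    rcases le_total i j with h | h
    · rw [hgeo i j h hj]; omega
    · rw [SimpleGraph.dist_comm, hgeo j i h hi]; omega
  have hD : ∀ i < l, ∀ j < l, ∀ n : ℕ, z ^ (n + 1) • p i ≠ p j := by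
    intro i hi j hj n h
    have h1 := hC i hi n
    rw [h, hdist i j hi.le hj.le] at h1
    omega
  have hE : ∀ i < l, ∀ j < l, ∀ n : ℕ,
      ¬ (z ^ (n + 1) • p i = p (j + 1) ∧ z ^ (n + 1) • p (i + 1) = p j) := by
    rintro i hi j hj n ⟨h1, h2⟩
    obtain ⟨ha, hb, _, _⟩ := trans_dist hT (hadj i hi) (hA i hi) (hB i hi)
    have h3 := ha (n + 1)
    have h4 := hb n
    rw [h1, h2, mem_Hf, hdist i j hi.le hj.le, hdist i (j + 1) hi.le hj] at h3
    rw [h1, mem_Hf, hdist (j + 1) (i + 1) hj hi, hdist (j + 1) i hj hi.le] at h4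
    omega
  refine ⟨l, p, hl0, hzp0, ?_, ?_⟩
  · intro i hi
    exact ⟨hadj i hi, ess_of_trans hT (hadj i hi) (Subgroup.mem_zpowers z) (hA i hi) (hB i hi)⟩
  · intro i hi j hj hij k hk
    obtain ⟨m, rfl⟩ := Subgroup.mem_zpowers_iff.mp hk
    have hinj : ∀ a b, a ≤ l → b ≤ l → p a = p b → a = b := by
      intro a b ha hb h
      have h1 := hdist a b ha hb
      rw [h, SimpleGraph.dist_self] at h1
      omega
    rcases Int.lt_trichotomy m 0 with hm | hm | hm
    · obtain ⟨n, hn⟩ : ∃ n : ℕ, m = -((n + 1 : ℕ) : ℤ) := ⟨(-m - 1).toNat, by omega⟩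
      have key : ∀ a b : V, z ^ m • a = b → z ^ (n + 1) • b = a := by
        intro a b h
        rw [← h, hn, zpow_neg, zpow_natCast, smul_inv_smul]
      constructor
      · rintro ⟨h1, _⟩
        exact hD j hj i hi n (key _ _ h1)
      · rintro ⟨h1, h2⟩
        exact hE j hj i hi n ⟨key _ _ h2, key _ _ h1⟩
    · subst hm
      rw [zpow_zero, one_smul, one_smul]
      constructor
      · rintro ⟨h1, _⟩
        exact hij (hinj _ _ hi.le hj.le h1)
      · rintro ⟨h1, h2⟩
        have h3 := hinj _ _ hi.le hj h1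
        have h4 := hinj _ _ hi hj.le h2
        omega
    · obtain ⟨n, hn⟩ : ∃ n : ℕ, m = ((n + 1 : ℕ) : ℤ) := ⟨(m - 1).toNat, by omega⟩
      rw [hn, zpow_natCast]
      constructor
      · rintro ⟨h1, _⟩
        exact hD i hi j hj n h1
      · exact hE i hi j hj n

end Pool.Agent.SuT
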