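import Pool.Agent.Lib.MP_305fdd_al.Su.StmTree2
import Pool.Agent.Lib.MP_305fdd_al.Fr.T.Pot

/-!
# Blow up of a tree and collapse: proof of `S_BLOW` (MP_305fdd_al, surface groups, TREES block)
-/

set_option autoImplicit false

namespace Pool.Agent.SuT

open Pool.Agent.SuUp Pool.Agent.FrT

/-- the kept edges over `v` -/
private def K (G : Type) {V V' : Type} [Group G] [MulAction G V] [MulAction G V'] (v₀ : V)
    (y₁ y₂ : V') (v : V) : Set (Sym2 V') :=
  {e | ∃ g : G, g • v₀ = v ∧ e = s(g • y₁, g • y₂)}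

/-- connected over `v` outside the kept edges -/
private def R (G : Type) {V V' : Type} [Group G] [MulAction G V] [MulAction G V']
    (X' : SimpleGraph V') (v₀ : V) (y₁ y₂ : V') (v : V) (y y' : V') : Prop :=
  (X'.deleteEdges (K G v₀ y₁ y₂ v)).Reachable y y'

section

variable {G V V' : Type} [Group G] [MulAction G V] [MulAction G V'] {X' : SimpleGraph V'}
  {v₀ : V} {y₁ y₂ : V'}

private theorem K_adj (hX' : TA G X') (h12 : X'.Adj y₁ y₂) {v : V} {a b : V'}
    (h : s(a, b) ∈ K G v₀ y₁ y₂ v) : X'.Adj a b := by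
  obtain ⟨g, _, h2⟩ := h
  rw [Sym2.eq_iff] at h2
  rcases h2 with ⟨e1, e2⟩ | ⟨e1, e2⟩
  · rw [e1, e2]
    exact hX'.act g _ _ h12
  · rw [e1, e2]
    exact (hX'.act g _ _ h12).symm

private theorem K_smul (g : G) {v : V} {a b : V'}
    (h : s(g • a, g • b) ∈ K G v₀ y₁ y₂ (g • v)) : s(a, b) ∈ K G v₀ y₁ y₂ v := by
  obtain ⟨k, h1, h2⟩ := h
  refine ⟨g⁻¹ * k, ?_, ?_⟩
  · rw [mul_smul, h1, inv_smul_smul]
  · rw [mul_smul, mul_smul]
    have := congrArg (Sym2.map (fun x => g⁻¹ • x)) h2
    simpa using this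

private theorem R_smul (hX' : TA G X') (g : G) {v : V} {y y' : V'}
    (h : R G X' v₀ y₁ y₂ v y y') : R G X' v₀ y₁ y₂ (g • v) (g • y) (g • y') := by
  obtain ⟨w⟩ := h
  induction w with
  | nil => exact SimpleGraph.Reachable.refl _
  | @cons a b c hab w ih =>
    refine SimpleGraph.Reachable.trans (SimpleGraph.Adj.reachable ?_) ih
    rw [SimpleGraph.deleteEdges_adj] at hab ⊢
    exact ⟨hX'.act g a b hab.1, fun h => hab.2 (K_smul g h)⟩

/-- the half trees of a kept edge are unions of classes -/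
private theorem R_Hf (hX' : TA G X') {v : V} {a b : V'} (hab : X'.Adj a b)
    (hK : s(a, b) ∈ K G v₀ y₁ y₂ v) {y y' : V'} (h : R G X' v₀ y₁ y₂ v y y') :
    y ∈ Hf X' a b ↔ y' ∈ Hf X' a b := by
  obtain ⟨w⟩ := h
  induction w with
  | nil => exact Iff.rfl
  | @cons c d e hcd w ih =>
    rw [← ih]
    rw [SimpleGraph.deleteEdges_adj] at hcd
    by_contra hne
    have h1 : (c ∈ Hf X' a b ∧ d ∉ Hf X' a b) ∨ (c ∉ Hf X' a b ∧ d ∈ Hf X' a b) := by
      by_cases hc : c ∈ Hf X' a b <;> by_cases hd : d ∈ Hf X' a b <;> simp_all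
    rcases h1 with ⟨h1, h2⟩ | ⟨h1, h2⟩
    · obtain ⟨e1, e2⟩ := cross_edge hX'.tree hab h2 h1 hcd.1.symm
      apply hcd.2
      rw [e1, e2, Sym2.eq_swap]
      exact hK
    · obtain ⟨e1, e2⟩ := cross_edge hX'.tree hab h1 h2 hcd.1
      apply hcd.2
      rw [e1, e2]
      exact hK

end

private theorem main {G V V' W : Type} [Group G] [MulAction G V] [MulAction G V'] [MulAction G W]
    (X : SimpleGraph V) (X' : SimpleGraph V') (hX : TA G X) (hX' : TA G X') (φ : V → V → V')
    (hφ : ∀ (g : G) (x y : V), X.Adj x y → φ (g • x) (g • y) = g • φ x y)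
    (v₀ : V) (y₁ y₂ : V') (h12 : X'.Adj y₁ y₂) (κ : V → V' → W) (p : W → V)
    (hs : ∀ w, ∃ v y, κ v y = w) (hp : ∀ v y, p (κ v y) = v)
    (hk : ∀ v y y', κ v y = κ v y' ↔ R G X' v₀ y₁ y₂ v y y')
    (hg : ∀ (g : G) v y, κ (g • v) (g • y) = g • κ v y)
    (hpg : ∀ (g : G) w, p (g • w) = g • p w) :
    ∃ Y : SimpleGraph W, TA G Y ∧
      ∀ w w', Y.Adj w w' ↔
        (∃ x y, X.Adj x y ∧ κ x (φ x y) = w ∧ κ y (φ y x) = w') ∨
        (∃ g : G, (g • κ v₀ y₁ = w ∧ g • κ v₀ y₂ = w') ∨
          (g • κ v₀ y₁ = w' ∧ g • κ v₀ y₂ = w)) := by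
  classical
  -- the second kind of edges
  have hE : ∀ w w', (∃ g : G, (g • κ v₀ y₁ = w ∧ g • κ v₀ y₂ = w') ∨
      (g • κ v₀ y₁ = w' ∧ g • κ v₀ y₂ = w)) ↔
      ∃ v a b, s(a, b) ∈ K G v₀ y₁ y₂ v ∧ κ v a = w ∧ κ v b = w' := by
    intro w w'
    constructor
    · rintro ⟨g, ⟨h1, h2⟩ | ⟨h1, h2⟩⟩
      · exact ⟨g • v₀, g • y₁, g • y₂, ⟨g, rfl, rfl⟩, by rw [hg, h1], by rw [hg, h2]⟩
      · exact ⟨g • v₀, g • y₂, g • y₁, ⟨g, rfl, Sym2.eq_swap⟩, by rw [hg, h2], by rw [hg, h1]⟩
    · rintro ⟨v, a, b, ⟨g, h1, h2⟩, h3, h4⟩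
      refine ⟨g, ?_⟩
      rw [Sym2.eq_iff] at h2
      rcases h2 with ⟨e1, e2⟩ | ⟨e1, e2⟩
      · left
        rw [← hg, ← hg, h1, ← e1, ← e2]
        exact ⟨h3, h4⟩
      · right
        rw [← hg, ← hg, h1, ← e1, ← e2]
        exact ⟨h4, h3⟩
  -- classes of kept edges
  have hne : ∀ (v : V) (a b : V'), s(a, b) ∈ K G v₀ y₁ y₂ v → κ v a ≠ κ v b := by
    intro v a b hK he
    rw [hk] at he
    have hab := K_adj hX' h12 hK
    have h1 := (R_Hf hX' hab hK he).2 (right_mem_Hf hX'.tree hab)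
    exact left_not_mem_Hf h1
  let Y : SimpleGraph W :=
    { Adj := fun w w' => (∃ x y, X.Adj x y ∧ κ x (φ x y) = w ∧ κ y (φ y x) = w') ∨
        (∃ v a b, s(a, b) ∈ K G v₀ y₁ y₂ v ∧ κ v a = w ∧ κ v b = w')
      symm := ⟨by
        rintro w w' (⟨x, y, h1, h2, h3⟩ | ⟨v, a, b, h1, h2, h3⟩)
        · exact Or.inl ⟨y, x, h1.symm, h3, h2⟩
        · exact Or.inr ⟨v, b, a, by rwa [Sym2.eq_swap], h3, h2⟩⟩
      loopless := ⟨by
        rintro w (⟨x, y, h1, h2, h3⟩ | ⟨v, a, b, h1, h2, h3⟩)
        · have h4 : p (κ x (φ x y)) = p (κ y (φ y x)) := by rw [h2, h3]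
          rw [hp, hp] at h4
          exact h1.ne h4
        · exact hne v a b h1 (h2.trans h3.symm)⟩ }
  have hY : ∀ w w', Y.Adj w w' ↔ (∃ x y, X.Adj x y ∧ κ x (φ x y) = w ∧ κ y (φ y x) = w') ∨
        (∃ v a b, s(a, b) ∈ K G v₀ y₁ y₂ v ∧ κ v a = w ∧ κ v b = w') := fun _ _ => Iff.rfl
  refine ⟨Y, ?_, ?_⟩
  swap
  · intro w w'
    rw [hY, hE]
  -- connected
  have hfib : ∀ (v : V) (y y' : V'), Y.Reachable (κ v y) (κ v y') := by
    intro v y y'
    obtain ⟨w⟩ := hX'.tree.connected.preconnected y y'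
    induction w with
    | nil => exact SimpleGraph.Reachable.refl _
    | @cons a b c hab w ih =>
      refine SimpleGraph.Reachable.trans ?_ ih
      by_cases h1 : s(a, b) ∈ K G v₀ y₁ y₂ v
      · exact SimpleGraph.Adj.reachable (Or.inr ⟨v, a, b, h1, rfl, rfl⟩)
      · have h2 : κ v a = κ v b := by
          rw [hk]
          exact SimpleGraph.Adj.reachable (by rw [SimpleGraph.deleteEdges_adj]; exact ⟨hab, h1⟩)
        rw [h2]
  have hreach : ∀ (v v' : V) (y y' : V'), Y.Reachable (κ v y) (κ v' y') := by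
    intro v v' y y'
    obtain ⟨w⟩ := hX.tree.connected.preconnected v v'
    induction w generalizing y with
    | nil => exact hfib _ _ _
    | @cons a b c hab w ih =>
      refine SimpleGraph.Reachable.trans (hfib a y (φ a b)) ?_
      refine SimpleGraph.Reachable.trans ?_ (ih (φ b a))
      exact SimpleGraph.Adj.reachable (Or.inl ⟨a, b, hab, rfl, rfl⟩)
  have hconn : Y.Connected := by
    obtain ⟨v⟩ := hX.tree.connected.nonempty
    have : Nonempty W := ⟨κ v y₁⟩
    refine SimpleGraph.Connected.mk ?_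
    intro w w'
    obtain ⟨v, y, rfl⟩ := hs w
    obtain ⟨v', y', rfl⟩ := hs w'
    exact hreach _ _ _ _
  refine ⟨?_, ?_, ?_⟩
  · -- tree
    refine tree_of_pot hconn ?_
    intro w w' hww
    rcases (hY w w').1 hww with ⟨x, y, hxy, h1, h2⟩ | ⟨v, a, b, hK, h1, h2⟩
    · refine ⟨fun u => if p u ∈ Hf X x y then 1 else 0, ?_, ?_⟩
      · rw [← h1, ← h2]
        simp only [hp]
        rw [if_neg left_not_mem_Hf, if_pos (right_mem_Hf hX.tree hxy)]
        norm_num
      · intro c d hcd hf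
        rcases (hY c d).1 hcd with ⟨x', y', hxy', k1, k2⟩ | ⟨v, a, b, _, k1, k2⟩
        · have hc : p c = x' := by rw [← k1, hp]
          have hd : p d = y' := by rw [← k2, hp]
          simp only [hc, hd] at hf
          have h3 : (x' ∈ Hf X x y ∧ y' ∉ Hf X x y) ∨ (x' ∉ Hf X x y ∧ y' ∈ Hf X x y) := by
            by_cases e1 : x' ∈ Hf X x y <;> by_cases e2 : y' ∈ Hf X x y <;> simp_all
          rcases h3 with ⟨h3, h4⟩ | ⟨h3, h4⟩
          · obtain ⟨e1, e2⟩ := cross_edge hX.tree hxy h4 h3 hxy'.symm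
            right
            rw [← k1, ← k2, ← h1, ← h2, e1, e2]
            exact ⟨rfl, rfl⟩
          · obtain ⟨e1, e2⟩ := cross_edge hX.tree hxy h3 h4 hxy'
            left
            rw [← k1, ← k2, ← h1, ← h2, e1, e2]
            exact ⟨rfl, rfl⟩
        · exfalso
          apply hf
          rw [← k1, ← k2]
          simp only [hp]
    · have hab := K_adj hX' h12 hK
      -- the first vertex on the geodesic from v
      have hfe : ∀ u : V, ∃ c : V, u ≠ v → X.Adj v c ∧ u ∈ Hf X v c := by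
        intro u
        by_cases hu : u = v
        · exact ⟨v, fun h => absurd hu h⟩
        · obtain ⟨c, h3, h4⟩ := first_edge hX.tree (Ne.symm hu)
          exact ⟨c, fun _ => ⟨h3, h4⟩⟩
      choose fe hfe using hfe
      -- the function
      let F : V → V' → ℤ := fun u y =>
        if u = v then (if y ∈ Hf X' a b then 1 else 0)
        else (if φ v (fe u) ∈ Hf X' a b then 1 else 0)
      have hF : ∀ u y y', κ u y = κ u y' → F u y = F u y' := by
        intro u y y' he
        show (if u = v then (if y ∈ Hf X' a b then (1 : ℤ) else 0)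
          else (if φ v (fe u) ∈ Hf X' a b then 1 else 0)) =
          (if u = v then (if y' ∈ Hf X' a b then (1 : ℤ) else 0)
          else (if φ v (fe u) ∈ Hf X' a b then 1 else 0))
        by_cases hu : u = v
        · rw [if_pos hu, if_pos hu]
          subst hu
          rw [hk] at he
          have h3 := R_Hf hX' hab hK he
          by_cases h4 : y ∈ Hf X' a b
          · rw [if_pos h4, if_pos (h3.1 h4)]
          · rw [if_neg h4, if_neg (fun h => h4 (h3.2 h))]
        · rw [if_neg hu, if_neg hu]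
      choose rv ry hry using hs
      have hrv : ∀ u y, rv (κ u y) = u := by
        intro u y
        rw [← hp (rv (κ u y)) (ry (κ u y)), hry, hp]
      have hFr : ∀ u y, F (rv (κ u y)) (ry (κ u y)) = F u y := by
        intro u y
        have h3 := hry (κ u y)
        rw [hrv] at h3 ⊢
        exact hF _ _ _ h3
      have hFv : ∀ y, F v y = if y ∈ Hf X' a b then 1 else 0 := by
        intro y
        show (if v = v then (if y ∈ Hf X' a b then (1 : ℤ) else 0)
          else (if φ v (fe v) ∈ Hf X' a b then 1 else 0)) = _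
        rw [if_pos rfl]
      have hFn : ∀ u y, u ≠ v → F u y = if φ v (fe u) ∈ Hf X' a b then 1 else 0 := by
        intro u y hu
        show (if u = v then (if y ∈ Hf X' a b then (1 : ℤ) else 0)
          else (if φ v (fe u) ∈ Hf X' a b then 1 else 0)) = _
        rw [if_neg hu]
      have hfn : ∀ u, X.Adj v u → fe u = u := by
        intro u hu
        obtain ⟨h3, h4⟩ := hfe u hu.ne'
        exact first_unique hX.tree h3 hu h4 (right_mem_Hf hX.tree hu)
      have hXe : ∀ x y, X.Adj x y → F x (φ x y) = F y (φ y x) := by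
        intro x y hxy
        by_cases hx : x = v
        · subst hx
          rw [hFv, hFn y _ hxy.ne', hfn y hxy]
        · by_cases hy : y = v
          · subst hy
            rw [hFv, hFn x _ hxy.ne, hfn x hxy.symm]
          · rw [hFn x _ hx, hFn y _ hy]
            obtain ⟨h3, h4⟩ := hfe x hx
            obtain ⟨h5, h6⟩ := hfe y hy
            have h7 : y ∈ Hf X v (fe x) := by
              by_contra h7
              obtain ⟨e1, e2⟩ := cross_edge hX.tree h3 h7 h4 hxy.symm
              exact hy e1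
            rw [first_unique hX.tree h3 h5 h7 h6]
      refine ⟨fun u => F (rv u) (ry u), ?_, ?_⟩
      · rw [← h1, ← h2]
        simp only [hFr]
        rw [hFv, hFv, if_neg left_not_mem_Hf, if_pos (right_mem_Hf hX'.tree hab)]
        norm_num
      · intro c d hcd hf
        rcases (hY c d).1 hcd with ⟨x', y', hxy', k1, k2⟩ | ⟨u, a', b', hK', k1, k2⟩
        · exfalso
          apply hf
          rw [← k1, ← k2]
          simp only [hFr]
          exact hXe _ _ hxy'
        · rw [← k1, ← k2] at hf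
          simp only [hFr] at hf
          have hab' := K_adj hX' h12 hK'
          by_cases hu : u = v
          · subst hu
            rw [hFv, hFv] at hf
            have h3 : (a' ∈ Hf X' a b ∧ b' ∉ Hf X' a b) ∨ (a' ∉ Hf X' a b ∧ b' ∈ Hf X' a b) := by
              by_cases e1 : a' ∈ Hf X' a b <;> by_cases e2 : b' ∈ Hf X' a b <;> simp_all
            rcases h3 with ⟨h3, h4⟩ | ⟨h3, h4⟩
            · obtain ⟨e1, e2⟩ := cross_edge hX'.tree hab h4 h3 hab'.symm
              right
              rw [← k1, ← k2, ← h1, ← h2, e1, e2]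
              exact ⟨rfl, rfl⟩
            · obtain ⟨e1, e2⟩ := cross_edge hX'.tree hab h3 h4 hab'
              left
              rw [← k1, ← k2, ← h1, ← h2, e1, e2]
              exact ⟨rfl, rfl⟩
          · exfalso
            apply hf
            rw [hFn _ _ hu, hFn _ _ hu]
  · -- action
    intro g w w' hww
    rcases (hY w w').1 hww with ⟨x, y, hxy, h1, h2⟩ | ⟨v, a, b, ⟨k, hK1, hK2⟩, h1, h2⟩
    · refine (hY _ _).2 (Or.inl ⟨g • x, g • y, hX.act g _ _ hxy, ?_, ?_⟩)
      · rw [hφ g x y hxy, hg, h1]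
      · rw [hφ g y x hxy.symm, hg, h2]
    · refine (hY _ _).2 (Or.inr ⟨g • v, g • a, g • b, ⟨g * k, ?_, ?_⟩, ?_, ?_⟩)
      · rw [mul_smul, hK1]
      · rw [mul_smul, mul_smul]
        have := congrArg (Sym2.map (fun x => g • x)) hK2
        simpa using this
      · rw [hg, h1]
      · rw [hg, h2]
  · -- no inversions
    rintro g w w' hww ⟨hi1, hi2⟩
    rcases (hY w w').1 hww with ⟨x, y, hxy, h1, h2⟩ | ⟨v, a, b, hK, h1, h2⟩
    · apply hX.noinv g x y hxy
      rw [← h1, ← h2, ← hg, ] at hi1 hi2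
      have e1 := congrArg p hi1
      have e2 := congrArg p hi2
      rw [hp, hp] at e1 e2
      exact ⟨e1, e2⟩
    · have hab := K_adj hX' h12 hK
      rw [← h1, ← h2, ← hg] at hi1 hi2
      have e1 := congrArg p hi1
      rw [hp, hp] at e1
      rw [e1, hk] at hi1 hi2
      have h3 : g • a ∈ Hf X' a b :=
        (R_Hf hX' hab hK hi1).2 (right_mem_Hf hX'.tree hab)
      have h4 : g • b ∉ Hf X' a b := fun h =>
        left_not_mem_Hf ((R_Hf hX' hab hK hi2).1 h)
      obtain ⟨e3, e4⟩ := cross_edge hX'.tree hab h4 h3 (hX'.act g _ _ hab).symm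
      exact hX'.noinv g a b hab ⟨e4, e3⟩

/-- blow up and collapse -/
theorem p_BLOW : S_BLOW := by
  intro G _ V V' _ _ X X' hX hX' φ hφ v₀ y₁ y₂ h12
  let st : Setoid (V × V') :=
    { r := fun a b => a.1 = b.1 ∧ R G X' v₀ y₁ y₂ a.1 a.2 b.2
      iseqv :=
        { refl := fun a => ⟨rfl, SimpleGraph.Reachable.refl _⟩
          symm := by
            rintro ⟨a, a'⟩ ⟨b, b'⟩ ⟨h1, h2⟩
            simp only at h1 h2
            subst h1
            exact ⟨rfl, SimpleGraph.Reachable.symm h2⟩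
          trans := by
            rintro ⟨a, a'⟩ ⟨b, b'⟩ ⟨c, c'⟩ ⟨h1, h2⟩ ⟨h3, h4⟩
            simp only at h1 h2 h3 h4
            subst h1
            subst h3
            exact ⟨rfl, SimpleGraph.Reachable.trans h2 h4⟩ } }
  let sm : G → Quotient st → Quotient st := fun g =>
    Quotient.map (fun a => (g • a.1, g • a.2)) (by
      rintro ⟨a, a'⟩ ⟨b, b'⟩ ⟨h1, h2⟩
      simp only at h1 h2
      subst h1
      exact ⟨rfl, R_smul hX' g h2⟩)
  let act : MulAction G (Quotient st) :=
    { smul := sm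
      one_smul := by
        intro w
        induction w using Quotient.ind with
        | _ a =>
          show sm 1 (Quotient.mk st a) = Quotient.mk st a
          simp only [sm, Quotient.map_mk, one_smul]
      mul_smul := by
        intro g h w
        induction w using Quotient.ind with
        | _ a =>
          show sm (g * h) (Quotient.mk st a) = sm g (sm h (Quotient.mk st a))
          simp only [sm, Quotient.map_mk, mul_smul] }
  let κ : V → V' → Quotient st := fun v y => Quotient.mk st (v, y)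
  let p : Quotient st → V := Quotient.lift Prod.fst (by
    rintro a b ⟨h1, _⟩
    exact h1)
  have hs : ∀ w, ∃ v y, κ v y = w := by
    intro w
    induction w using Quotient.ind with
    | _ a => exact ⟨a.1, a.2, rfl⟩
  have hp : ∀ v y, p (κ v y) = v := fun v y => rfl
  have hk : ∀ v y y', κ v y = κ v y' ↔ R G X' v₀ y₁ y₂ v y y' := by
    intro v y y'
    constructor
    · intro h
      exact (Quotient.exact h).2
    · intro h
      exact Quotient.sound ⟨rfl, h⟩
  have hg : ∀ (g : G) v y, κ (g • v) (g • y) = g • κ v y := fun g v y => rfl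
  have hpg : ∀ (g : G) w, p (g • w) = g • p w := by
    intro g w
    obtain ⟨v, y, rfl⟩ := hs w
    rw [← hg, hp, hp]
  obtain ⟨Y, hY1, hY2⟩ := main X X' hX hX' φ hφ v₀ y₁ y₂ h12 κ p hs hp hk hg hpg
  refine ⟨Quotient st, act, Y, κ, p, hY1, hs, hp, hg, hpg, ?_, hY2⟩
  intro y y'
  rw [hk]
  have hKO : K G v₀ y₁ y₂ v₀ = Orb (MulAction.stabilizer G v₀) y₁ y₂ := by
    ext e
    constructor
    · rintro ⟨g, h1, h2⟩
      exact ⟨⟨g, h1⟩, h2⟩
    · rintro ⟨g, h2⟩
      exact ⟨g.1, g.2, h2⟩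
  unfold R Rch
  rw [hKO]

end Pool.Agent.SuT
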