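import Pool.Agent.Lib.MP_305fdd_al.Su.StmTree2
import Pool.Agent.Lib.MP_305fdd_al.Fr.T.Pot

/-!
# MP_305fdd_al, surface groups, TREES block: collapse of a tree
-/

set_option autoImplicit false

namespace Pool.Agent.SuT

open Pool.Agent.SuUp Pool.Agent.FrT

section half

variable {V : Type} {X : SimpleGraph V}

private theorem mem_of_half (hX : X.IsTree) {u v : V} (huv : X.Adj u v) (S : Set V)
    (hS : ∀ a b, X.Adj a b → a ∉ S → b ∈ S → a = u ∧ b = v) (hv : v ∈ S) :
    ∀ (n : ℕ) (x : V), X.dist x v = n → x ∈ Hf X u v → x ∈ S := by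
  intro n
  induction n with
  | zero =>
    intro x h _
    rw [(hX.connected.dist_eq_zero_iff).mp h]
    exact hv
  | succ n ih =>
    intro x h hx
    by_cases hxv : x = v
    · rw [hxv]; exact hv
    obtain ⟨c, hc, h1⟩ := first_edge hX hxv
    have hcH : c ∈ Hf X u v := by
      by_contra hcH
      exact hxv (cross_edge hX huv hcH hx hc.symm).2
    have hcd : X.dist c v = n := by
      rw [mem_Hf] at h1
      have h2 := dist_adj hX hc v
      have c1 : X.dist v c = X.dist c v := SimpleGraph.dist_comm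
      have c2 : X.dist v x = X.dist x v := SimpleGraph.dist_comm
      omega
    have h3 := ih c hcd hcH
    by_contra hxS
    obtain ⟨e1, _⟩ := hS x c hc hxS h3
    rw [e1] at hx
    exact left_not_mem_Hf hx

/-- a set of vertices which is only left along the edge `u v` is the half tree -/
private theorem half_iff (hX : X.IsTree) {u v : V} (huv : X.Adj u v) (S : Set V)
    (hS : ∀ a b, X.Adj a b → a ∉ S → b ∈ S → a = u ∧ b = v) (hu : u ∉ S) (hv : v ∈ S) (x : V) :
    x ∈ Hf X u v ↔ x ∈ S := by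
  constructor
  · exact mem_of_half hX huv S hS hv _ x rfl
  · intro hx
    by_contra h
    rw [not_mem_Hf hX huv] at h
    have h1 := mem_of_half hX huv.symm Sᶜ (fun a b hab ha hb => by
      obtain ⟨e1, e2⟩ := hS b a hab.symm hb (by simpa using ha)
      exact ⟨e2, e1⟩) hu _ x rfl h
    exact h1 hx

end half

section

variable {G : Type} [Group G] {V : Type} [MulAction G V] {X : SimpleGraph V} {u v : V}

/-- half trees at translates of the edge are unions of classes -/
private theorem rch_half (hT : TA G X) (huv : X.Adj u v) (g : G) {x y : V}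
    (h : Rch G X u v x y) : x ∈ Hf X (g • u) (g • v) ↔ y ∈ Hf X (g • u) (g • v) := by
  obtain ⟨w⟩ := h
  induction w with
  | nil => exact Iff.rfl
  | @cons a b c hab w ih =>
    rw [← ih]
    rw [SimpleGraph.deleteEdges_adj] at hab
    have huv' := hT.act g _ _ huv
    constructor
    · intro ha
      by_contra hb
      obtain ⟨e1, e2⟩ := cross_edge hT.tree huv' hb ha hab.1.symm
      exact hab.2 ⟨g, by rw [e1, e2]; exact Sym2.eq_swap⟩
    · intro hb
      by_contra ha
      obtain ⟨e1, e2⟩ := cross_edge hT.tree huv' ha hb hab.1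
      exact hab.2 ⟨g, by rw [e1, e2]⟩

/-- the classes -/
private def st (G : Type) [Group G] {V : Type} [MulAction G V] (X : SimpleGraph V) (u v : V) :
    Setoid V :=
  ⟨Rch G X u v, ⟨fun x => Rch.refl X u v x, fun h => h.symm, fun h h' => h.trans h'⟩⟩

/-- the action on the classes -/
@[instance_reducible] private def ac (hT : TA G X) : MulAction G (Quotient (st G X u v)) where
  smul g := Quotient.map (fun x => g • x) (fun _ _ h => Rch.smul hT.act g h)
  one_smul := by
    rintro ⟨x⟩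
    exact congrArg (Quotient.mk (st G X u v)) (one_smul G x)
  mul_smul := by
    rintro g h ⟨x⟩
    exact congrArg (Quotient.mk (st G X u v)) (mul_smul g h x)

end

theorem p_COL : S_COL := by
  intro G _ V _ X u v hT huv
  classical
  let _ := ac (u := u) (v := v) hT
  let κ : V → Quotient (st G X u v) := Quotient.mk (st G X u v)
  have hsurj : ∀ w, ∃ x, κ x = w := Quotient.exists_rep
  have heq : ∀ (g : G) x, κ (g • x) = g • κ x := fun g x => rfl
  have hiff : ∀ x y, κ x = κ y ↔ Rch G X u v x y := fun x y => Quotient.eq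
  have hhalf : ∀ (g : G) x y, κ x = κ y →
      (x ∈ Hf X (g • u) (g • v) ↔ y ∈ Hf X (g • u) (g • v)) := fun g x y h =>
    rch_half hT huv g ((hiff x y).1 h)
  have hr : ∀ g : G, g • v ∈ Hf X (g • u) (g • v) := fun g =>
    right_mem_Hf hT.tree (hT.act g _ _ huv)
  have hne : ∀ g : G, g • κ u ≠ g • κ v := by
    intro g h
    rw [← heq, ← heq] at h
    exact left_not_mem_Hf ((hhalf g _ _ h).2 (hr g))
  let Y : SimpleGraph (Quotient (st G X u v)) :=
    { Adj := fun w w' => ∃ g : G, (g • κ u = w ∧ g • κ v = w') ∨ (g • κ u = w' ∧ g • κ v = w)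
      symm := ⟨by
        rintro w w' ⟨g, h | h⟩
        · exact ⟨g, Or.inr h⟩
        · exact ⟨g, Or.inl h⟩⟩
      loopless := ⟨by
        rintro w ⟨g, ⟨h1, h2⟩ | ⟨h1, h2⟩⟩
        · exact hne g (h1.trans h2.symm)
        · exact hne g (h1.trans h2.symm)⟩ }
  have hY : ∀ w w', Y.Adj w w' ↔
      ∃ g : G, (g • κ u = w ∧ g • κ v = w') ∨ (g • κ u = w' ∧ g • κ v = w) := fun w w' => Iff.rfl
  -- the half trees
  let S : G → Set (Quotient (st G X u v)) := fun g => {w | ∃ x, κ x = w ∧ x ∈ Hf X (g • u) (g • v)}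
  have hS : ∀ g x, κ x ∈ S g ↔ x ∈ Hf X (g • u) (g • v) := by
    intro g x
    constructor
    · rintro ⟨y, hy, h⟩
      exact (hhalf g _ _ hy).1 h
    · intro h
      exact ⟨x, rfl, h⟩
  have hSu : ∀ g : G, g • κ u ∉ S g := by
    intro g h
    rw [← heq, hS] at h
    exact left_not_mem_Hf h
  have hSv : ∀ g : G, g • κ v ∈ S g := by
    intro g
    rw [← heq, hS]
    exact hr g
  -- an edge which crosses
  have hcr0 : ∀ g h : G, h • κ u ∉ S g → h • κ v ∈ S g → h • u = g • u ∧ h • v = g • v := by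
    intro g h h1 h2
    rw [← heq, hS] at h1 h2
    exact cross_edge hT.tree (hT.act g _ _ huv) h1 h2 (hT.act h _ _ huv)
  have hcr1 : ∀ g h : G, h • κ v ∉ S g → h • κ u ∈ S g → h • v = g • u ∧ h • u = g • v := by
    intro g h h1 h2
    rw [← heq, hS] at h1 h2
    exact cross_edge hT.tree (hT.act g _ _ huv) h1 h2 (hT.act h _ _ huv).symm
  have hcr : ∀ (g : G) a b, Y.Adj a b → a ∉ S g → b ∈ S g → a = g • κ u ∧ b = g • κ v := by
    rintro g a b ⟨h, ⟨rfl, rfl⟩ | ⟨rfl, rfl⟩⟩ ha hb
    · obtain ⟨e1, e2⟩ := hcr0 g h ha hb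
      rw [← heq, ← heq, ← heq, ← heq, e1, e2]
      exact ⟨rfl, rfl⟩
    · obtain ⟨e1, e2⟩ := hcr1 g h ha hb
      rw [← heq, ← heq, ← heq, ← heq, e1, e2]
      exact ⟨rfl, rfl⟩
  have hconn : Y.Connected := by
    have hstep : ∀ a b : V, X.Walk a b → Y.Reachable (κ a) (κ b) := by
      intro a b w
      induction w with
      | nil => exact SimpleGraph.Reachable.refl _
      | @cons a b c hab w ih =>
        refine SimpleGraph.Reachable.trans ?_ ih
        by_cases hO : s(a, b) ∈ Orb G u v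
        · obtain ⟨g, hg⟩ := hO
          refine SimpleGraph.Adj.reachable ?_
          rw [hY]
          rw [Sym2.eq_iff] at hg
          rcases hg with ⟨e1, e2⟩ | ⟨e1, e2⟩
          · exact ⟨g, Or.inl (by rw [e1, e2]; exact ⟨rfl, rfl⟩)⟩
          · exact ⟨g, Or.inr (by rw [e1, e2]; exact ⟨rfl, rfl⟩)⟩
        · rw [(hiff a b).2 (Rch.adj hab hO)]
    have : Nonempty (Quotient (st G X u v)) := ⟨κ u⟩
    refine ⟨fun w w' => ?_⟩
    obtain ⟨x, rfl⟩ := hsurj w
    obtain ⟨y, rfl⟩ := hsurj w'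
    obtain ⟨p⟩ := hT.tree.connected.preconnected x y
    exact hstep x y p
  have htree : Y.IsTree := by
    refine tree_of_pot hconn ?_
    have key : ∀ g : G, ∃ f : Quotient (st G X u v) → ℤ, f (g • κ u) ≠ f (g • κ v) ∧
        ∀ a b, Y.Adj a b → f a ≠ f b → (a = g • κ u ∧ b = g • κ v) ∨
          (a = g • κ v ∧ b = g • κ u) := by
      intro g
      refine ⟨fun w => if w ∈ S g then 1 else 0, ?_, ?_⟩
      · simp only
        rw [if_neg (hSu g), if_pos (hSv g)]
        norm_num
      · intro a b hab hf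
        simp only at hf
        by_cases ha : a ∈ S g
        · by_cases hb : b ∈ S g
          · rw [if_pos ha, if_pos hb] at hf
            exact absurd rfl hf
          · obtain ⟨e1, e2⟩ := hcr g b a hab.symm hb ha
            exact Or.inr ⟨e2, e1⟩
        · by_cases hb : b ∈ S g
          · exact Or.inl (hcr g a b hab ha hb)
          · rw [if_neg ha, if_neg hb] at hf
            exact absurd rfl hf
    rintro w w' ⟨g, ⟨rfl, rfl⟩ | ⟨rfl, rfl⟩⟩
    · exact key g
    · obtain ⟨f, h1, h2⟩ := key g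
      exact ⟨f, h1.symm, fun a b hab hf => (h2 a b hab hf).symm⟩
  have hact : ∀ (g : G) (x y : Quotient (st G X u v)), Y.Adj x y → Y.Adj (g • x) (g • y) := by
    rintro g x y ⟨h, ⟨rfl, rfl⟩ | ⟨rfl, rfl⟩⟩
    · exact ⟨g * h, Or.inl ⟨mul_smul _ _ _, mul_smul _ _ _⟩⟩
    · exact ⟨g * h, Or.inr ⟨mul_smul _ _ _, mul_smul _ _ _⟩⟩
  have hninv0 : ∀ (g h : G), ¬ (g • h • κ u = h • κ v ∧ g • h • κ v = h • κ u) := by
    rintro g h ⟨h1, h2⟩
    have h3 : (g * h) • κ u ∈ S h := by
      rw [mul_smul, h1]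
      exact hSv h
    have h4 : (g * h) • κ v ∉ S h := by
      rw [mul_smul, h2]
      exact hSu h
    obtain ⟨e1, e2⟩ := hcr1 h (g * h) h4 h3
    rw [mul_smul] at e1 e2
    exact hT.noinv g _ _ (hT.act h _ _ huv) ⟨e2, e1⟩
  have hTA : TA G Y := by
    refine ⟨htree, hact, ?_⟩
    rintro g x y ⟨h, ⟨rfl, rfl⟩ | ⟨rfl, rfl⟩⟩ ⟨h1, h2⟩
    · exact hninv0 g h ⟨h1, h2⟩
    · exact hninv0 g h ⟨h2, h1⟩
  have hadj : Y.Adj (κ u) (κ v) := ⟨1, Or.inl ⟨one_smul _ _, one_smul _ _⟩⟩
  refine ⟨Quotient (st G X u v), inferInstance, Y, κ, hTA, hsurj, heq, hiff, hY, ?_, ?_⟩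
  · intro x
    have h1 : ∀ y : Quotient (st G X u v), (1 : G) • y = y := one_smul G
    have h2 := half_iff htree hadj (S 1) (fun a b hab ha hb => by
      have h3 := hcr 1 a b hab ha hb
      rwa [h1, h1] at h3) (by
      have h3 := hSu 1
      rwa [h1] at h3) (by
      have h3 := hSv 1
      rwa [h1] at h3) (κ x)
    rw [h2, hS, one_smul, one_smul]
  · ext g
    rw [mem_ES, mem_ES]
    constructor
    · rintro ⟨h1, h2⟩
      have h3 : ∀ y : Quotient (st G X u v), (1 : G) • y = y := one_smul G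
      have h4 := hcr0 1 g (by
        rw [h1]
        have h5 := hSu 1
        rwa [h3] at h5) (by
        rw [h2]
        have h5 := hSv 1
        rwa [h3] at h5)
      rwa [one_smul, one_smul] at h4
    · rintro ⟨h1, h2⟩
      rw [← heq, ← heq, h1, h2]
      exact ⟨rfl, rfl⟩

end Pool.Agent.SuT
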