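import Pool.Agent.Lib.MP_305fdd_al.Su.StmTree2
import Pool.Agent.Lib.MP_305fdd_al.Fr.S.Mat

/-!
# MP_305fdd_al, surface groups, TREES block: deformations, part 1

`EE a b` is `1 + X N_v`, `v = (a, b)`; `CC M` a constant matrix; `qM M a b = q_M(v)`.
-/

set_option autoImplicit false

namespace Pool.Agent.SuT

open Matrix Polynomial Pool.Agent.SuUp Pool.Agent.FrS Pool.Agent.FrT

section const

variable {F : Type} [Field F]

/-- constant matrices -/
noncomputable def CC (M : SpecialLinearGroup (Fin 2) F) : SpecialLinearGroup (Fin 2) F[X] :=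
  SpecialLinearGroup.map C M

theorem CC_apply (M : SpecialLinearGroup (Fin 2) F) (i j : Fin 2) : (CC M).1 i j = C (M.1 i j) :=
  rfl

theorem CC_mul (M N : SpecialLinearGroup (Fin 2) F) : CC (M * N) = CC M * CC N :=
  map_mul _ _ _

theorem CC_one : CC (1 : SpecialLinearGroup (Fin 2) F) = 1 := map_one _

theorem CC_inv (M : SpecialLinearGroup (Fin 2) F) : CC M⁻¹ = (CC M)⁻¹ := map_inv _ _

/-- the value at zero -/
noncomputable abbrev ev0 : SpecialLinearGroup (Fin 2) F[X] →* SpecialLinearGroup (Fin 2) F :=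
  SpecialLinearGroup.map (evalRingHom (0 : F))

theorem ev0_CC (M : SpecialLinearGroup (Fin 2) F) : ev0 (CC M) = M := by
  apply Subtype.ext
  ext i j
  change eval 0 (C (M.1 i j)) = M.1 i j
  rw [eval_C]

theorem CC_trace (M : SpecialLinearGroup (Fin 2) F) : (CC M).1.trace = C M.1.trace := by
  rw [Matrix.trace_fin_two, Matrix.trace_fin_two, map_add]
  rfl

/-- the quadratic form `q_M(v)` -/
def qM (M : SpecialLinearGroup (Fin 2) F) (a b : F) : F :=
  M.1 1 0 * a ^ 2 + (M.1 0 0 + M.1 1 1) * a * b + M.1 0 1 * b ^ 2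

/-- finitely many nonzero quadratic forms have a common `v = (1, t)` -/
theorem exists_qM [Infinite F] [CharP F 2] (l : List (SpecialLinearGroup (Fin 2) F))
    (hl : ∀ M ∈ l, ¬ ∃ c : F, M.1 = c • (1 : Matrix (Fin 2) (Fin 2) F)) :
    ∃ t : F, ∀ M ∈ l, qM M 1 t ≠ 0 := by
  classical
  let P : SpecialLinearGroup (Fin 2) F → F[X] := fun M =>
    C (M.1 1 0) + C (M.1 0 0 + M.1 1 1) * X + C (M.1 0 1) * X ^ 2
  have hP : ∀ M ∈ l, P M ≠ 0 := by
    intro M hM h0
    apply hl M hM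
    have h1 : (P M).coeff 0 = 0 := by rw [h0, coeff_zero]
    have h2 : (P M).coeff 1 = 0 := by rw [h0, coeff_zero]
    have h3 : (P M).coeff 2 = 0 := by rw [h0, coeff_zero]
    simp [P, coeff_X, coeff_X_pow, coeff_C] at h1 h2 h3
    refine ⟨M.1 0 0, ?_⟩
    ext i j
    fin_cases i <;> fin_cases j
    · simp
    · simpa using h3
    · simpa using h1
    · have h4 : M.1 0 0 = M.1 1 1 := CharTwo.add_eq_zero.1 h2
      simp [h4]
  have hprod : (l.map P).prod ≠ 0 := by
    intro h0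
    rw [List.prod_eq_zero_iff] at h0
    obtain ⟨M, hM, h0⟩ := List.mem_map.1 h0
    exact hP M hM h0
  by_contra hne
  push Not at hne
  apply hprod
  apply Polynomial.funext
  intro t
  obtain ⟨M, hM, h0⟩ := hne t
  have e1 : eval t (l.map P).prod = ((l.map P).map (evalRingHom t)).prod :=
    map_list_prod (evalRingHom t) (l.map P)
  rw [eval_zero, e1, List.prod_eq_zero_iff, List.map_map]
  refine List.mem_map.2 ⟨M, hM, ?_⟩
  simp only [qM] at h0
  simp only [P, Function.comp_apply, coe_evalRingHom, eval_add, eval_mul, eval_C, eval_X, eval_pow]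
  linear_combination h0

/-- over the deformation which conjugates `Q` -/
theorem Nsc.nsc {G : Type} [Group G] {ρ : G →* SpecialLinearGroup (Fin 2) F} (h : Nsc ρ) {g : G}
    (hg : g ≠ 1) : ¬ ∃ c : F, (ρ g).1 = c • (1 : Matrix (Fin 2) (Fin 2) F) := fun hc => hg (h g hc)

/-- two functions which are multiplicative on `A ⊔ B` and agree on `A` and `B` agree on `A ⊔ B` -/
theorem mulOn_ext {G Q : Type} [Group G] [Group Q] {A B : Subgroup G} {r r' : G → Q}
    (h : MulOn (A ⊔ B) r) (h' : MulOn (A ⊔ B) r') (hA : ∀ a ∈ A, r a = r' a)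
    (hB : ∀ b ∈ B, r b = r' b) : ∀ x ∈ A ⊔ B, r x = r' x := by
  intro x hx
  have hx' := hx
  rw [Subgroup.sup_eq_closure] at hx
  have key : ∀ y ∈ Subgroup.closure ((A : Set G) ∪ B), y ∈ A ⊔ B ∧ r y = r' y := by
    intro y hy
    induction hy using Subgroup.closure_induction with
    | mem z hz =>
      rcases hz with hz | hz
      · exact ⟨Subgroup.mem_sup_left hz, hA z hz⟩
      · exact ⟨Subgroup.mem_sup_right hz, hB z hz⟩
    | one => exact ⟨one_mem _, by rw [h.one, h'.one]⟩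
    | mul y z _ _ hy hz =>
      exact ⟨mul_mem hy.1 hz.1, by rw [h _ hy.1 _ hz.1, h' _ hy.1 _ hz.1, hy.2, hz.2]⟩
    | inv y _ hy => exact ⟨inv_mem hy.1, by rw [h.inv hy.1, h'.inv hy.1, hy.2]⟩
  exact (key x hx).2

theorem mulOn_hom {G Q R : Type} [Group G] [Group Q] [Group R] {A : Subgroup G} {r : G → Q}
    (h : MulOn A r) (f : Q →* R) : MulOn A (fun g => f (r g)) := by
  intro x hx y hy
  change f (r (x * y)) = _
  rw [h x hx y hy, map_mul]

theorem mulOn_rho {G Q : Type} [Group G] [Group Q] (A : Subgroup G) (ρ : G →* Q) :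
    MulOn A (fun g => ρ g) := fun x _ y _ => map_mul ρ x y

theorem mulOn_le {G Q : Type} [Group G] [Group Q] {A B : Subgroup G} {r : G → Q} (h : MulOn B r)
    (hAB : A ≤ B) : MulOn A r := fun x hx y hy => h x (hAB hx) y (hAB hy)

end const

section mats

variable {F : Type} [Field F] [CharP F 2]

/-- the elementary matrix `E_v = 1 + X N_v`, `v = (a, b)` -/
noncomputable def EE (a b : F) : SpecialLinearGroup (Fin 2) F[X] :=
  ⟨!![1 + C (a * b) * X, C (a ^ 2) * X; C (b ^ 2) * X, 1 + C (a * b) * X], by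
    have h2 : (2 : F[X]) = 0 := CharTwo.two_eq_zero
    rw [Matrix.det_fin_two_of]
    simp only [map_mul, map_pow]
    linear_combination (C a * C b * X) * h2⟩

theorem ev0_EE (a b : F) : ev0 (EE a b) = 1 := by
  apply Subtype.ext
  ext i j
  fin_cases i <;> fin_cases j <;> simp [EE, ev0]

theorem EE_inv (a b : F) : (EE a b)⁻¹ = EE a b := by
  have h2 : (2 : F[X]) = 0 := CharTwo.two_eq_zero
  apply Subtype.ext
  rw [Matrix.SpecialLinearGroup.coe_inv]
  change Matrix.adjugate !![1 + C (a * b) * X, C (a ^ 2) * X; C (b ^ 2) * X, 1 + C (a * b) * X] =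
    !![1 + C (a * b) * X, C (a ^ 2) * X; C (b ^ 2) * X, 1 + C (a * b) * X]
  rw [Matrix.adjugate_fin_two_of, CharTwo.neg_eq, CharTwo.neg_eq]

/-- the trace of `E_v M E_v N` -/
theorem EE_trace (M N : SpecialLinearGroup (Fin 2) F) (a b : F) :
    ∃ c0 c1 : F, (EE a b * CC M * EE a b * CC N).1.trace =
      C c0 + C c1 * X + C (qM M a b * qM N a b) * X ^ 2 := by
  have e : ∀ P : SpecialLinearGroup (Fin 2) F, (CC P).1 =
      !![C (P.1 0 0), C (P.1 0 1); C (P.1 1 0), C (P.1 1 1)] := by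
    intro P
    ext i j
    fin_cases i <;> fin_cases j <;> rfl
  refine ⟨(M.1 0 0 * N.1 0 0 + M.1 0 1 * N.1 1 0) + (M.1 1 0 * N.1 0 1 + M.1 1 1 * N.1 1 1),
    (a * b * M.1 0 0 + a ^ 2 * M.1 1 0) * N.1 0 0 + (a * b * M.1 0 1 + a ^ 2 * M.1 1 1) * N.1 1 0 +
    ((b ^ 2 * M.1 0 0 + a * b * M.1 1 0) * N.1 0 1 + (b ^ 2 * M.1 0 1 + a * b * M.1 1 1) * N.1 1 1) +
    ((M.1 0 0 * (a * b) + M.1 0 1 * b ^ 2) * N.1 0 0 + (M.1 0 0 * a ^ 2 + M.1 0 1 * (a * b)) * N.1 1 0) +
    ((M.1 1 0 * (a * b) + M.1 1 1 * b ^ 2) * N.1 0 1 + (M.1 1 0 * a ^ 2 + M.1 1 1 * (a * b)) * N.1 1 1),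
    ?_⟩
  change ((EE a b).1 * (CC M).1 * (EE a b).1 * (CC N).1).trace = _
  rw [e, e]
  change (!![1 + C (a * b) * X, C (a ^ 2) * X; C (b ^ 2) * X, 1 + C (a * b) * X] * _ *
    !![1 + C (a * b) * X, C (a ^ 2) * X; C (b ^ 2) * X, 1 + C (a * b) * X] * _).trace = _
  rw [Matrix.mul_fin_two, Matrix.mul_fin_two, Matrix.mul_fin_two, Matrix.trace_fin_two_of]
  simp only [qM, map_mul, map_pow, map_add]
  ring

omit [CharP F 2] in
theorem quad_coeff (c0 c1 c2 : F) : (C c0 + C c1 * X + C c2 * X ^ 2 : F[X]).coeff 2 = c2 := by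
  rw [coeff_add, coeff_add, coeff_C_mul, coeff_C_mul, coeff_X_pow, coeff_X, coeff_C]
  simp

theorem EE_trace_coeff (M N : SpecialLinearGroup (Fin 2) F) (a b : F) :
    (EE a b * CC M * EE a b * CC N).1.trace.coeff 2 = qM M a b * qM N a b := by
  obtain ⟨c0, c1, h⟩ := EE_trace M N a b
  rw [h, quad_coeff]

/-- the trace of `M E_v E_w` for `v = (a, b)`, `w = (c, d)` -/
theorem EE2_trace (M : SpecialLinearGroup (Fin 2) F) (a b c d : F) :
    ∃ c0 c1 : F, (CC M * EE a b * EE c d).1.trace =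
      C c0 + C c1 * X + C ((b * c + a * d) *
        (d * (M.1 0 0 * a + M.1 0 1 * b) + c * (M.1 1 0 * a + M.1 1 1 * b))) * X ^ 2 := by
  have e : ∀ P : SpecialLinearGroup (Fin 2) F, (CC P).1 =
      !![C (P.1 0 0), C (P.1 0 1); C (P.1 1 0), C (P.1 1 1)] := by
    intro P
    ext i j
    fin_cases i <;> fin_cases j <;> rfl
  refine ⟨M.1 0 0 + M.1 1 1,
    (M.1 0 0 * (a * b) + M.1 0 1 * b ^ 2) + (M.1 1 0 * a ^ 2 + M.1 1 1 * (a * b)) +
    (M.1 0 0 * (c * d) + M.1 0 1 * d ^ 2) + (M.1 1 0 * c ^ 2 + M.1 1 1 * (c * d)),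
    ?_⟩
  change ((CC M).1 * (EE a b).1 * (EE c d).1).trace = _
  rw [e]
  change (_ * !![1 + C (a * b) * X, C (a ^ 2) * X; C (b ^ 2) * X, 1 + C (a * b) * X] *
    !![1 + C (c * d) * X, C (c ^ 2) * X; C (d ^ 2) * X, 1 + C (c * d) * X]).trace = _
  rw [Matrix.mul_fin_two, Matrix.mul_fin_two, Matrix.trace_fin_two_of]
  simp only [map_mul, map_pow, map_add]
  ring

theorem EE2_trace_coeff (M : SpecialLinearGroup (Fin 2) F) (a b c d : F) :
    (CC M * EE a b * EE c d).1.trace.coeff 2 = (b * c + a * d) *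
        (d * (M.1 0 0 * a + M.1 0 1 * b) + c * (M.1 1 0 * a + M.1 1 1 * b)) := by
  obtain ⟨c0, c1, h⟩ := EE2_trace M a b c d
  rw [h, quad_coeff]

end mats

/-- a field which is an algebra over `ℤ/2` has characteristic two -/
theorem charP_two (F : Type) [Field F] [Algebra (ZMod 2) F] : CharP F 2 :=
  charP_of_injective_algebraMap (algebraMap (ZMod 2) F).injective 2

theorem trace_inv {R : Type} [CommRing R] (M : SpecialLinearGroup (Fin 2) R) :
    (M⁻¹).1.trace = M.1.trace := by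
  rw [Matrix.SpecialLinearGroup.coe_inv, Matrix.adjugate_fin_two, Matrix.trace_fin_two_of,
    Matrix.trace_fin_two, add_comm]

theorem trace_conjR {R : Type} [CommRing R] (P A : SpecialLinearGroup (Fin 2) R) :
    (P * A * P⁻¹).1.trace = A.1.trace := by
  change ((P.1 * A.1) * (P⁻¹).1).trace = _
  rw [Matrix.trace_mul_comm, ← Matrix.mul_assoc]
  change (((P⁻¹ * P) * A : SpecialLinearGroup (Fin 2) R)).1.trace = _
  rw [inv_mul_cancel, one_mul]

theorem trace_mulOn_conj {G R : Type} [Group G] [CommRing R] {A : Subgroup G}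
    {r : G → SpecialLinearGroup (Fin 2) R} (h : MulOn A r) {z b : G} (hz : z ∈ A) (hb : b ∈ A) :
    (r (b * z * b⁻¹)).1.trace = (r z).1.trace := by
  rw [h _ (A.mul_mem hb hz) _ (A.inv_mem hb), h _ hb _ hz, h.inv hb, trace_conjR]

theorem p_DE0 : S_DE0 := by
  intro G F _ _ _ ρ A z z' b hz hz' hb h
  refine ⟨fun r hr h0 => (h r hr h0).symm, fun r hr h0 => ?_, fun r hr h0 => ?_, fun r hr h0 => ?_⟩
  · rw [hr.inv hz', trace_inv]
    exact h r hr h0
  · rw [trace_mulOn_conj hr hz' hb]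
    exact h r hr h0
  · rw [trace_mulOn_conj hr hz hb]
    exact h r hr h0

theorem p_DE1 : S_DE1 := by
  intro G F _ _ _ _ ρ A P Q h p x b hN hA hh hh1 hp hp1 hx hb hc hD
  have := charP_two F
  obtain ⟨t, ht⟩ := exists_qM [ρ h, ρ p] (by
    intro M hM
    rcases List.mem_cons.1 hM with rfl | hM
    · exact hN.nsc hh1
    · rcases List.mem_cons.1 hM with rfl | hM
      · exact hN.nsc hp1
      · simp at hM)
  set E : SpecialLinearGroup (Fin 2) F[X] := EE 1 t with hE
  obtain ⟨q, hq, hqP, hqQ⟩ := hA.ext F[X] (fun g => CC (ρ g)) (fun g => E * CC (ρ g) * E)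
    (fun y _ z _ => by change CC (ρ (y * z)) = _; rw [map_mul, CC_mul])
    (fun y _ z _ => by
      change E * CC (ρ (y * z)) * E = (E * CC (ρ y) * E) * (E * CC (ρ z) * E)
      have e1 : E * E = 1 := by rw [hE]; nth_rw 1 [← EE_inv]; exact inv_mul_cancel _
      rw [map_mul, CC_mul]
      calc E * (CC (ρ y) * CC (ρ z)) * E = E * CC (ρ y) * 1 * CC (ρ z) * E := by
            simp only [mul_assoc, one_mul]
        _ = E * CC (ρ y) * (E * E) * CC (ρ z) * E := by rw [e1]
        _ = _ := by simp only [mul_assoc])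
    (by
      intro d hd
      rw [Subgroup.mem_bot] at hd
      subst hd
      have e1 : E * E = 1 := by rw [hE]; nth_rw 1 [← EE_inv]; exact inv_mul_cancel _
      change CC (ρ 1) = E * CC (ρ 1) * E
      rw [map_one, CC_one, mul_one, e1])
  have hPA : P ≤ A := by rw [hA.sup]; exact le_sup_left
  have hQA : Q ≤ A := by rw [hA.sup]; exact le_sup_right
  have hev : ∀ a ∈ A, ev0 (q a) = ρ a := by
    intro a ha
    have h1 := mulOn_ext (A := P) (B := Q) (r := fun g => ev0 (q g)) (r' := fun g => ρ g)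
      (mulOn_hom (by rw [← hA.sup]; exact hq) ev0) (mulOn_rho _ ρ)
      (fun y hy => by rw [hqP y hy, ev0_CC])
      (fun y hy => by rw [hqQ y hy, map_mul, map_mul, ev0_CC, hE, ev0_EE, one_mul, mul_one])
    exact h1 a (by rw [← hA.sup]; exact ha)
  have h1 := hD q hq hev
  have h2 : (q (h * p)).1.trace.coeff 2 = qM (ρ h) 1 t * qM (ρ p) 1 t := by
    rw [hq h (hQA hh) p (hPA hp), hqP p hp, hqQ h hh]
    exact EE_trace_coeff _ _ _ _
  have h3 : ∃ c : F, (q x).1.trace = C c := by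
    have e1 : (q x).1.trace = (q (b⁻¹ * x * b)).1.trace := by
      have e2 := trace_mulOn_conj hq (z := x) (b := b⁻¹) hx (A.inv_mem hb)
      rw [inv_inv] at e2
      exact e2.symm
    rcases hc with hc | hc
    · refine ⟨(ρ (b⁻¹ * x * b)).1.trace, ?_⟩
      rw [e1, hqP _ hc, CC_trace]
    · refine ⟨(ρ (b⁻¹ * x * b)).1.trace, ?_⟩
      have e3 : E * CC (ρ (b⁻¹ * x * b)) * E = E * CC (ρ (b⁻¹ * x * b)) * E⁻¹ := by
        rw [hE, EE_inv]
      rw [e1, hqQ _ hc, e3, trace_conjR, CC_trace]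
  obtain ⟨c, hcc⟩ := h3
  rw [h1, hcc] at h2
  have h4 : (C c : F[X]).coeff 2 = 0 := by simp
  rw [h4] at h2
  exact mul_ne_zero (ht _ (by simp)) (ht _ (by simp)) h2.symm

theorem p_DE3 : S_DE3 := by
  intro G F _ _ _ _ ρ A P s c hN hA hc hD
  have := charP_two F
  have h2 : (2 : F) = 0 := CharTwo.two_eq_zero
  have hPA : P ≤ A := by rw [hA.sup]; exact le_sup_left
  have hsA : s ∈ A := by
    rw [hA.sup]
    exact Subgroup.mem_sup_right (Subgroup.mem_zpowers s)
  -- the form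
  have key : ∀ a b d e : F, (b * d + a * e) *
      (e * ((ρ s).1 0 0 * a + (ρ s).1 0 1 * b) + d * ((ρ s).1 1 0 * a + (ρ s).1 1 1 * b)) =
      (b * d + a * e) * (e * ((ρ c * ρ s).1 0 0 * a + (ρ c * ρ s).1 0 1 * b) +
        d * ((ρ c * ρ s).1 1 0 * a + (ρ c * ρ s).1 1 1 * b)) := by
    intro a b d e
    obtain ⟨q, hq, hqP, hqs⟩ := hA.ext F[X] (fun g => CC (ρ g)) (CC (ρ s) * EE a b * EE d e)
      (fun y _ z _ => by change CC (ρ (y * z)) = _; rw [map_mul, CC_mul])
      (by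
        intro y hy
        rw [Subgroup.mem_bot] at hy
        subst hy
        rw [mul_one, inv_mul_cancel, map_one, CC_one, mul_one, mul_inv_cancel])
    have hev : ∀ y ∈ A, ev0 (q y) = ρ y := by
      intro y hy
      have hqz : ∀ z ∈ Subgroup.zpowers s, ev0 (q z) = ρ z := by
        have h3 : ev0 (q s) = ρ s := by
          rw [hqs, map_mul, map_mul, ev0_CC, ev0_EE, ev0_EE, mul_one, mul_one]
        have h4 : MulOn (Subgroup.zpowers s) (fun g => ev0 (q g)) :=
          mulOn_hom (mulOn_le hq (by rw [Subgroup.zpowers_le]; exact hsA)) ev0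
        intro z hz
        obtain ⟨n, rfl⟩ := Subgroup.mem_zpowers_iff.1 hz
        have h5 : ∀ m : ℕ, ev0 (q (s ^ m)) = ρ (s ^ m) := by
          intro m
          induction m with
          | zero => rw [pow_zero]; exact (h4.one).trans (map_one ρ).symm
          | succ m ih =>
            have h6 := h4 (s ^ m) (Subgroup.npow_mem_zpowers s m) s (Subgroup.mem_zpowers s)
            rw [pow_succ, map_mul, ← ih, ← h3]
            exact h6
        cases n with
        | ofNat m => simpa using h5 m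
        | negSucc m =>
          rw [zpow_negSucc]
          have h6 := h4.inv (Subgroup.npow_mem_zpowers s (m + 1))
          change ev0 (q (s ^ (m + 1))⁻¹) = _
          rw [map_inv, ← h5]
          exact h6
      have h1 := mulOn_ext (A := P) (B := Subgroup.zpowers s) (r := fun g => ev0 (q g))
        (r' := fun g => ρ g) (mulOn_hom (by rw [← hA.sup]; exact hq) ev0) (mulOn_rho _ ρ)
        (fun z hz => by rw [hqP z hz, ev0_CC]) hqz
      exact h1 y (by rw [← hA.sup]; exact hy)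
    have h3 := hD q hq hev
    rw [hq s hsA c (hPA hc), hqs, hqP c hc] at h3
    have h4 : (CC (ρ s) * EE a b * EE d e * CC (ρ c)).1.trace =
        (CC (ρ c * ρ s) * EE a b * EE d e).1.trace := by
      have e1 : CC (ρ c * ρ s) * EE a b * EE d e =
          CC (ρ c) * (CC (ρ s) * EE a b * EE d e * CC (ρ c)) * (CC (ρ c))⁻¹ := by
        rw [CC_mul]; group
      rw [e1, trace_conjR]
    rw [h4] at h3
    have h5 := congrArg (fun f : F[X] => f.coeff 2) h3
    simp only [EE2_trace_coeff] at h5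
    exact h5
  have k1 := key 1 0 0 1
  have k2 := key 0 1 1 0
  have k3 := key 1 0 1 1
  have k4 := key 0 1 1 1
  simp only [mul_one, mul_zero, zero_mul, one_mul, add_zero, zero_add] at k1 k2 k3 k4
  have e00 : (ρ s).1 0 0 = (ρ c * ρ s).1 0 0 := k1
  have e11 : (ρ s).1 1 1 = (ρ c * ρ s).1 1 1 := k2
  have e10 : (ρ s).1 1 0 = (ρ c * ρ s).1 1 0 := by
    rw [e00] at k3
    exact add_left_cancel k3
  have e01 : (ρ s).1 0 1 = (ρ c * ρ s).1 0 1 := by
    rw [e11] at k4
    exact add_right_cancel k4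
  have e : ρ s = ρ c * ρ s := sl_ext e00 e01 e10 e11
  have e2 : ρ c = 1 := by
    have := mul_right_cancel (a := (1 : SpecialLinearGroup (Fin 2) F)) (b := ρ s) (c := ρ c)
      (by rw [one_mul]; exact e)
    exact this.symm
  apply hN c
  refine ⟨1, ?_⟩
  rw [e2, one_smul]
  rfl

end Pool.Agent.SuT
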