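import Pool.Agent.Lib.MP_305fdd_al.Su.StmTree2

/-!
# MP_305fdd_al, surface groups, TREES block: deformations, part 2

Only the vectors `v = (1, t)` are used: `N t = !![t, 1; t ^ 2, t]`, `E t = 1 + X N t`.
-/

set_option autoImplicit false

namespace Pool.Agent.SuT

open Matrix Polynomial Pool.Agent.SuUp Pool.Agent.FrS Pool.Agent.FrT

section

variable {F : Type} [Field F]

private theorem de2_vm {R : Type} [CommRing R] (A B : SpecialLinearGroup (Fin 2) R) :
    (A * B).1 = A.1 * B.1 := rfl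

private theorem de2_v1 {R : Type} [CommRing R] :
    (1 : SpecialLinearGroup (Fin 2) R).1 = 1 := rfl

private def de2_N (t : F) : Matrix (Fin 2) (Fin 2) F := !![t, 1; t ^ 2, t]

private def de2_q (M : Matrix (Fin 2) (Fin 2) F) (t : F) : F :=
  M 1 0 + (M 0 0 + M 1 1) * t + M 0 1 * t ^ 2

private theorem de2_tr (M : Matrix (Fin 2) (Fin 2) F) (t : F) :
    (M * de2_N t).trace = de2_q M t := by
  simp only [de2_N, de2_q, Matrix.trace_fin_two, Matrix.mul_apply, Fin.sum_univ_two,
    Matrix.of_apply, Matrix.cons_val', Matrix.cons_val_zero, Matrix.cons_val_one,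
    Matrix.cons_val_fin_one]
  ring

private theorem de2_nmn (M : Matrix (Fin 2) (Fin 2) F) (t : F) :
    de2_N t * M * de2_N t = de2_q M t • de2_N t := by
  ext i j
  fin_cases i <;> fin_cases j <;>
    simp only [de2_N, de2_q, Matrix.mul_apply, Fin.sum_univ_two, Matrix.smul_apply, smul_eq_mul,
      Matrix.of_apply, Matrix.cons_val', Matrix.cons_val_zero, Matrix.cons_val_one,
      Matrix.cons_val_fin_one, Fin.zero_eta, Fin.mk_one] <;> ring

private theorem de2_scal [Infinite F] [CharP F 2] (M M' : Matrix (Fin 2) (Fin 2) F)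
    (h : ∀ t : F, de2_q M t * de2_q M' t = 0) :
    (∃ c : F, M = c • (1 : Matrix (Fin 2) (Fin 2) F)) ∨
      ∃ c : F, M' = c • (1 : Matrix (Fin 2) (Fin 2) F) := by
  have key : ∀ K : Matrix (Fin 2) (Fin 2) F,
      C (K 1 0) + C (K 0 0 + K 1 1) * X + C (K 0 1) * X ^ 2 = (0 : F[X]) →
      ∃ c : F, K = c • (1 : Matrix (Fin 2) (Fin 2) F) := by
    intro K hK
    have h0 : K 1 0 = 0 := by
      have := congrArg (fun p : F[X] => p.coeff 0) hK
      simpa using this
    have h1 : K 0 0 + K 1 1 = 0 := by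
      have := congrArg (fun p : F[X] => p.coeff 1) hK
      simpa [coeff_X, coeff_C, coeff_X_pow] using this
    have h2 : K 0 1 = 0 := by
      have := congrArg (fun p : F[X] => p.coeff 2) hK
      simpa [coeff_X, coeff_C, coeff_X_pow] using this
    have h3 : K 1 1 = K 0 0 := by
      have h4 := CharTwo.add_self_eq_zero (K 0 0)
      linear_combination h1 - h4
    refine ⟨K 0 0, ?_⟩
    ext i j
    fin_cases i <;> fin_cases j <;> simp [h0, h2, h3]
  have hp : (C (M 1 0) + C (M 0 0 + M 1 1) * X + C (M 0 1) * X ^ 2) *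
      (C (M' 1 0) + C (M' 0 0 + M' 1 1) * X + C (M' 0 1) * X ^ 2) = (0 : F[X]) := by
    apply Polynomial.funext
    intro t
    have := h t
    simp only [de2_q] at this
    simpa using this
  rcases mul_eq_zero.1 hp with h1 | h1
  · exact Or.inl (key M h1)
  · exact Or.inr (key M' h1)

private noncomputable def de2_E [CharP F 2] (t : F) : SpecialLinearGroup (Fin 2) F[X] :=
  ⟨1 + (X : F[X]) • (C : F →+* F[X]).mapMatrix (de2_N t), by
    have h2 : (2 : F[X]) = 0 := by
      have := CharTwo.add_self_eq_zero (1 : F)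
      have h3 : (C ((1 : F) + 1) : F[X]) = C 0 := congrArg C this
      rw [C_add, C_1, C_0] at h3
      rw [← h3]
      norm_num
    rw [Matrix.det_fin_two]
    simp [de2_N]
    linear_combination (X * C t) * h2⟩

private theorem de2_E_val [CharP F 2] (t : F) :
    (de2_E t).1 = 1 + (X : F[X]) • (C : F →+* F[X]).mapMatrix (de2_N t) := rfl

private theorem de2_E_sq [CharP F 2] (t : F) : (de2_E t)⁻¹ = de2_E t := by
  rw [inv_eq_iff_mul_eq_one]
  apply Subtype.ext
  have h2 : (2 : F[X]) = 0 := by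
    have := CharTwo.add_self_eq_zero (1 : F)
    have h3 : (C ((1 : F) + 1) : F[X]) = C 0 := congrArg C this
    rw [C_add, C_1, C_0] at h3
    rw [← h3]
    norm_num
  have hN : de2_N t * de2_N t = 0 := by
    ext i j
    have h3 := CharTwo.add_self_eq_zero t
    fin_cases i <;> fin_cases j <;>
      simp only [de2_N, Matrix.mul_apply, Fin.sum_univ_two, Matrix.zero_apply,
        Matrix.of_apply, Matrix.cons_val', Matrix.cons_val_zero, Matrix.cons_val_one,
        Matrix.cons_val_fin_one, Fin.zero_eta, Fin.mk_one]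
    · linear_combination t * h3
    · linear_combination h3
    · linear_combination t ^ 2 * h3
    · linear_combination t * h3
  have hN' : (C : F →+* F[X]).mapMatrix (de2_N t) * (C : F →+* F[X]).mapMatrix (de2_N t) = 0 := by
    rw [← map_mul, hN, map_zero]
  rw [de2_vm, de2_v1, de2_E_val]
  rw [mul_add, add_mul, add_mul, one_mul, mul_one, one_mul, smul_mul_smul_comm, hN', smul_zero,
    add_zero, add_assoc, ← two_smul (R := F[X]), h2, zero_smul, add_zero]

private theorem de2_E_ev [CharP F 2] (t : F) :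
    SpecialLinearGroup.map (evalRingHom (0 : F)) (de2_E t) = 1 := by
  apply Subtype.ext
  ext i j
  rw [SpecialLinearGroup.map_apply_coe, de2_E_val]
  fin_cases i <;> fin_cases j <;> simp [de2_N]

end

private theorem de2_ext {G F : Type} [Group G] [Field F] [Algebra (ZMod 2) F] [CharP F 2]
    (ρ : G →* SpecialLinearGroup (Fin 2) F) {A P : Subgroup G} {s : G} (hA : IsHn A P ⊥ s)
    (t : F) :
    ∃ q : G → SpecialLinearGroup (Fin 2) F[X], MulOn A q ∧
      (∀ x ∈ P, q x = SpecialLinearGroup.map C (ρ x)) ∧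
      q s = SpecialLinearGroup.map C (ρ s) * de2_E t ∧
      ∀ a ∈ A, SpecialLinearGroup.map (evalRingHom (0 : F)) (q a) = ρ a := by
  obtain ⟨q, hq, h1, h2⟩ := hA.ext F[X] (fun g => SpecialLinearGroup.map C (ρ g))
    (SpecialLinearGroup.map C (ρ s) * de2_E t)
    (by
      intro x _ y _
      simp only [map_mul])
    (by
      intro d hd
      rw [Subgroup.mem_bot] at hd
      subst hd
      simp)
  refine ⟨q, hq, h1, h2, ?_⟩
  have hev : ∀ g : SpecialLinearGroup (Fin 2) F,
      SpecialLinearGroup.map (evalRingHom (0 : F)) (SpecialLinearGroup.map C g) = g := by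
    intro g
    apply Subtype.ext
    ext i j
    simp
  have hP : P ≤ A := hA.sup ▸ le_sup_left
  have hs : s ∈ A := by
    rw [hA.sup]
    exact (le_sup_right : Subgroup.zpowers s ≤ P ⊔ Subgroup.zpowers s)
      (Subgroup.mem_zpowers s)
  have hq1 : q 1 = 1 := by
    have h := hq 1 A.one_mem 1 A.one_mem
    rw [one_mul] at h
    exact left_eq_mul.1 h
  let H : Subgroup G :=
    { carrier := {a | a ∈ A ∧ SpecialLinearGroup.map (evalRingHom (0 : F)) (q a) = ρ a}
      mul_mem' := by
        rintro a a' ⟨ha, ha1⟩ ⟨ha', ha1'⟩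
        exact ⟨A.mul_mem ha ha', by rw [hq a ha a' ha', map_mul, map_mul, ha1, ha1']⟩
      one_mem' := ⟨A.one_mem, by rw [hq1, map_one, map_one]⟩
      inv_mem' := by
        rintro a ⟨ha, ha1⟩
        refine ⟨A.inv_mem ha, ?_⟩
        have h := hq a ha a⁻¹ (A.inv_mem ha)
        rw [mul_inv_cancel, hq1] at h
        have h3 : q a⁻¹ = (q a)⁻¹ := (inv_eq_of_mul_eq_one_right h.symm).symm
        rw [h3, map_inv, map_inv, ha1] }
  have hle : A ≤ H := by
    have h3 : P ⊔ Subgroup.zpowers s ≤ H := by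
      rw [sup_le_iff, Subgroup.zpowers_le]
      refine ⟨fun y hy => ⟨hP hy, ?_⟩, hs, ?_⟩
      · rw [h1 y hy, hev]
      · rw [h2, map_mul, hev, de2_E_ev, mul_one]
    exact hA.sup ▸ h3
  exact fun a ha => (hle ha).2

/-- traces of products of constant matrices and `E t`: coefficients -/
private theorem de2_coeff {F : Type} [Field F] (K0 K1 K2 : Matrix (Fin 2) (Fin 2) F)
    (L : Matrix (Fin 2) (Fin 2) F[X])
    (hL : L = (C : F →+* F[X]).mapMatrix K0 + (X : F[X]) • (C : F →+* F[X]).mapMatrix K1 +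
      ((X : F[X]) ^ 2) • (C : F →+* F[X]).mapMatrix K2) :
    L.trace.coeff 1 = K1.trace ∧ L.trace.coeff 2 = K2.trace := by
  have h1 : L.trace = C K0.trace + X * C K1.trace + X ^ 2 * C K2.trace := by
    rw [hL]
    simp [Matrix.trace_fin_two]
  rw [h1]
  constructor
  · simp [coeff_C, coeff_X_pow]
  · simp [coeff_C, coeff_X_pow]

theorem p_DE2 : S_DE2 := by
  intro G F _ _ _ _ ρ A P s c p x b hN hA hsP hc hp hx hb hxb
  have hch : CharP F 2 := by
    have : Nontrivial F := inferInstance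
    exact charP_of_injective_algebraMap (algebraMap (ZMod 2) F).injective 2
  have hP : P ≤ A := hA.sup ▸ le_sup_left
  have hs : s ∈ A := by
    rw [hA.sup]
    exact (le_sup_right : Subgroup.zpowers s ≤ P ⊔ Subgroup.zpowers s)
      (Subgroup.mem_zpowers s)
  -- facts about a map which is multiplicative on `A`
  have hinv : ∀ q : G → SpecialLinearGroup (Fin 2) F[X], MulOn A q → ∀ a ∈ A,
      q a⁻¹ = (q a)⁻¹ := by
    intro q hq a ha
    have hq1 : q 1 = 1 := by
      have h := hq 1 A.one_mem 1 A.one_mem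
      rw [one_mul] at h
      exact left_eq_mul.1 h
    have h := hq a ha a⁻¹ (A.inv_mem ha)
    rw [mul_inv_cancel, hq1] at h
    exact (inv_eq_of_mul_eq_one_right h.symm).symm
  -- the trace of `x` is constant
  have hxtr : ∀ q : G → SpecialLinearGroup (Fin 2) F[X], MulOn A q →
      (∀ y ∈ P, q y = SpecialLinearGroup.map C (ρ y)) → ∀ n, 0 < n →
      (q x).1.trace.coeff n = 0 := by
    intro q hq hq1 n hn
    have e1 : x = b * (b⁻¹ * x * b) * b⁻¹ := by group
    have hy : b⁻¹ * x * b ∈ A := hP hxb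
    have e2 : q x = q b * q (b⁻¹ * x * b) * (q b)⁻¹ := by
      conv_lhs => rw [e1]
      rw [hq _ (A.mul_mem hb hy) _ (A.inv_mem hb), hq _ hb _ hy, hinv q hq b hb]
    rw [e2, de2_vm, Matrix.trace_mul_comm, ← de2_vm,
      ← mul_assoc, inv_mul_cancel, one_mul, hq1 _ hxb]
    simp only [SpecialLinearGroup.map_apply_coe, RingHom.mapMatrix_apply, Matrix.trace_fin_two,
      Matrix.map_apply, coeff_add]
    rw [coeff_C_of_ne_zero hn.ne', coeff_C_of_ne_zero hn.ne', add_zero]
  have hmul : ∀ M M' : Matrix (Fin 2) (Fin 2) F, (C : F →+* F[X]).mapMatrix (M * M') =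
      (C : F →+* F[X]).mapMatrix M * (C : F →+* F[X]).mapMatrix M' := fun M M' => map_mul _ _ _
  have hmc : ∀ g : G, (SpecialLinearGroup.map C (ρ g) : SpecialLinearGroup (Fin 2) F[X]).1 =
      (C : F →+* F[X]).mapMatrix (ρ g).1 := fun g => rfl
  refine ⟨?_, ?_, ?_⟩
  · -- (1)
    intro hD
    have h1 : ∀ t : F, de2_q (ρ s).1 t * de2_q (ρ s).1 t = 0 := by
      intro t
      obtain ⟨q, hq, hq1, hq2, hq3⟩ := de2_ext ρ hA t
      have e1 := hD q hq hq3
      have e2 := hxtr q hq hq1 1 one_pos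
      rw [← e1] at e2
      have e3 := (de2_coeff (ρ s).1 ((ρ s).1 * de2_N t) 0 (q s).1 (by
        rw [hq2, de2_vm, de2_E_val, hmc, hmul, map_zero, smul_zero, add_zero,
          mul_add, mul_one, mul_smul_comm])).1
      rw [e2, de2_tr] at e3
      rw [← e3, mul_zero]
    rcases de2_scal _ _ h1 with h2 | h2
    · exact hsP (hN s h2 ▸ P.one_mem)
    · exact hsP (hN s h2 ▸ P.one_mem)
  · -- (2)
    intro hD
    have h1 : ∀ t : F, de2_q (ρ s).1 t * de2_q (ρ (c * s)).1 t = 0 := by
      intro t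
      obtain ⟨q, hq, hq1, hq2, hq3⟩ := de2_ext ρ hA t
      have e1 := hD q hq hq3
      have e2 := hxtr q hq hq1 2 two_pos
      rw [← e1] at e2
      have e4 : q (s * s * c) = q s * q s * q c := by
        rw [hq _ (A.mul_mem hs hs) _ (hP hc), hq _ hs _ hs]
      have e3 := (de2_coeff ((ρ s).1 * (ρ s).1 * (ρ c).1)
        ((ρ s).1 * de2_N t * (ρ s).1 * (ρ c).1 + (ρ s).1 * (ρ s).1 * de2_N t * (ρ c).1)
        ((ρ s).1 * de2_N t * (ρ s).1 * de2_N t * (ρ c).1) (q (s * s * c)).1 (by
        rw [e4, hq2, hq1 c hc]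
        simp only [de2_vm, de2_E_val, hmc, hmul, map_add, mul_add, add_mul,
          mul_one, one_mul, smul_mul_assoc, mul_smul_comm, smul_add, mul_assoc, smul_smul]
        module)).2
      rw [e2] at e3
      have e5 : ((ρ s).1 * de2_N t * (ρ s).1 * de2_N t * (ρ c).1).trace =
          de2_q (ρ s).1 t * de2_q (ρ (c * s)).1 t := by
        have e6 : (ρ s).1 * de2_N t * (ρ s).1 * de2_N t * (ρ c).1 =
            (ρ s).1 * (de2_N t * (ρ s).1 * de2_N t) * (ρ c).1 := by
          simp only [mul_assoc]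
        rw [e6, de2_nmn, mul_smul_comm, smul_mul_assoc, Matrix.trace_smul, smul_eq_mul,
          Matrix.trace_mul_comm, ← mul_assoc, de2_tr, map_mul, de2_vm]
      rw [← e5, ← e3]
    rcases de2_scal _ _ h1 with h2 | h2
    · exact hsP (hN s h2 ▸ P.one_mem)
    · have h3 := hN (c * s) h2
      have h4 : s = c⁻¹ := eq_inv_of_mul_eq_one_right h3
      exact hsP (h4 ▸ P.inv_mem hc)
  · -- (3)
    intro hc1 hp1 hD
    have h1 : ∀ t : F, de2_q (ρ c).1 t * de2_q (ρ (s⁻¹ * p * s)).1 t = 0 := by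
      intro t
      obtain ⟨q, hq, hq1, hq2, hq3⟩ := de2_ext ρ hA t
      have e1 := hD q hq hq3
      have e2 := hxtr q hq hq1 2 two_pos
      rw [← e1] at e2
      have e4 : q (s * c * s⁻¹ * p) = q s * q c * (q s)⁻¹ * q p := by
        rw [hq _ (A.mul_mem (A.mul_mem hs (hP hc)) (A.inv_mem hs)) _ (hP hp),
          hq _ (A.mul_mem hs (hP hc)) _ (A.inv_mem hs), hq _ hs _ (hP hc), hinv q hq s hs]
      have e7 : (q s)⁻¹ = de2_E t * SpecialLinearGroup.map C (ρ s⁻¹) := by
        rw [hq2, _root_.mul_inv_rev, de2_E_sq, map_inv, map_inv]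
      have e3 := (de2_coeff ((ρ s).1 * (ρ c).1 * (ρ s⁻¹).1 * (ρ p).1)
        ((ρ s).1 * de2_N t * (ρ c).1 * (ρ s⁻¹).1 * (ρ p).1 +
          (ρ s).1 * (ρ c).1 * de2_N t * (ρ s⁻¹).1 * (ρ p).1)
        ((ρ s).1 * de2_N t * (ρ c).1 * de2_N t * (ρ s⁻¹).1 * (ρ p).1)
        (q (s * c * s⁻¹ * p)).1 (by
        rw [e4, e7, hq2, hq1 c hc, hq1 p hp]
        simp only [de2_vm, de2_E_val, hmc, hmul, map_add, mul_add, add_mul,
          mul_one, one_mul, smul_mul_assoc, mul_smul_comm, smul_add, mul_assoc, smul_smul]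
        module)).2
      rw [e2] at e3
      have e5 : ((ρ s).1 * de2_N t * (ρ c).1 * de2_N t * (ρ s⁻¹).1 * (ρ p).1).trace =
          de2_q (ρ c).1 t * de2_q (ρ (s⁻¹ * p * s)).1 t := by
        have e6 : (ρ s).1 * de2_N t * (ρ c).1 * de2_N t * (ρ s⁻¹).1 * (ρ p).1 =
            (ρ s).1 * (de2_N t * (ρ c).1 * de2_N t) * ((ρ s⁻¹).1 * (ρ p).1) := by
          simp only [mul_assoc]
        rw [e6, de2_nmn, mul_smul_comm, smul_mul_assoc, Matrix.trace_smul, smul_eq_mul,
          Matrix.trace_mul_comm, ← mul_assoc, de2_tr, map_mul, map_mul,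
          de2_vm, de2_vm]
      rw [← e5, ← e3]
    rcases de2_scal _ _ h1 with h2 | h2
    · exact hc1 (hN c h2)
    · have h3 := hN _ h2
      refine hp1 ?_
      have h4 : p = s * (s⁻¹ * p * s) * s⁻¹ := by group
      rw [h4, h3]
      group

end Pool.Agent.SuT
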