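import Mathlib

/-!
# MP_305fdd_al, surface groups, TREES block: the extension argument

`L'` normal in `L`, `L / L'` a finite `2`-group, `π : L' → G` onto, `L` acts on `G` through `c`,
`A ≤ G`; `L` permutes the conjugates of `A`; a homomorphism `G → ℤ/2` which is trivial on `A` exists.
Then there is a homomorphism `L → ℤ/2` which is not trivial on `L'`.
-/

set_option autoImplicit false

namespace Pool.Agent.SuT

/-- homomorphisms to a finite group form a finite set -/
theorem finite_hom {G H : Type} [Group G] [Group H] [Finite H] (hfg : Group.FG G) :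
    Finite (G →* H) := by
  classical
  obtain ⟨S, hS⟩ := hfg.out
  apply Finite.of_injective (fun (θ : G →* H) (s : S) => θ s.1)
  intro θ θ' h
  apply MonoidHom.eq_of_eqOn_dense hS
  intro s hs
  exact congrFun h ⟨s, hs⟩

section

variable {L G : Type} [Group L] [Group G] {L' : Subgroup L} [hL : L'.Normal] {π : L' →* G}

/-- `L` acts on `G` by automorphisms -/
theorem exists_c (hπ : Function.Surjective π)
    (hk : ∀ (l : L) (k : L'), π k = 1 → π (MulAut.conjNormal l k) = 1) :
    ∃ c : L →* MulAut G, ∀ (l : L) (k : L'), c l (π k) = π (MulAut.conjNormal l k) := by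
  have h1 : ∀ l : L, ∃ f : G →* G, ∀ k : L', f (π k) = π (MulAut.conjNormal l k) := by
    intro l
    let g : L' →* G := π.comp (MulAut.conjNormal l).toMonoidHom
    have hg : π.ker ≤ g.ker := by
      intro k hk'
      exact hk l k hk'
    refine ⟨π.liftOfSurjective hπ ⟨g, hg⟩, ?_⟩
    intro k
    have := π.liftOfRightInverse_comp_apply (Function.surjInv hπ)
      (Function.rightInverse_surjInv hπ) ⟨g, hg⟩ k
    exact this
  choose f hf using h1
  have hmul : ∀ (l m : L) (x : G), f l (f m x) = f (l * m) x := by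
    intro l m x
    obtain ⟨k, rfl⟩ := hπ x
    rw [hf, hf, hf, map_mul]
    rfl
  have hone : ∀ x : G, f 1 x = x := by
    intro x
    obtain ⟨k, rfl⟩ := hπ x
    rw [hf, map_one]
    rfl
  refine ⟨
    { toFun := fun l =>
        { toFun := f l
          invFun := f l⁻¹
          left_inv := fun x => by rw [hmul, inv_mul_cancel, hone]
          right_inv := fun x => by rw [hmul, mul_inv_cancel, hone]
          map_mul' := (f l).map_mul }
      map_one' := by
        ext x
        exact hone x
      map_mul' := by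
        intro l m
        ext x
        exact (hmul l m x).symm }, ?_⟩
  intro l k
  exact hf l k

/-- THE EXTENSION ARGUMENT -/
theorem extend (hπ : Function.Surjective π) (hfg : Group.FG G) (hp : IsPGroup 2 (L ⧸ L'))
    (c : L →* MulAut G) (hc : ∀ (l : L) (k : L'), c l (π k) = π (MulAut.conjNormal l k))
    (A : Subgroup G) (hA : ∀ g : G, (∀ a, g * a * g⁻¹ ∈ A ↔ a ∈ A) → g ∈ A)
    (hM : ∀ l : L, ∃ k : L', ∀ a : G, c ((k : L)⁻¹ * l) a ∈ A ↔ a ∈ A)
    (hθ : ∃ θ : G →* Multiplicative (ZMod 2), (∀ a ∈ A, θ a = 1) ∧ θ ≠ 1) :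
    ∃ Θ : L →* Multiplicative (ZMod 2), ∃ k ∈ L', Θ k ≠ 1 := by
  classical
  -- elements of `L'` act by inner automorphisms
  have hin : ∀ (k : L') (x : G), c (k : L) x = π k * x * (π k)⁻¹ := by
    intro k x
    obtain ⟨m, rfl⟩ := hπ x
    rw [hc]
    have : MulAut.conjNormal (k : L) m = k * m * k⁻¹ := by
      apply Subtype.ext
      simp
    rw [this, map_mul, map_mul, map_inv]
  have hab : ∀ (θ : G →* Multiplicative (ZMod 2)) (k : L') (x : G), θ (c (k : L) x) = θ x := by
    intro θ k x
    rw [hin, map_mul, map_mul, map_inv, mul_comm (θ (π k)), mul_inv_cancel_right]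
  let W : Subgroup (G →* Multiplicative (ZMod 2)) :=
    { carrier := {θ | ∀ a ∈ A, θ a = 1}
      mul_mem' := by
        intro θ θ' h h' a ha
        rw [MonoidHom.mul_apply, h a ha, h' a ha, mul_one]
      one_mem' := fun a _ => rfl
      inv_mem' := by
        intro θ h a ha
        rw [MonoidHom.inv_apply, h a ha, inv_one] }
  have hWmem : ∀ θ, θ ∈ W ↔ ∀ a ∈ A, θ a = 1 := fun θ => Iff.rfl
  have hWact : ∀ (l : L) (θ : G →* Multiplicative (ZMod 2)), θ ∈ W →
      θ.comp (c l).toMonoidHom ∈ W := by
    intro l θ h a ha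
    obtain ⟨k, hk⟩ := hM l
    have e : l = (k : L) * ((k : L)⁻¹ * l) := by group
    show θ (c l a) = 1
    rw [e, map_mul]
    show θ (c (k : L) (c ((k : L)⁻¹ * l) a)) = 1
    rw [hab]
    exact h _ ((hk a).2 ha)
  let Φ : L →* Equiv.Perm W :=
    { toFun := fun l =>
        { toFun := fun θ => ⟨θ.1.comp (c l⁻¹).toMonoidHom, hWact _ _ θ.2⟩
          invFun := fun θ => ⟨θ.1.comp (c l).toMonoidHom, hWact _ _ θ.2⟩
          left_inv := by
            intro θ
            apply Subtype.ext
            apply MonoidHom.ext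
            intro x
            show θ.1 (c l⁻¹ (c l x)) = θ.1 x
            rw [map_inv, MulAut.inv_apply_self]
          right_inv := by
            intro θ
            apply Subtype.ext
            apply MonoidHom.ext
            intro x
            show θ.1 (c l (c l⁻¹ x)) = θ.1 x
            rw [map_inv, MulAut.apply_inv_self] }
      map_one' := by
        apply Equiv.ext
        intro θ
        apply Subtype.ext
        apply MonoidHom.ext
        intro x
        show θ.1 (c 1⁻¹ x) = θ.1 x
        rw [inv_one, map_one]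
        rfl
      map_mul' := by
        intro l m
        apply Equiv.ext
        intro θ
        apply Subtype.ext
        apply MonoidHom.ext
        intro x
        show θ.1 (c (l * m)⁻¹ x) = θ.1 (c m⁻¹ (c l⁻¹ x))
        rw [mul_inv_rev, map_mul]
        rfl }
  have hΦ : ∀ l ∈ L', Φ l = 1 := by
    intro l hl
    apply Equiv.ext
    intro θ
    apply Subtype.ext
    apply MonoidHom.ext
    intro x
    show θ.1 (c l⁻¹ x) = θ.1 x
    have := hab θ.1 (⟨l, hl⟩⁻¹ : L') x
    exact this
  let Ψ : L ⧸ L' →* Equiv.Perm W := QuotientGroup.lift L' Φ hΦ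
  letI : MulAction (L ⧸ L') W := MulAction.compHom W Ψ
  haveI : Finite (G →* Multiplicative (ZMod 2)) := finite_hom hfg
  haveI : Finite W := Subtype.finite
  obtain ⟨θ₁, hθ₁, hθ₁'⟩ := hθ
  have hcard : 2 ∣ Nat.card W := by
    have h1 : orderOf (⟨θ₁, hθ₁⟩ : W) = 2 := by
      apply orderOf_eq_prime
      · apply Subtype.ext
        apply MonoidHom.ext
        intro x
        show (θ₁ x) ^ 2 = 1
        generalize θ₁ x = z
        revert z
        decide
      · intro h
        exact hθ₁' (congrArg Subtype.val h)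
    have h2 := orderOf_dvd_natCard (⟨θ₁, hθ₁⟩ : W)
    rwa [h1] at h2
  have hsmul : ∀ (l : L) (θ : W) (x : G), ((QuotientGroup.mk l : L ⧸ L') • θ).1 x = θ.1 (c l⁻¹ x) :=
    fun l θ x => rfl
  have h1fix : (1 : W) ∈ MulAction.fixedPoints (L ⧸ L') W := by
    intro q
    induction q using QuotientGroup.induction_on with
    | H l =>
      apply Subtype.ext
      apply MonoidHom.ext
      intro x
      rw [hsmul]
      rfl
  obtain ⟨θ₀, hfix, hne⟩ := hp.exists_fixed_point_of_prime_dvd_card_of_fixed_point W hcard h1fix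
  have hinv : ∀ (l : L) (x : G), θ₀.1 (c l x) = θ₀.1 x := by
    intro l x
    have h2 := hfix (QuotientGroup.mk l⁻¹ : L ⧸ L')
    have h3 := hsmul l⁻¹ θ₀ x
    rw [h2, inv_inv] at h3
    exact h3.symm
  have hne1 : ∃ k : L', θ₀.1 (π k) ≠ 1 := by
    by_contra hcon
    push Not at hcon
    apply hne
    apply Subtype.ext
    apply MonoidHom.ext
    intro x
    obtain ⟨k, rfl⟩ := hπ x
    rw [hcon k]
    rfl
  -- the extension
  choose κ hκ using hM
  have hwd : ∀ (l : L) (k : L'), (∀ a : G, c ((k : L)⁻¹ * l) a ∈ A ↔ a ∈ A) →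
      θ₀.1 (π k) = θ₀.1 (π (κ l)) := by
    intro l k hk
    have h2 : π ((κ l)⁻¹ * k) ∈ A := by
      apply hA
      intro a
      rw [← hin]
      have h3 : (((κ l)⁻¹ * k : L') : L) = ((κ l : L)⁻¹ * l) * ((k : L)⁻¹ * l)⁻¹ := by
        push_cast
        group
      rw [h3, map_mul]
      show c ((κ l : L)⁻¹ * l) (c ((k : L)⁻¹ * l)⁻¹ a) ∈ A ↔ a ∈ A
      rw [hκ l, map_inv]
      rw [← hk ((c ((k : L)⁻¹ * l))⁻¹ a), MulAut.apply_inv_self]
    have h3 := θ₀.2 _ h2
    rw [map_mul, map_mul, map_inv, map_inv, inv_mul_eq_one] at h3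
    exact h3.symm
  let Θ : L →* Multiplicative (ZMod 2) :=
    { toFun := fun l => θ₀.1 (π (κ l))
      map_one' := by
        rw [← hwd 1 1 (by
          intro a
          simp)]
        rw [map_one, map_one]
      map_mul' := by
        intro l m
        have h4 : ∀ a : G, c (((κ l * MulAut.conjNormal ((κ l : L)⁻¹ * l) (κ m) : L') : L)⁻¹ *
            (l * m)) a ∈ A ↔ a ∈ A := by
          intro a
          have e : ((κ l * MulAut.conjNormal ((κ l : L)⁻¹ * l) (κ m) : L') : L)⁻¹ * (l * m) =
              ((κ l : L)⁻¹ * l) * ((κ m : L)⁻¹ * m) := by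
            rw [Subgroup.coe_mul, MulAut.conjNormal_apply]
            group
          rw [e, map_mul]
          show c ((κ l : L)⁻¹ * l) (c ((κ m : L)⁻¹ * m) a) ∈ A ↔ a ∈ A
          rw [hκ l, hκ m]
        rw [← hwd _ _ h4, map_mul, map_mul]
        rw [← hc, hinv] }
  refine ⟨Θ, ?_⟩
  obtain ⟨k, hk⟩ := hne1
  refine ⟨k, k.2, ?_⟩
  show θ₀.1 (π (κ (k : L))) ≠ 1
  rw [← hwd (k : L) k (by
    intro a
    rw [inv_mul_cancel, map_one]
    rfl)]
  exact hk

end

end Pool.Agent.SuT
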