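import Pool.Agent.Lib.MP_305fdd_al.Su.Tr.Ref2
import Pool.Agent.Lib.MP_305fdd_al.Su.Tr.DefA

/-!
# MP_305fdd_al, surface groups, TREES block: THEOREM 3
-/

set_option autoImplicit false

namespace Pool.Agent.SuT

open Matrix Polynomial Pool.Agent.SuUp Pool.Agent.FrS Pool.Agent.FrT

section

variable {G : Type} [Group G] {V : Type} [i : MulAction G V] {X : SimpleGraph V}

/-- the twisted action -/
@[reducible] def twA (f : MulAut G) (V : Type) [MulAction G V] : MulAction G V :=
  MulAction.compHom V (MulEquiv.toMonoidHom f)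

theorem twA_stab (f : MulAut G) (x : V) (g : G) :
    g ∈ @MulAction.stabilizer G V _ (twA f V) x ↔ f g • x = x := Iff.rfl

theorem twA_es (f : MulAut G) (x y : V) :
    @ES G _ V (twA f V) x y = (ES G x y).map (f⁻¹ : MulAut G).toMonoidHom := by
  ext g
  rw [@mem_ES G _ V (twA f V)]
  constructor
  · intro h
    refine ⟨f g, mem_ES.2 h, ?_⟩
    show f⁻¹ (f g) = g
    exact MulAut.inv_apply_self G f g
  · rintro ⟨a, ha, rfl⟩
    have ha' := mem_ES.1 ha
    have e : f ((f⁻¹ : MulAut G) a) = a := MulAut.apply_inv_self G f a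
    constructor
    · show f ((f⁻¹ : MulAut G) a) • x = x
      rw [e]
      exact ha'.1
    · show f ((f⁻¹ : MulAut G) a) • y = y
      rw [e]
      exact ha'.2

theorem MC.mapAut {Z : Subgroup G} (h : MC Z) (f : MulAut G) :
    MC (Z.map f.toMonoidHom) := by
  obtain ⟨⟨z, hz, rfl⟩, h2⟩ := h
  constructor
  · refine ⟨f z, ?_, ?_⟩
    · intro n hn h3
      apply hz n hn
      rw [← map_pow] at h3
      exact (MulEquiv.map_eq_one_iff f).1 h3
    · rw [MonoidHom.map_zpowers]
      rfl
  · rintro _ ⟨a, ha, rfl⟩ hne x ⟨b, hb, hbx⟩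
    have hbx' : f b = x * f a * x⁻¹ := hbx
    have hne' : f a ≠ 1 := hne
    obtain ⟨y, rfl⟩ := f.surjective x
    have h3 := h2 a ha (by
      rintro rfl
      exact hne' (map_one f)) y (by
        have : b = y * a * y⁻¹ := by
          apply f.injective
          rw [hbx', map_mul, map_mul, map_inv]
        rw [← this]
        exact hb)
    exact ⟨y, h3, rfl⟩

theorem Spl.twist (h : Spl G X) (f : MulAut G) : @Spl G _ V (twA f V) X := by
  refine @Spl.mk G _ V (twA f V) X (@TA.mk G _ V (twA f V) X h.tree ?_ ?_) ?_ ?_ ?_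
  · intro g x y hxy
    exact h.act (f g) x y hxy
  · intro g x y hxy
    exact h.noinv (f g) x y hxy
  · intro x y hxy
    rw [twA_es]
    exact (h.mc x y hxy).mapAut _
  · intro x
    have e : @MulAction.stabilizer G V _ (twA f V) x =
        (MulAction.stabilizer G x).map (f⁻¹ : MulAut G).toMonoidHom := by
      ext g
      rw [twA_stab]
      constructor
      · intro h1
        refine ⟨f g, h1, ?_⟩
        show f⁻¹ (f g) = g
        exact MulAut.inv_apply_self G f g
      · rintro ⟨a, ha, rfl⟩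
        have e : f ((f⁻¹ : MulAut G) a) = a := MulAut.apply_inv_self G f a
        show f ((f⁻¹ : MulAut G) a) • x = x
        rw [e]
        exact ha
    rw [e]
    exact fg_map' (h.fg x) _
  · intro x
    obtain ⟨a, ha, b, hb, hne⟩ := h.na x
    refine ⟨f⁻¹ a, ?_, f⁻¹ b, ?_, ?_⟩
    · rw [twA_stab, MulAut.apply_inv_self]
      exact ha
    · rw [twA_stab, MulAut.apply_inv_self]
      exact hb
    · intro he
      apply hne
      rw [← map_mul, ← map_mul] at he
      exact (f⁻¹ : MulAut G).injective he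

/-- a vertex stabiliser fixes only its vertex -/
theorem Spl.uniq (h : Spl G X) {v u : V} (hu : ∀ a ∈ MulAction.stabilizer G v, a • u = u) :
    u = v := by
  by_contra hne
  obtain ⟨c, hc, huc⟩ := first_edge h.tree (fun e => hne e.symm : v ≠ u)
  have h1 : MulAction.stabilizer G v ≤ ES G v c := by
    intro a ha
    have ha' := MulAction.mem_stabilizer_iff.1 ha
    exact mem_ES.2 ⟨ha', fix_first h.toTA ha' (hu a ha) hc huc⟩
  obtain ⟨⟨z, _, hz⟩, _⟩ := h.mc v c hc
  obtain ⟨a, ha, b, hb, hne'⟩ := h.na v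
  have ha' := h1 ha
  have hb' := h1 hb
  rw [hz] at ha' hb'
  obtain ⟨m, rfl⟩ := ha'
  obtain ⟨n, rfl⟩ := hb'
  apply hne'
  simp only
  rw [← _root_.zpow_add, ← _root_.zpow_add, add_comm]

end

/-- the set of the homomorphisms given by the edges -/
def ThS {G : Type} [Group G] {V : Type} [MulAction G V] (X : SimpleGraph V) :
    Set (G →* Multiplicative (ZMod 2)) :=
  {θ | ∃ x y, X.Adj x y ∧ IsTh X x y θ}

/-- a splitting with the maximal number of homomorphisms -/
theorem exists_max {G : Type} [Group G] (hfg : Group.FG G)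
    (hex : ∃ (V : Type) (_ : MulAction G V) (X : SimpleGraph V), Spl G X ∧ ∃ x y, X.Adj x y) :
    ∃ (V : Type) (_ : MulAction G V) (X : SimpleGraph V), Spl G X ∧ (∃ x y, X.Adj x y) ∧
      ∀ (V' : Type) (_ : MulAction G V') (X' : SimpleGraph V'), Spl G X' → (∃ x y, X'.Adj x y) →
        (ThS (G := G) X').ncard ≤ (ThS (G := G) X).ncard := by
  classical
  haveI : Finite (G →* Multiplicative (ZMod 2)) := finite_hom hfg
  let Sn : Set ℕ := {n | ∃ (V : Type) (_ : MulAction G V) (X : SimpleGraph V), Spl G X ∧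
    (∃ x y, X.Adj x y) ∧ (ThS (G := G) X).ncard = n}
  have hne : Sn.Nonempty := by
    obtain ⟨V, iV, X, h, he⟩ := hex
    exact ⟨_, V, iV, X, h, he, rfl⟩
  have hbdd : BddAbove Sn := by
    refine ⟨Nat.card (G →* Multiplicative (ZMod 2)), ?_⟩
    rintro n ⟨V, iV, X, h, he, rfl⟩
    rw [← Set.ncard_univ]
    exact Set.ncard_le_ncard (Set.subset_univ _) Set.finite_univ
  obtain ⟨V, iV, X, h, he, hn⟩ := Nat.sSup_mem hne hbdd
  refine ⟨V, iV, X, h, he, ?_⟩
  intro V' iV' X' h' he'
  rw [hn]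
  exact le_csSup hbdd ⟨V', iV', X', h', he', rfl⟩

/-- THEOREM 3 -/
theorem p_DEF (hCOL : S_COL) (hBLOW : S_BLOW) (hNC : S_NC) : S_DEF := by
  intro L G _ _ L' hL π hπ hk hfg hp hfin hθL F _ _ ρ hinf hN hFI hB
  classical
  haveI : Finite (G →* Multiplicative (ZMod 2)) := finite_hom hfg
  obtain ⟨V, iV, X, h, ⟨x, y, hxy⟩, hmax⟩ := exists_max hfg hB.ex
  -- vertex groups have no essential edges in other splittings
  have hno : ∀ (V' : Type) (_ : MulAction G V') (X' : SimpleGraph V'), Spl G X' →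
      ∃ p : V', ∀ g ∈ MulAction.stabilizer G x, g • p = p := by
    intro V' iV' X' h'
    by_contra hcon
    obtain ⟨y₁, y₂, hadj, hess⟩ := exists_ess h'.toTA (h.fg x) hcon
    obtain ⟨W, iW, Y, hS, hold, θ, hθ, hnew⟩ :=
      hB.refine hCOL hBLOW hNC hfg hinf hN hFI h h' x y₁ y₂ hadj hess
    have hle := hmax W iW Y hS (by
      obtain ⟨x', y', h1, _⟩ := hθ
      exact ⟨x', y', h1⟩)
    have hlt : (ThS (G := G) X).ncard < (ThS (G := G) Y).ncard := by
      apply Set.ncard_lt_ncard _ (Set.toFinite _)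
      refine ⟨fun θ' hθ' => hold θ' hθ', ?_⟩
      intro hsub
      exact hnew (hsub hθ)
    exact absurd hlt (not_lt.2 hle)
  obtain ⟨c, hc⟩ := exists_c (L' := L') (π := π) hπ (by
    intro l k hk1
    have h1 := hk l k hk1
    have e : (MulAut.conjNormal l k : L') = ⟨l * k * l⁻¹, hL.conj_mem k k.2 l⟩ := by
      apply Subtype.ext
      simp
    rw [e]
    exact h1)
  -- every automorphism maps `A` into a conjugate
  have hstar : ∀ l : L, ∃ g : G, ∀ a ∈ MulAction.stabilizer G x, c l a • g • x = g • x := by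
    intro l
    obtain ⟨p, hp'⟩ := hno V (twA (c l) V) X (h.twist (c l))
    obtain ⟨g, rfl⟩ := hB.one V X h x p
    exact ⟨g, fun a ha => hp' a ha⟩
  have hstar2 : ∀ l : L, ∃ g : G, ∀ a : G, c l a • g • x = g • x ↔ a • x = x := by
    intro l
    obtain ⟨g, hg⟩ := hstar l
    obtain ⟨k, hk'⟩ := hstar l⁻¹
    refine ⟨g, fun a => ⟨fun ha => ?_, fun ha => hg a ha⟩⟩
    -- `A ≤ stab ((c l⁻¹ g) k x)`
    have hcc : ∀ b : G, c l⁻¹ (c l b) = b := by
      intro b
      rw [map_inv, MulAut.inv_apply_self]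
    have hB' : ∀ b : G, c l b • g • x = g • x → b • (c l⁻¹ g * k) • x = (c l⁻¹ g * k) • x := by
      intro b hb
      have h1 : g⁻¹ * c l b * g ∈ MulAction.stabilizer G x := by
        rw [MulAction.mem_stabilizer_iff, mul_smul, mul_smul, hb, inv_smul_smul]
      have h2 := hk' _ h1
      rw [map_mul, map_mul, hcc, map_inv] at h2
      have h3 : b • (c l⁻¹ g * k) • x = c l⁻¹ g • ((c l⁻¹ g)⁻¹ * b * c l⁻¹ g) • k • x := by
        rw [← mul_smul, ← mul_smul, ← mul_smul]
        congr 1
        group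
      rw [h3, h2, mul_smul]
    have h4 : (c l⁻¹ g * k) • x = x := by
      apply h.uniq
      intro b hb
      exact hB' b (hg b hb)
    have h5 := hB' a ha
    rw [h4] at h5
    exact h5
  have hA : ∀ g : G, (∀ a, g * a * g⁻¹ ∈ MulAction.stabilizer G x ↔
      a ∈ MulAction.stabilizer G x) → g ∈ MulAction.stabilizer G x := by
    intro g hg
    have h1 : g⁻¹ • x = x := by
      apply h.uniq
      intro a ha
      have h2 := (hg a).2 ha
      rw [MulAction.mem_stabilizer_iff, mul_smul, mul_smul] at h2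
      rw [eq_inv_smul_iff]
      exact h2
    rw [MulAction.mem_stabilizer_iff]
    rw [inv_smul_eq_iff] at h1
    exact h1.symm
  have hin : ∀ (k : L') (x : G), c (k : L) x = π k * x * (π k)⁻¹ := by
    intro k x
    obtain ⟨m, rfl⟩ := hπ x
    rw [hc]
    have : MulAut.conjNormal (k : L) m = k * m * k⁻¹ := by
      apply Subtype.ext
      simp
    rw [this, map_mul, map_mul, map_inv]
  have hM : ∀ l : L, ∃ k : L', ∀ a : G, c ((k : L)⁻¹ * l) a ∈ MulAction.stabilizer G x ↔
      a ∈ MulAction.stabilizer G x := by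
    intro l
    obtain ⟨g, hg⟩ := hstar2 l
    obtain ⟨k, rfl⟩ := hπ g
    refine ⟨k, fun a => ?_⟩
    have e : c ((k : L)⁻¹ * l) a = (π k)⁻¹ * c l a * π k := by
      rw [map_mul]
      show c (k : L)⁻¹ (c l a) = _
      have h1 := hin k⁻¹ (c l a)
      rw [map_inv, inv_inv] at h1
      exact h1
    rw [e, MulAction.mem_stabilizer_iff, MulAction.mem_stabilizer_iff, mul_smul, mul_smul,
      inv_smul_eq_iff]
    exact hg a
  have hθ : ∃ θ : G →* Multiplicative (ZMod 2),
      (∀ a ∈ MulAction.stabilizer G x, θ a = 1) ∧ θ ≠ 1 := by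
    obtain ⟨θ, P, hP1, hP2⟩ := exists_th h.toTA x y
    refine ⟨θ, ?_, ?_⟩
    · intro a ha
      have h1 := hP2 a x
      rw [MulAction.mem_stabilizer_iff.1 ha] at h1
      have h2 : P x + 0 = P x + Multiplicative.toAdd (θ a) := by rw [add_zero]; exact h1
      exact (add_left_cancel h2).symm
    · rintro rfl
      obtain ⟨t, rfl⟩ := hB.one V X h x y
      have h1 := hP1 _ _ hxy
      have h2 := hP2 t x
      rw [if_pos ⟨1, by rw [one_smul, one_smul]⟩, h2] at h1
      have h3 : (0 : ZMod 2) = 1 := by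
        have h4 : P x + 0 = P x + 1 := h1
        exact add_left_cancel h4
      exact zero_ne_one h3
  obtain ⟨Θ, k, hk1, hk2⟩ := extend hπ hfg hp c hc _ hA hM hθ
  exact hk2 (hθL Θ k hk1)

end Pool.Agent.SuT
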