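import Pool.Agent.Lib.MP_305fdd_al.Su.Tr.Sub

/-!
# MP_305fdd_al, surface groups, TREES block: (FS), at least two crossing edges
-/

set_option autoImplicit false

namespace Pool.Agent.SuT

open Matrix Polynomial Pool.Agent.SuUp Pool.Agent.FrS Pool.Agent.FrT

section

variable {G : Type} [Group G] {V V' : Type} [MulAction G V] [MulAction G V'] {X : SimpleGraph V}
  {X' : SimpleGraph V'} {v : V} {t : G} {u' v' : V'} {W : Type}
  [MulAction (MulAction.stabilizer G v) W] {Y : SimpleGraph W} {κ : V' → W}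

theorem HT.ES_nbr {z a : G} (hz : ES G v (t • v) = Subgroup.zpowers z) (ha : a • v = v) :
    ES G v (a • t • v) = Subgroup.zpowers (a * z * a⁻¹) := by
  have h1 := ES_smul (G := G) a v (t • v)
  rw [ha] at h1
  rw [h1, hz, MonoidHom.map_zpowers]
  rfl

/-- the crossing edges given by an element without fixed vertex in the collapsed tree -/
theorem HT.cross (hAX : S_AX) (h : HT G X v t) (hT : TA G X') (hadj : X'.Adj u' v')
    (hC : CT X' (MulAction.stabilizer G v) u' v' W Y κ) (z : MulAction.stabilizer G v)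
    (hz : ES G v (t • v) = Subgroup.zpowers (z : G)) (hnf : ¬ ∃ w : W, z • w = w) :
    ∃ (l : ℕ) (a : ℕ → MulAction.stabilizer G v) (p : ℕ → W), 0 < l ∧ z • p 0 = p l ∧
      (∀ i < l, (a i • κ u' = p i ∧ a i • κ v' = p (i + 1)) ∨
        (a i • κ u' = p (i + 1) ∧ a i • κ v' = p i)) ∧
      (∀ i < l, Y.Adj (p i) (p (i + 1))) ∧
      (∀ i < l, X.Adj v (((a i)⁻¹ : G) • t • v) ∧
        Ess X' (ES G v (((a i)⁻¹ : G) • t • v)) u' v') ∧
      ∀ i < l, ∀ j < l, i ≠ j → ((a i)⁻¹ : G) • t • v ≠ ((a j)⁻¹ : G) • t • v := by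
  obtain ⟨l, a, p, hl, hp, ha, hY, hess, hdis⟩ := hC.cross hAX hT hadj z hnf
  have hav : ∀ i, ((a i)⁻¹ : G) • v = v := by
    intro i
    rw [inv_smul_eq_iff]
    exact (MulAction.mem_stabilizer_iff.1 (a i).2).symm
  refine ⟨l, a, p, hl, hp, ha, hY, ?_, ?_⟩
  · intro i hi
    constructor
    · have h1 := h.act ((a i)⁻¹ : G) _ _ h.adj
      rwa [hav] at h1
    · rw [HT.ES_nbr hz (hav i)]
      have h2 := hess i hi
      rw [inv_inv]
      exact h2
  · intro i hi j hj hij he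
    apply hdis i hi j hj hij
    have h1 : ((a j : G) * (a i : G)⁻¹) ∈ ES G v (t • v) := by
      rw [mem_ES]
      constructor
      · rw [mul_smul, hav]
        exact MulAction.mem_stabilizer_iff.1 (a j).2
      · rw [mul_smul, he, smul_inv_smul]
    rw [hz] at h1
    obtain ⟨n, hn⟩ := h1
    exact ⟨n, Subtype.ext hn⟩

/-- the generator of the edge group at `t⁻¹ v` -/
theorem HT.gen' {z : G} (hz : ES G v (t • v) = Subgroup.zpowers z) :
    ES G v (t⁻¹ • v) = Subgroup.zpowers (t⁻¹ * z * t) := by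
  have h1 := ES_smul (G := G) t⁻¹ v (t • v)
  rw [inv_smul_smul] at h1
  rw [ES_symm, h1, hz, MonoidHom.map_zpowers]
  congr 1
  show t⁻¹ * z * t⁻¹⁻¹ = _
  rw [inv_inv]

/-- conjugates of powers -/
theorem conj_mem_of_zpowers {P : Subgroup G} {x b : G} (hx : b⁻¹ * x * b ∈ P) {d : G}
    (hd : d ∈ Subgroup.zpowers x) : b⁻¹ * d * b ∈ P := by
  obtain ⟨n, rfl⟩ := hd
  have h1 : b⁻¹ * x ^ n * b = (b⁻¹ * x * b) ^ n := by
    have := conj_zpow (a := b⁻¹) (b := x) (i := n)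
    rw [inv_inv] at this
    exact this.symm
  simp only
  rw [h1]
  exact P.zpow_mem hx n

/-- one generator crosses once, the other one does not cross -/
theorem fs_one (hAX : S_AX) (h4 : S_AL4) (hFI : FI G) (h : HT G X v t) (hT : TA G X')
    (hadj : X'.Adj u' v') (hC : CT X' (MulAction.stabilizer G v) u' v' W Y κ)
    (hcon : ∀ c c' : V, c ≠ c' → X.Adj v c → X.Adj v c' → Ess X' (ES G v c) u' v' →
      ¬ Ess X' (ES G v c') u' v')
    (z z' : MulAction.stabilizer G v)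
    (hz : ES G v (t • v) = Subgroup.zpowers (z : G)) (hz' : (z' : G) = t⁻¹ * z * t)
    (hnf : ¬ ∃ w : W, z • w = w) (hf : ∃ w : W, z' • w = w) : False := by
  obtain ⟨l, a, p, hl, hp, ha, hY, hess, hdis⟩ := h.cross hAX hT hadj hC z hz hnf
  have hl1 : l = 1 := by
    by_contra hne
    have h2 : 1 < l := by omega
    exact hcon _ _ (hdis 0 hl 1 h2 (by omega)) (hess 0 hl).1 (hess 1 h2).1 (hess 0 hl).2
      (hess 1 h2).2
  subst hl1
  -- the stable letter
  obtain ⟨s, hs, hsz⟩ : ∃ s : MulAction.stabilizer G v, s • κ u' = κ v' ∧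
      Subgroup.zpowers (s : G) = Subgroup.zpowers ((a 0 : G)⁻¹ * z * a 0) := by
    rcases ha 0 hl with ⟨e1, e2⟩ | ⟨e1, e2⟩
    · refine ⟨(a 0)⁻¹ * z * a 0, ?_, rfl⟩
      rw [mul_smul, mul_smul, e1, hp, inv_smul_eq_iff]
      exact e2.symm
    · refine ⟨((a 0)⁻¹ * z * a 0)⁻¹, ?_, ?_⟩
      · rw [inv_smul_eq_iff, mul_smul, mul_smul, e2, hp, eq_inv_smul_iff]
        exact e1
      · rw [InvMemClass.coe_inv, Subgroup.zpowers_inv]
        rfl
  have hHn := isHn_sub hC.ta hC.adj hC.oe s hs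
  rw [hC.es, Subgroup.map_bot] at hHn
  have hav : ((a 0)⁻¹ : G) • v = v := by
    rw [inv_smul_eq_iff]
    exact (MulAction.mem_stabilizer_iff.1 (a 0).2).symm
  have hH := (h.mul hav).isHn
  have hD : ES G v (((a 0 : G)⁻¹ * t) • v) = Subgroup.zpowers (s : G) := by
    rw [mul_smul, HT.ES_nbr hz hav, hsz, inv_inv]
  obtain ⟨w, hw⟩ := hf
  obtain ⟨b, hb⟩ : ∃ b : MulAction.stabilizer G v, b • κ u' = w := by
    obtain ⟨b, hb | hb⟩ := hC.oe.vert hC.ta hC.adj w
    · exact ⟨b, hb⟩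
    · exact ⟨b * s, by rw [mul_smul, hs, hb]⟩
  have hbP : (b : G)⁻¹ * (z' : G) * b ∈
      (MulAction.stabilizer (MulAction.stabilizer G v) (κ u')).map
        (MulAction.stabilizer G v).subtype := by
    refine ⟨b⁻¹ * z' * b, ?_, rfl⟩
    show b⁻¹ * z' * b ∈ MulAction.stabilizer (MulAction.stabilizer G v) (κ u')
    rw [MulAction.mem_stabilizer_iff, mul_smul, mul_smul, hb, hw, inv_smul_eq_iff]
    exact hb.symm
  have hfin := h4 G (MulAction.stabilizer G v) _ _ (s : G) ((a 0 : G)⁻¹ * t) (b : G) hH hHn b.2 hD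
    (by
      intro d hd
      have hd' : (a 0 : G) * d * (a 0 : G)⁻¹ ∈ Subgroup.zpowers (z : G) := by
        rw [hD, hsz] at hd
        obtain ⟨n, rfl⟩ := hd
        refine ⟨n, ?_⟩
        have h5 := conj_zpow (a := ((a 0 : G))⁻¹) (b := (z : G)) (i := n)
        rw [inv_inv] at h5
        simp only
        rw [h5]
        group
      have h6 : ((a 0 : G)⁻¹ * t)⁻¹ * d * ((a 0 : G)⁻¹ * t) =
          t⁻¹ * ((a 0 : G) * d * (a 0 : G)⁻¹) * t := by group
      rw [h6]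
      apply conj_mem_of_zpowers hbP
      obtain ⟨n, hn⟩ := hd'
      refine ⟨n, ?_⟩
      simp only at hn ⊢
      rw [hz', ← hn]
      have h5 := conj_zpow (a := t⁻¹) (b := (z : G)) (i := n)
      rw [inv_inv] at h5
      exact h5)
  exact hFI.2 ⟨_, _, hfin⟩

/-- no generator crosses -/
theorem fs_zero (h0 : S_AL0) (h1 : S_AL1) (h2 : S_AL2) (h3 : S_AL3) (hFI : FI G)
    (h : HT G X v t)
    (hC : CT X' (MulAction.stabilizer G v) u' v' W Y κ)
    (hEss : Ess X' (MulAction.stabilizer G v) u' v')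
    (z z' : MulAction.stabilizer G v)
    (hz : ES G v (t • v) = Subgroup.zpowers (z : G)) (hz' : (z' : G) = t⁻¹ * z * t)
    (hf : ∃ w : W, z • w = w) (hf' : ∃ w : W, z' • w = w) : False := by
  have hH := h.isHn
  -- elements fixing a vertex
  have key : ∀ (x : MulAction.stabilizer G v) (b : MulAction.stabilizer G v) (w w0 : W),
      x • w = w → b • w0 = w → (b : G)⁻¹ * (x : G) * b ∈
      (MulAction.stabilizer (MulAction.stabilizer G v) w0).map
        (MulAction.stabilizer G v).subtype := by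
    intro x b w w0 hx hb
    refine ⟨b⁻¹ * x * b, ?_, rfl⟩
    show b⁻¹ * x * b ∈ MulAction.stabilizer (MulAction.stabilizer G v) w0
    rw [MulAction.mem_stabilizer_iff, mul_smul, mul_smul, hb, hx, inv_smul_eq_iff]
    exact hb.symm
  have hD1 : ∀ (P : Subgroup G) (b : G), b⁻¹ * (z : G) * b ∈ P →
      ∀ d ∈ ES G v (t • v), b⁻¹ * d * b ∈ P := by
    intro P b hb d hd
    rw [hz] at hd
    exact conj_mem_of_zpowers hb hd
  have hD2 : ∀ (P : Subgroup G) (b : G), b⁻¹ * (z' : G) * b ∈ P →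
      ∀ d ∈ ES G v (t • v), b⁻¹ * (t⁻¹ * d * t) * b ∈ P := by
    intro P b hb d hd
    rw [hz] at hd
    apply conj_mem_of_zpowers hb
    obtain ⟨n, rfl⟩ := hd
    refine ⟨n, ?_⟩
    simp only
    rw [hz']
    have h5 := conj_zpow (a := t⁻¹) (b := (z : G)) (i := n)
    rw [inv_inv] at h5
    exact h5
  obtain ⟨w, hw⟩ := hf
  obtain ⟨w', hw'⟩ := hf'
  by_cases hs : ∃ s : MulAction.stabilizer G v, s • κ u' = κ v'
  · obtain ⟨s, hs⟩ := hs
    have hHn := isHn_sub hC.ta hC.adj hC.oe s hs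
    rw [hC.es, Subgroup.map_bot] at hHn
    have hv : ∀ w : W, ∃ b : MulAction.stabilizer G v, b • κ u' = w := by
      intro w
      obtain ⟨b, hb | hb⟩ := hC.oe.vert hC.ta hC.adj w
      · exact ⟨b, hb⟩
      · exact ⟨b * s, by rw [mul_smul, hs, hb]⟩
    obtain ⟨b1, hb1⟩ := hv w
    obtain ⟨b2, hb2⟩ := hv w'
    exact hFI.2 ⟨_, _, h3 G _ _ _ (s : G) t (b1 : G) (b2 : G) hH hHn b1.2 b2.2
      (hD1 _ _ (key z b1 w _ hw hb1)) (hD2 _ _ (key z' b2 w' _ hw' hb2))⟩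
  · push Not at hs
    have hAm := isAm_sub hC.ta hC.adj hC.oe hs
    rw [hC.es, Subgroup.map_bot] at hAm
    have hAm' := (h0 G (MulAction.stabilizer G v)).1 _ _ _ hAm
    -- both factors are proper
    have hPne : (MulAction.stabilizer (MulAction.stabilizer G v) (κ u')).map
        (MulAction.stabilizer G v).subtype ≠ ⊥ := by
      intro hbot
      have h5 := hAm.sup
      rw [hbot, bot_sup_eq] at h5
      obtain ⟨⟨a, ha, _⟩, ⟨b, hb, hb2⟩⟩ := hEss v'
      have h6 : b ∈ (MulAction.stabilizer (MulAction.stabilizer G v) (κ v')).map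
        (MulAction.stabilizer G v).subtype := by rw [← h5]; exact hb
      obtain ⟨c, hc, hcb⟩ := h6
      have hc' : c • κ v' = κ v' := MulAction.mem_stabilizer_iff.1 hc
      apply hC.nv c _ hc'
      have : (c : G) = b := hcb
      rw [this]
      exact hb2
    have hQne : (MulAction.stabilizer (MulAction.stabilizer G v) (κ v')).map
        (MulAction.stabilizer G v).subtype ≠ ⊥ := by
      intro hbot
      have h5 := hAm.sup
      rw [hbot, sup_bot_eq] at h5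
      obtain ⟨⟨b, hb, hb2⟩, _⟩ := hEss u'
      have h6 : b ∈ (MulAction.stabilizer (MulAction.stabilizer G v) (κ u')).map
        (MulAction.stabilizer G v).subtype := by rw [← h5]; exact hb
      obtain ⟨c, hc, hcb⟩ := h6
      have hc' : c • κ u' = κ u' := MulAction.mem_stabilizer_iff.1 hc
      apply hC.nu c _ hc'
      have : (c : G) = b := hcb
      rw [this]
      exact hb2
    have hsup : ∀ (P : Subgroup G) (x : G), P ≠ ⊥ → P ⊔ Subgroup.zpowers x ≠ ⊥ := by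
      intro P x hP hbot
      exact hP (eq_bot_iff.2 (le_trans le_sup_left hbot.le))
    obtain ⟨b1, hb1⟩ := hC.oe.vert hC.ta hC.adj w
    obtain ⟨b2, hb2⟩ := hC.oe.vert hC.ta hC.adj w'
    rcases hb1 with hb1 | hb1 <;> rcases hb2 with hb2 | hb2
    · exact hFI.1 ⟨_, _, h1 G _ _ _ _ t (b1 : G) (b2 : G) hH hAm b1.2 b2.2
        (hD1 _ _ (key z b1 w _ hw hb1)) (hD2 _ _ (key z' b2 w' _ hw' hb2)), hQne, hsup _ _ hPne⟩
    · exact hFI.2 ⟨_, _, h2 G _ _ _ _ t (b1 : G) (b2 : G) hH hAm b1.2 b2.2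
        (hD1 _ _ (key z b1 w _ hw hb1)) (hD2 _ _ (key z' b2 w' _ hw' hb2))⟩
    · exact hFI.2 ⟨_, _, h2 G _ _ _ _ t (b1 : G) (b2 : G) hH hAm' b1.2 b2.2
        (hD1 _ _ (key z b1 w _ hw hb1)) (hD2 _ _ (key z' b2 w' _ hw' hb2))⟩
    · exact hFI.1 ⟨_, _, h1 G _ _ _ _ t (b1 : G) (b2 : G) hH hAm' b1.2 b2.2
        (hD1 _ _ (key z b1 w _ hw hb1)) (hD2 _ _ (key z' b2 w' _ hw' hb2)), hPne, hsup _ _ hQne⟩

end

/-- the statement at the base vertex -/
theorem fs_base (hCOL : S_COL) (hAX : S_AX) (h0 : S_AL0) (h1 : S_AL1) (h2 : S_AL2) (h3 : S_AL3)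
    (h4 : S_AL4) {G : Type} [Group G] {V V' : Type} [MulAction G V] [MulAction G V']
    {X : SimpleGraph V} {X' : SimpleGraph V'} {v : V} {t : G} {u' v' : V'} (hFI : FI G)
    (h : HT G X v t) (hT : TA G X') (hadj : X'.Adj u' v')
    (hEss : Ess X' (MulAction.stabilizer G v) u' v')
    (htriv : MulAction.stabilizer G v ⊓ ES G u' v' = ⊥) :
    ∃ c c' : V, c ≠ c' ∧ X.Adj v c ∧ X.Adj v c' ∧ Ess X' (ES G v c) u' v' ∧
      Ess X' (ES G v c') u' v' := by
  by_contra hcon0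
  have hcon : ∀ c c' : V, c ≠ c' → X.Adj v c → X.Adj v c' → Ess X' (ES G v c) u' v' →
      ¬ Ess X' (ES G v c') u' v' := fun c c' e e1 e2 e3 e4 => hcon0 ⟨c, c', e, e1, e2, e3, e4⟩
  obtain ⟨W, iW, Y, κ, hC⟩ := exists_CT hCOL hT (MulAction.stabilizer G v) hadj htriv
  obtain ⟨⟨z, _, hz⟩, _⟩ := h.mc
  have hzA : z ∈ MulAction.stabilizer G v := by
    have h5 : z ∈ ES G v (t • v) := by rw [hz]; exact Subgroup.mem_zpowers z
    exact MulAction.mem_stabilizer_iff.2 (mem_ES.1 h5).1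
  have hz2 := HT.gen' hz
  have hzA' : t⁻¹ * z * t ∈ MulAction.stabilizer G v := by
    have h5 : t⁻¹ * z * t ∈ ES G v (t⁻¹ • v) := by rw [hz2]; exact Subgroup.mem_zpowers _
    exact MulAction.mem_stabilizer_iff.2 (mem_ES.1 h5).1
  by_cases hf : ∃ w : W, (⟨z, hzA⟩ : MulAction.stabilizer G v) • w = w
  · by_cases hf' : ∃ w : W, (⟨t⁻¹ * z * t, hzA'⟩ : MulAction.stabilizer G v) • w = w
    · exact fs_zero h0 h1 h2 h3 hFI h hC hEss ⟨z, hzA⟩ ⟨_, hzA'⟩ hz rfl hf hf'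
    · refine fs_one hAX h4 hFI h.inv hT hadj hC hcon ⟨_, hzA'⟩ ⟨z, hzA⟩ hz2 ?_ hf' hf
      show z = t⁻¹⁻¹ * (t⁻¹ * z * t) * t⁻¹
      group
  · by_cases hf' : ∃ w : W, (⟨t⁻¹ * z * t, hzA'⟩ : MulAction.stabilizer G v) • w = w
    · exact fs_one hAX h4 hFI h hT hadj hC hcon ⟨z, hzA⟩ ⟨_, hzA'⟩ hz rfl hf hf'
    · obtain ⟨l, a, p, hl, -, -, -, hess, -⟩ := h.cross hAX hT hadj hC ⟨z, hzA⟩ hz hf
      obtain ⟨l', a', p', hl', -, -, -, hess', -⟩ :=
        h.inv.cross hAX hT hadj hC ⟨_, hzA'⟩ hz2 hf'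
      have e1 : ∀ a : MulAction.stabilizer G v, ((a : G)⁻¹) • v = v := by
        intro a
        rw [inv_smul_eq_iff]
        exact (MulAction.mem_stabilizer_iff.1 a.2).symm
      exact hcon _ _ (h.types (e1 (a 0)) (e1 (a' 0))) (hess 0 hl).1 (hess' 0 hl').1 (hess 0 hl).2
        (hess' 0 hl').2

theorem p_FS (hCOL : S_COL) (hAX : S_AX) (h0 : S_AL0) (h1 : S_AL1) (h2 : S_AL2) (h3 : S_AL3)
    (h4 : S_AL4) : S_FS := by
  intro G _ V V' _ _ X X' v t u' v' hFI h hT hadj w hEss htriv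
  obtain ⟨g, rfl⟩ := h.vert w
  have hst : ∀ a : G, a ∈ MulAction.stabilizer G v ↔ g * a * g⁻¹ ∈
      MulAction.stabilizer G (g • v) := by
    intro a
    rw [MulAction.mem_stabilizer_iff, MulAction.mem_stabilizer_iff, mul_smul, mul_smul,
      inv_smul_smul]
    constructor
    · intro e; rw [e]
    · intro e; exact smul_left_cancel g e
  have hadj' : X'.Adj (g⁻¹ • u') (g⁻¹ • v') := hT.act _ _ _ hadj
  have hEss' : Ess X' (MulAction.stabilizer G v) (g⁻¹ • u') (g⁻¹ • v') := by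
    apply hEss.conj hT g⁻¹
    intro a ha
    rw [hst]
    have : g * (g⁻¹ * a * g⁻¹⁻¹) * g⁻¹ = a := by group
    rw [this]
    exact ha
  have htriv' : MulAction.stabilizer G v ⊓ ES G (g⁻¹ • u') (g⁻¹ • v') = ⊥ := by
    rw [eq_bot_iff]
    rintro a ⟨ha1, ha2⟩
    have h5 : g * a * g⁻¹ ∈ MulAction.stabilizer G (g • v) ⊓ ES G u' v' := by
      refine ⟨(hst a).1 ha1, ?_⟩
      have ha2' : a ∈ ES G (g⁻¹ • u') (g⁻¹ • v') := ha2
      rw [mem_ES_smul, inv_inv] at ha2'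
      exact ha2'
    rw [htriv, Subgroup.mem_bot] at h5
    rw [Subgroup.mem_bot]
    have h6 : a = g⁻¹ * (g * a * g⁻¹) * g := by group
    rw [h6, h5]
    group
  obtain ⟨c, c', hne, ha1, ha2, he1, he2⟩ := fs_base hCOL hAX h0 h1 h2 h3 h4 hFI h hT hadj' hEss'
    htriv'
  have key : ∀ c : V, Ess X' (ES G v c) (g⁻¹ • u') (g⁻¹ • v') →
      Ess X' (ES G (g • v) (g • c)) u' v' := by
    intro c hc
    have h5 := hc.conj hT g (E' := ES G (g • v) (g • c)) (by
      intro a ha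
      rw [mem_ES_smul]
      have : g⁻¹ * (g * a * g⁻¹) * g = a := by group
      rw [this]
      exact ha)
    rwa [smul_inv_smul, smul_inv_smul] at h5
  exact ⟨g • c, g • c', fun e => hne (smul_left_cancel g e), h.act _ _ _ ha1, h.act _ _ _ ha2,
    key c he1, key c' he2⟩

end Pool.Agent.SuT
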