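import Pool.Agent.Lib.MP_305fdd_al.Su.Tr.Set

/-!
# MP_305fdd_al, surface groups, TREES block: an element with an elliptic power is elliptic
-/

set_option autoImplicit false

namespace Pool.Agent.SuT

open Pool.Agent.SuUp

section

variable {G : Type} [Group G] {V : Type} [MulAction G V] {X : SimpleGraph V}

private theorem step (hT : TA G X) {E : Subgroup G} {v a b : V} (hab : X.Adj a b)
    (he : Ess X E a b) (hv : v ∉ Hf X a b) :
    ∃ c, X.Adj b c ∧ Ess X E b c ∧ v ∉ Hf X b c ∧ X.dist v b = X.dist v a + 1 := by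
  obtain ⟨c, hc, hca, hec⟩ := two_ess hT hab.symm (he.symm hT.tree hab)
  refine ⟨c, hc, hec, ?_, ?_⟩
  · intro hvc
    rw [not_mem_Hf hT.tree hab] at hv
    exact hca (first_unique hT.tree hc hab.symm hvc hv)
  · have h1 := dist_adj hT.tree hab v
    rw [mem_Hf] at hv
    omega

private theorem many (hT : TA G X) {E : Subgroup G} {v a b : V} (hab : X.Adj a b)
    (he : Ess X E a b) (hv : v ∉ Hf X a b) (n : ℕ) :
    ∃ c d, X.Adj c d ∧ Ess X E c d ∧ v ∉ Hf X c d ∧ n ≤ X.dist v c := by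
  induction n with
  | zero => exact ⟨a, b, hab, he, hv, Nat.zero_le _⟩
  | succ n ih =>
    obtain ⟨c, d, h1, h2, h3, h4⟩ := ih
    obtain ⟨e, h5, h6, h7, h8⟩ := step hT h1 h2 h3
    exact ⟨d, e, h5, h6, h7, by omega⟩

/-- an element with an elliptic power is elliptic -/
theorem fixed_of_pow (hT : TA G X) {z : G} {n : ℕ} (hn : 0 < n) {v : V} (hv : z ^ n • v = v) :
    ∃ p : V, z • p = p := by
  by_contra hcon
  have hfg : (Subgroup.zpowers z).FG := ⟨{z}, by simp [Subgroup.zpowers_eq_closure]⟩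
  obtain ⟨a, b, hab, he⟩ := exists_ess hT hfg (by
    rintro ⟨p, hp⟩
    exact hcon ⟨p, hp z (Subgroup.mem_zpowers z)⟩)
  obtain ⟨a, b, hab, he, hva⟩ : ∃ a b, X.Adj a b ∧ Ess X (Subgroup.zpowers z) a b ∧
      v ∉ Hf X a b := by
    by_cases h1 : v ∈ Hf X a b
    · refine ⟨b, a, hab.symm, he.symm hT.tree hab, ?_⟩
      rw [not_mem_Hf hT.tree hab.symm]
      exact h1
    · exact ⟨a, b, hab, he, h1⟩
  set M := ∑ i ∈ Finset.range n, X.dist v (z ^ i • v) with hM
  have hbd : ∀ g ∈ Subgroup.zpowers z, X.dist v (g • v) ≤ M := by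
    rintro _ ⟨k, rfl⟩
    simp only
    have h1 : z ^ k • v = z ^ ((k % n).toNat) • v := by
      have h2 : k = (k % n) + n * (k / n) := (Int.emod_add_mul_ediv k n).symm
      have h3 : (0 : ℤ) ≤ k % n := Int.emod_nonneg _ (by omega)
      have h4 : (((k % n).toNat : ℕ) : ℤ) = k % n := Int.toNat_of_nonneg h3
      have h5 : ∀ m : ℤ, z ^ ((n : ℤ) * m) • v = v := by
        intro m
        rw [zpow_mul, zpow_natCast]
        have h6 : z ^ n ∈ MulAction.stabilizer G v := hv
        exact (MulAction.stabilizer G v).zpow_mem h6 m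
      conv_lhs => rw [h2]
      rw [zpow_add, mul_smul, h5, ← h4, zpow_natCast, Int.toNat_natCast]
    rw [h1]
    have h2 : (k % n).toNat ∈ Finset.range n := by
      rw [Finset.mem_range]
      have h3 : (0 : ℤ) ≤ k % n := Int.emod_nonneg _ (by omega)
      have h4 : k % n < n := Int.emod_lt_of_pos _ (by omega)
      omega
    exact Finset.single_le_sum (f := fun i => X.dist v (z ^ i • v)) (fun _ _ => Nat.zero_le _) h2
  obtain ⟨c, d, h1, h2, h3, h4⟩ := many hT hab he hva (M + 1)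
  obtain ⟨⟨g, hg, hgv⟩, _⟩ := h2 v
  rw [not_mem_Hf hT.tree h1] at h3
  have h5 := sep hT.tree h1 h3 hgv
  have h6 := hbd g hg
  omega

/-- the group generated by an element crosses no edge if a nontrivial power fixes a vertex -/
theorem not_ess_of_zpow (hT : TA G X) {z : G} {k : ℤ} (hk : k ≠ 0) {v : V} (hv : z ^ k • v = v)
    {a b : V} : ¬ Ess X (Subgroup.zpowers z) a b := by
  have h1 : z ^ k.natAbs • v = v := by
    rcases Int.natAbs_eq k with h | h
    · rw [h, zpow_natCast] at hv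
      exact hv
    · rw [h, zpow_neg, zpow_natCast, inv_smul_eq_iff] at hv
      exact hv.symm
  obtain ⟨p, hp⟩ := fixed_of_pow hT (Int.natAbs_pos.2 hk) h1
  intro he
  have h2 : ∀ g ∈ Subgroup.zpowers z, g • p = p := by
    rintro _ ⟨n, rfl⟩
    have h6 : z ∈ MulAction.stabilizer G p := hp
    exact (MulAction.stabilizer G p).zpow_mem h6 n
  obtain ⟨⟨g, hg, h3⟩, ⟨g', hg', h4⟩⟩ := he p
  rw [h2 g hg] at h3
  rw [h2 g' hg'] at h4
  exact h4 h3

end

end Pool.Agent.SuT
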