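import Pool.Agent.Lib.MP_305fdd_al.Su.Tr.FS
import Pool.Agent.Lib.MP_305fdd_al.Su.Tr.Pow

/-!
# MP_305fdd_al, surface groups, TREES block: no crossing with a defect splitting
-/

set_option autoImplicit false

namespace Pool.Agent.SuT

open Matrix Polynomial Pool.Agent.SuUp Pool.Agent.FrS Pool.Agent.FrT

section

variable {G : Type} [Group G] {V V' : Type} [MulAction G V] [MulAction G V'] {X : SimpleGraph V}
  {X' : SimpleGraph V'} {v : V} {t : G} {u' v' : V'} {F : Type} [Field F]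
  [Algebra (ZMod 2) F] {ρ : G →* SpecialLinearGroup (Fin 2) F} {A : Subgroup G} {W : Type}
  [MulAction A W] {Y : SimpleGraph W} {κ : V' → W}

/-- the stabiliser of a vertex of the collapsed tree, as a subgroup of `G` -/
def St (A : Subgroup G) {W : Type} [MulAction A W] (w : W) : Subgroup G :=
  (MulAction.stabilizer A w).map A.subtype

theorem mem_St {w : W} {a : A} : (a : G) ∈ St A w ↔ a • w = w := by
  constructor
  · rintro ⟨b, hb, hba⟩
    have : b = a := Subtype.ext hba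
    rw [← this]
    exact hb
  · intro h
    exact ⟨a, h, rfl⟩

theorem Dfc.conj' (h0 : S_DE0) {z z' b : G} (hz : z ∈ A) (hz' : z' ∈ A) (hb : b ∈ A)
    (h : Dfc ρ A z z') : Dfc ρ A (b * z * b⁻¹) z' :=
  (h0 G F ρ A z z' b hz hz' hb h).2.2.2

theorem Dfc.symm' (h0 : S_DE0) {z z' : G} (hz : z ∈ A) (hz' : z' ∈ A)
    (h : Dfc ρ A z z') : Dfc ρ A z' z :=
  (h0 G F ρ A z z' 1 hz hz' A.one_mem h).1

theorem Dfc.inv' (h0 : S_DE0) {z z' : G} (hz : z ∈ A) (hz' : z' ∈ A)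
    (h : Dfc ρ A z z') : Dfc ρ A z⁻¹ z' := by
  have h1 := h.symm' h0 hz hz'
  have h2 := (h0 G F ρ A z' z 1 hz' hz A.one_mem h1).2.1
  exact Dfc.symm' h0 hz' (A.inv_mem hz) h2

/-- conjugate and invert the first element -/
theorem Dfc.pm (h0 : S_DE0) {z z' b y : G} (hz : z ∈ A) (hz' : z' ∈ A) (hb : b ∈ A)
    (hy : y = b * z * b⁻¹ ∨ y = b * z⁻¹ * b⁻¹) (h : Dfc ρ A z z') : Dfc ρ A y z' := by
  rcases hy with rfl | rfl
  · exact h.conj' h0 hz hz' hb
  · exact Dfc.conj' h0 (A.inv_mem hz) hz' hb (h.inv' h0 hz hz')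

/-- `z` crosses once -/
theorem nc_one (h2 : S_DE2) [Infinite F] (hN : Nsc ρ) (hC : CT X' A u' v' W Y κ)
    {s : A} (hs : s • κ u' = κ v') {x : A} (hx : ∃ w : W, x • w = w) :
    ¬ Dfc ρ A (s : G) (x : G) := by
  have hHn := isHn_sub hC.ta hC.adj hC.oe s hs
  rw [hC.es, Subgroup.map_bot] at hHn
  obtain ⟨w, hw⟩ := hx
  obtain ⟨b, hb⟩ : ∃ b : A, b • κ u' = w := by
    obtain ⟨b, hb | hb⟩ := hC.oe.vert hC.ta hC.adj w
    · exact ⟨b, hb⟩
    · exact ⟨b * s, by rw [mul_smul, hs, hb]⟩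
  have hbx : ((b⁻¹ * x * b : A) : G) ∈ St A (κ u') := by
    rw [mem_St, mul_smul, mul_smul, hb, hw, inv_smul_eq_iff]
    exact hb.symm
  have hsP : (s : G) ∉ St A (κ u') := by
    rw [mem_St, hs]
    exact hC.adj.ne'
  exact (h2 G F ρ A (St A (κ u')) (s : G) 1 1 (x : G) (b : G) hN hHn hsP (Subgroup.one_mem _)
    (Subgroup.one_mem _) x.2 b.2 hbx).1

/-- `z` crosses twice, coherently: `z = s s c` -/
theorem nc_two (h2 : S_DE2) [Infinite F] (hN : Nsc ρ) (hC : CT X' A u' v' W Y κ)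
    {s y : A} (hs : s • κ u' = κ v') (hy : y • κ u' = s • κ v') {x : A} (hx : ∃ w : W, x • w = w) :
    ¬ Dfc ρ A (y : G) (x : G) := by
  have hHn := isHn_sub hC.ta hC.adj hC.oe s hs
  rw [hC.es, Subgroup.map_bot] at hHn
  obtain ⟨w, hw⟩ := hx
  obtain ⟨b, hb⟩ : ∃ b : A, b • κ u' = w := by
    obtain ⟨b, hb | hb⟩ := hC.oe.vert hC.ta hC.adj w
    · exact ⟨b, hb⟩
    · exact ⟨b * s, by rw [mul_smul, hs, hb]⟩
  have hbx : ((b⁻¹ * x * b : A) : G) ∈ St A (κ u') := by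
    rw [mem_St, mul_smul, mul_smul, hb, hw, inv_smul_eq_iff]
    exact hb.symm
  have hsP : (s : G) ∉ St A (κ u') := by
    rw [mem_St, hs]
    exact hC.adj.ne'
  have hc : (((s * s)⁻¹ * y : A) : G) ∈ St A (κ u') := by
    rw [mem_St, mul_smul, hy, ← hs, inv_smul_eq_iff, mul_smul]
  have h3 := (h2 G F ρ A (St A (κ u')) (s : G) (((s * s)⁻¹ * y : A) : G) 1 (x : G) (b : G) hN hHn
    hsP hc (Subgroup.one_mem _) x.2 b.2 hbx).2.1
  have e : (s : G) * (s : G) * (((s * s)⁻¹ * y : A) : G) = (y : G) := by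
    simp only [Subgroup.coe_mul, InvMemClass.coe_inv]
    group
  rw [e] at h3
  exact h3

/-- `z` crosses twice, incoherently: `z = h p`, `h ∈ St (κ v')`, `p ∈ St (κ u')` -/
theorem nc_mix (h1 : S_DE1) (h2 : S_DE2) [Infinite F] (hN : Nsc ρ) (hC : CT X' A u' v' W Y κ)
    {h p : A} (hh : h • κ v' = κ v') (hh1 : h ≠ 1) (hp : p • κ u' = κ u') (hp1 : p ≠ 1)
    {x : A} (hx : ∃ w : W, x • w = w) : ¬ Dfc ρ A ((h : G) * (p : G)) (x : G) := by
  obtain ⟨w, hw⟩ := hx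
  have hh1' : (h : G) ≠ 1 := fun e => hh1 (Subtype.ext e)
  have hp1' : (p : G) ≠ 1 := fun e => hp1 (Subtype.ext e)
  have key : ∀ (b : A) (w0 : W), b • w0 = w → ((b⁻¹ * x * b : A) : G) ∈ St A w0 := by
    intro b w0 hb
    rw [mem_St, mul_smul, mul_smul, hb, hw, inv_smul_eq_iff]
    exact hb.symm
  by_cases hs : ∃ s : A, s • κ u' = κ v'
  · obtain ⟨s, hs⟩ := hs
    have hHn := isHn_sub hC.ta hC.adj hC.oe s hs
    rw [hC.es, Subgroup.map_bot] at hHn
    obtain ⟨b, hb⟩ : ∃ b : A, b • κ u' = w := by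
      obtain ⟨b, hb | hb⟩ := hC.oe.vert hC.ta hC.adj w
      · exact ⟨b, hb⟩
      · exact ⟨b * s, by rw [mul_smul, hs, hb]⟩
    have hsP : (s : G) ∉ St A (κ u') := by
      rw [mem_St, hs]
      exact hC.adj.ne'
    have hc : ((s⁻¹ * h * s : A) : G) ∈ St A (κ u') := by
      rw [mem_St, mul_smul, mul_smul, hs, hh, ← hs, inv_smul_smul]
    have h3 := (h2 G F ρ A (St A (κ u')) (s : G) ((s⁻¹ * h * s : A) : G) (p : G) (x : G) (b : G)
      hN hHn hsP hc (mem_St.2 hp) x.2 b.2 (key b _ hb)).2.2 (by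
        intro e
        apply hh1'
        have e' : (s : G)⁻¹ * h * s = 1 := e
        have : (h : G) = s * ((s : G)⁻¹ * h * s) * (s : G)⁻¹ := by group
        rw [this, e']
        group) hp1'
    have e : (s : G) * ((s⁻¹ * h * s : A) : G) * (s : G)⁻¹ * (p : G) = (h : G) * (p : G) := by
      simp only [Subgroup.coe_mul, InvMemClass.coe_inv]
      group
    rw [e] at h3
    exact h3
  · push Not at hs
    have hAm := isAm_sub hC.ta hC.adj hC.oe hs
    rw [hC.es, Subgroup.map_bot] at hAm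
    obtain ⟨b, hb⟩ := hC.oe.vert hC.ta hC.adj w
    exact h1 G F ρ A (St A (κ u')) (St A (κ v')) (h : G) (p : G) (x : G) (b : G) hN hAm
      (mem_St.2 hh) hh1' (mem_St.2 hp) hp1' x.2 b.2 (hb.imp (key b _) (key b _))

/-- the stable letter from one crossing -/
theorem one_letter {z a : A} {p : ℕ → W}
    (hp : z • p 0 = p 1)
    (ha : (a • κ u' = p 0 ∧ a • κ v' = p 1) ∨ (a • κ u' = p 1 ∧ a • κ v' = p 0)) :
    ∃ s : A, s • κ u' = κ v' ∧ ((s : G) = (a : G)⁻¹ * z * a ∨ (s : G) = (a : G)⁻¹ * (z : G)⁻¹ * a) := by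
  rcases ha with ⟨e1, e2⟩ | ⟨e1, e2⟩
  · refine ⟨a⁻¹ * z * a, ?_, Or.inl rfl⟩
    rw [mul_smul, mul_smul, e1, hp, inv_smul_eq_iff]
    exact e2.symm
  · refine ⟨a⁻¹ * z⁻¹ * a, ?_, Or.inr rfl⟩
    rw [mul_smul, mul_smul, inv_smul_eq_iff, inv_smul_eq_iff, e2, hp, e1]

/-- `z` crosses twice, `x` is elliptic: no defect -/
theorem nc_l2 (h0 : S_DE0) (h1 : S_DE1) (h2 : S_DE2) [Infinite F] (hN : Nsc ρ)
    (hC : CT X' A u' v' W Y κ) {z x a b : A} {p : ℕ → W} (hp : z • p 0 = p 2)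
    (ha : (a • κ u' = p 0 ∧ a • κ v' = p 1) ∨ (a • κ u' = p 1 ∧ a • κ v' = p 0))
    (hb : (b • κ u' = p 1 ∧ b • κ v' = p 2) ∨ (b • κ u' = p 2 ∧ b • κ v' = p 1))
    (hnf : ¬ ∃ w : W, z • w = w) (hx : ∃ w : W, x • w = w) : ¬ Dfc ρ A (z : G) (x : G) := by
  intro hD
  -- general facts
  have hc : ∀ c : A, Dfc ρ A ((c⁻¹ * z * c : A) : G) (x : G) := by
    intro c
    refine Dfc.pm h0 z.2 x.2 (A.inv_mem c.2) (Or.inl ?_) hD
    simp only [Subgroup.coe_mul, InvMemClass.coe_inv, inv_inv]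
  have hc' : ∀ c : A, Dfc ρ A ((c⁻¹ * z⁻¹ * c : A) : G) (x : G) := by
    intro c
    refine Dfc.pm h0 z.2 x.2 (A.inv_mem c.2) (Or.inr ?_) hD
    simp only [Subgroup.coe_mul, InvMemClass.coe_inv, inv_inv]
  rcases ha with ⟨a1, a2⟩ | ⟨a1, a2⟩ <;> rcases hb with ⟨b1, b2⟩ | ⟨b1, b2⟩
  · -- coherent
    refine nc_two h2 hN hC (s := a⁻¹ * b) (y := a⁻¹ * z * a) ?_ ?_ hx (hc a)
    · rw [mul_smul, b1, ← a2, inv_smul_smul]
    · rw [mul_smul, mul_smul, a1, hp, ← b2, ← mul_smul]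
  · -- a u = p0, a v = p1 = b v, b u = p2
    have e := nc_mix h1 h2 hN hC (h := a⁻¹ * b) (p := (a⁻¹ * b)⁻¹ * (a⁻¹ * z * a)) ?_ ?_ ?_ ?_ hx
    · apply e
      have e2 : ((a⁻¹ * b : A) : G) * (((a⁻¹ * b)⁻¹ * (a⁻¹ * z * a) : A) : G) =
          ((a⁻¹ * z * a : A) : G) := by
        rw [← Subgroup.coe_mul]
        congr 1
        group
      rw [e2]
      exact hc a
    · rw [mul_smul, b2, ← a2, inv_smul_smul]
    · intro e3
      apply hnf
      refine ⟨p 0, ?_⟩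
      have : a = b := by
        have h5 : a * (a⁻¹ * b) = b := by group
        rw [e3, mul_one] at h5
        exact h5
      rw [hp, ← b1, ← this, a1]
    · rw [mul_smul, inv_smul_eq_iff, mul_smul, mul_smul, a1, hp, mul_smul, b1]
    · intro e3
      apply hnf
      refine ⟨p 1, ?_⟩
      have h5 : z = b * a⁻¹ := by
        have h6 : z = a * (a⁻¹ * b) * ((a⁻¹ * b)⁻¹ * (a⁻¹ * z * a)) * a⁻¹ := by group
        rw [e3] at h6
        rw [h6]
        group
      rw [h5, ← a2, mul_smul, inv_smul_smul, b2, a2]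
  · -- a v = p0, a u = p1 = b u, b v = p2
    have e := nc_mix h1 h2 hN hC (p := a⁻¹ * b) (h := (a⁻¹ * b)⁻¹ * (a⁻¹ * z * a)) ?_ ?_ ?_ ?_ hx
    · apply e
      have e2 : (((a⁻¹ * b)⁻¹ * (a⁻¹ * z * a) : A) : G) * ((a⁻¹ * b : A) : G) =
          ((b⁻¹ * z * b : A) : G) := by
        rw [← Subgroup.coe_mul]
        congr 1
        group
      rw [e2]
      exact hc b
    · rw [mul_smul, inv_smul_eq_iff, mul_smul, mul_smul, a2, hp, mul_smul, b2]
    · intro e3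
      apply hnf
      refine ⟨p 1, ?_⟩
      have h5 : z = b * a⁻¹ := by
        have h6 : z = a * (a⁻¹ * b) * ((a⁻¹ * b)⁻¹ * (a⁻¹ * z * a)) * a⁻¹ := by group
        rw [e3] at h6
        rw [h6]
        group
      rw [h5, ← a1, mul_smul, inv_smul_smul, b1, a1]
    · rw [mul_smul, b1, ← a1, inv_smul_smul]
    · intro e3
      apply hnf
      refine ⟨p 0, ?_⟩
      have : a = b := by
        have h5 : a * (a⁻¹ * b) = b := by group
        rw [e3, mul_one] at h5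
        exact h5
      rw [hp, ← b2, ← this, a2]
  · -- a v = p0, a u = p1 = b v, b u = p2 : z⁻¹
    refine nc_two h2 hN hC (s := b⁻¹ * a) (y := b⁻¹ * z⁻¹ * b) ?_ ?_ hx (hc' b)
    · rw [mul_smul, a1, ← b2, inv_smul_smul]
    · rw [mul_smul, mul_smul, b1, ← hp, inv_smul_smul, mul_smul, a2]

end

/-- NO CROSSING -/
theorem p_NC (hCOL : S_COL) (hAX : S_AX) (hC1 : S_C1) (hC2 : S_C2) (h0 : S_DE0) (h1 : S_DE1)
    (h2 : S_DE2) (h3 : S_DE3) : S_NC := by
  intro G _ V V' _ _ X X' v t v0' t' F _ _ ρ hinf hN hFI h h' hdef x y hxy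
  by_contra hcon
  -- reduce to the base edge
  obtain ⟨z, hz1, hz⟩ := h.mc.1
  have hnf0 : ¬ ∃ p : V', ∀ a ∈ ES G v (t • v), a • p = p := by
    rintro ⟨p, hp⟩
    apply hcon
    obtain ⟨g, ⟨e1, e2⟩ | ⟨e1, e2⟩⟩ := h.one x y hxy
    · refine ⟨g • p, ?_⟩
      intro a ha
      rw [← e1, ← e2, mem_ES_smul] at ha
      have := hp _ ha
      rw [mul_smul, mul_smul, inv_smul_eq_iff] at this
      exact this
    · refine ⟨g • p, ?_⟩
      intro a ha
      rw [← e1, ← e2, ES_symm, mem_ES_smul] at ha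
      have := hp _ ha
      rw [mul_smul, mul_smul, inv_smul_eq_iff] at this
      exact this
  have hfg : (ES G v (t • v)).FG := by
    rw [hz]
    exact ⟨{z}, by simp [Subgroup.zpowers_eq_closure]⟩
  obtain ⟨u', v', hadj, hess⟩ := exists_ess h'.toTA hfg hnf0
  have hcr := hC1 G V V' X X' v t v0' t' hFI h h' v (t • v) u' v' h.adj hadj hess
  have htriv : MulAction.stabilizer G v ⊓ ES G u' v' = ⊥ := by
    have hw : ∃ w : G, ES G u' v' = Subgroup.zpowers w := by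
      obtain ⟨g, ⟨e1, e2⟩ | ⟨e1, e2⟩⟩ := h'.one u' v' hadj
      · obtain ⟨⟨w, _, hw⟩, _⟩ := h'.mc.conj g
        rw [← ES_smul, e1, e2] at hw
        exact ⟨w, hw⟩
      · obtain ⟨⟨w, _, hw⟩, _⟩ := h'.mc.conj g
        rw [← ES_smul, e1, e2, ES_symm] at hw
        exact ⟨w, hw⟩
    obtain ⟨w, hw⟩ := hw
    rw [eq_bot_iff]
    rintro a ⟨ha1, ha2⟩
    rw [Subgroup.mem_bot]
    by_contra hne
    have ha2' : a ∈ ES G u' v' := ha2
    rw [hw] at ha2' hcr
    obtain ⟨k, rfl⟩ := ha2'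
    have hk : k ≠ 0 := by
      rintro rfl
      exact hne (zpow_zero w)
    exact not_ess_of_zpow h.toTA hk (v := v) ha1 hcr
  obtain ⟨W, iW, Y, κ, hC⟩ := exists_CT hCOL h'.toTA (MulAction.stabilizer G v) hadj htriv
  have hzA : z ∈ MulAction.stabilizer G v := by
    have h5 : z ∈ ES G v (t • v) := by rw [hz]; exact Subgroup.mem_zpowers z
    exact MulAction.mem_stabilizer_iff.2 (mem_ES.1 h5).1
  have hz2 := HT.gen' hz
  have hzA' : t⁻¹ * z * t ∈ MulAction.stabilizer G v := by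
    have h5 : t⁻¹ * z * t ∈ ES G v (t⁻¹ • v) := by rw [hz2]; exact Subgroup.mem_zpowers _
    exact MulAction.mem_stabilizer_iff.2 (mem_ES.1 h5).1
  have hD : Dfc ρ (MulAction.stabilizer G v) z (t⁻¹ * z * t) :=
    hdef z (by rw [hz]; exact Subgroup.mem_zpowers z)
  have hnf : ¬ ∃ w : W, (⟨z, hzA⟩ : MulAction.stabilizer G v) • w = w := by
    rintro ⟨w, hw⟩
    apply hC.nf (Subgroup.zpowers ⟨z, hzA⟩)
    · have e : (Subgroup.zpowers (⟨z, hzA⟩ : MulAction.stabilizer G v)).map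
          (MulAction.stabilizer G v).subtype = Subgroup.zpowers z := by
        rw [MonoidHom.map_zpowers]
        rfl
      rw [e, ← hz]
      exact hess
    · refine ⟨w, ?_⟩
      rintro _ ⟨n, rfl⟩
      have h6 : (⟨z, hzA⟩ : MulAction.stabilizer G v) ∈
        MulAction.stabilizer (MulAction.stabilizer G v) w := hw
      exact (MulAction.stabilizer (MulAction.stabilizer G v) w).zpow_mem h6 n
  obtain ⟨l, a, p, hl, hp, ha, hY, hes, hdis⟩ := h.cross hAX h'.toTA hadj hC ⟨z, hzA⟩ hz hnf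
  have e1 : ∀ a : MulAction.stabilizer G v, ((a : G)⁻¹) • v = v := by
    intro a
    rw [inv_smul_eq_iff]
    exact (MulAction.mem_stabilizer_iff.1 a.2).symm
  have two := hC2 G V V' X X' v t v0' t' hFI h h' v u' v' hadj htriv
  by_cases hf' : ∃ w : W, (⟨t⁻¹ * z * t, hzA'⟩ : MulAction.stabilizer G v) • w = w
  · -- the other generator is elliptic
    have hl2 : l ≤ 2 := by
      by_contra hne
      push Not at hne
      rcases two _ _ _ (hes 0 (by omega)).1 (hes 1 (by omega)).1 (hes 2 (by omega)).1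
        (hes 0 (by omega)).2 (hes 1 (by omega)).2 (hes 2 (by omega)).2 with e | e | e
      · exact hdis 0 (by omega) 1 (by omega) (by omega) e
      · exact hdis 0 (by omega) 2 (by omega) (by omega) e
      · exact hdis 1 (by omega) 2 (by omega) (by omega) e
    have hl12 : l = 1 ∨ l = 2 := by omega
    rcases hl12 with rfl | rfl
    · obtain ⟨s, hs, hsz⟩ := one_letter hp (ha 0 hl)
      refine nc_one h2 hN hC hs hf' ?_
      refine Dfc.pm h0 hzA hzA' (b := ((a 0 : G)⁻¹)) (Subgroup.inv_mem _ (a 0).2) ?_ hD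
      rw [inv_inv]
      exact hsz
    · exact nc_l2 h0 h1 h2 hN hC hp (ha 0 (by omega)) (ha 1 (by omega)) hnf hf' hD
  · obtain ⟨l', a', p', hl', hp', ha', hY', hes', hdis'⟩ :=
      h.inv.cross hAX h'.toTA hadj hC ⟨_, hzA'⟩ hz2 hf'
    have hl1 : l = 1 := by
      by_contra hne
      rcases two _ _ _ (hes 0 (by omega)).1 (hes 1 (by omega)).1 (hes' 0 hl').1
        (hes 0 (by omega)).2 (hes 1 (by omega)).2 (hes' 0 hl').2 with e | e | e
      · exact hdis 0 (by omega) 1 (by omega) (by omega) e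
      · exact h.types (e1 _) (e1 _) e
      · exact h.types (e1 _) (e1 _) e
    have hl1' : l' = 1 := by
      by_contra hne
      rcases two _ _ _ (hes' 0 (by omega)).1 (hes' 1 (by omega)).1 (hes 0 hl).1
        (hes' 0 (by omega)).2 (hes' 1 (by omega)).2 (hes 0 hl).2 with e | e | e
      · exact hdis' 0 (by omega) 1 (by omega) (by omega) e
      · exact h.types (e1 _) (e1 _) e.symm
      · exact h.types (e1 _) (e1 _) e.symm
    subst hl1
    subst hl1'
    obtain ⟨s, hs, hsz⟩ := one_letter hp (ha 0 hl)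
    obtain ⟨s', hs', hsz'⟩ := one_letter hp' (ha' 0 hl')
    have hHn := isHn_sub hC.ta hC.adj hC.oe s hs
    rw [hC.es, Subgroup.map_bot] at hHn
    have hc : ((s⁻¹ * s' : MulAction.stabilizer G v) : G) ∈
        St (MulAction.stabilizer G v) (κ u') := by
      rw [mem_St, mul_smul, hs', ← hs, inv_smul_smul]
    -- the defect gives equal traces of `s` and `s'`
    have hD1 : Dfc ρ (MulAction.stabilizer G v) (s : G) (t⁻¹ * z * t) := by
      refine Dfc.pm h0 hzA hzA' (b := ((a 0 : G)⁻¹)) (Subgroup.inv_mem _ (a 0).2) ?_ hD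
      rw [inv_inv]
      exact hsz
    have hD2 : Dfc ρ (MulAction.stabilizer G v) (s' : G) (s : G) := by
      refine Dfc.pm h0 hzA' s.2 (b := ((a' 0 : G)⁻¹)) (Subgroup.inv_mem _ (a' 0).2) ?_
        (hD1.symm' h0 s.2 hzA')
      rw [inv_inv]
      exact hsz'
    have hD3 : Dfc ρ (MulAction.stabilizer G v) (s : G)
        ((s : G) * ((s⁻¹ * s' : MulAction.stabilizer G v) : G)) := by
      have e : (s : G) * ((s⁻¹ * s' : MulAction.stabilizer G v) : G) = s' := by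
        simp only [Subgroup.coe_mul, InvMemClass.coe_inv]
        group
      rw [e]
      exact hD2.symm' h0 s'.2 s.2
    have hc1 := h3 G F ρ (MulAction.stabilizer G v) _ (s : G) _ hN hHn hc hD3
    have hss : (s' : G) = s := by
      have e : (s' : G) = s * ((s⁻¹ * s' : MulAction.stabilizer G v) : G) := by
        simp only [Subgroup.coe_mul, InvMemClass.coe_inv]
        group
      rw [e, hc1, mul_one]
    -- `z` and `t⁻¹ z t` are conjugate in the vertex group up to inversion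
    obtain ⟨b, hb, ε, hε, hzz⟩ : ∃ b : G, b • v = v ∧ ∃ ε : ℤ, ε ≠ 0 ∧
        (t * b) * z ^ ε * (t * b)⁻¹ ∈ Subgroup.zpowers z := by
      have hb : ((a' 0 : G) * (a 0 : G)⁻¹) • v = v := by
        rw [mul_smul, e1]
        exact MulAction.mem_stabilizer_iff.1 (a' 0).2
      rcases hsz with hA | hA <;> rcases hsz' with hB | hB
      · refine ⟨(a' 0 : G) * (a 0 : G)⁻¹, hb, 1, one_ne_zero, 1, ?_⟩
        have e : (a' 0 : G) * ((a 0 : G)⁻¹ * z * a 0) * (a' 0 : G)⁻¹ = t⁻¹ * z * t := by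
          have e5 : (a 0 : G)⁻¹ * z * a 0 = (a' 0 : G)⁻¹ * (t⁻¹ * z * t) * a' 0 :=
            hA.symm.trans (hss.symm.trans hB)
          rw [e5]; group
        simp only [zpow_one]
        have e6 : t * ((a' 0 : G) * (a 0 : G)⁻¹) * z * (t * ((a' 0 : G) * (a 0 : G)⁻¹))⁻¹ =
            t * ((a' 0 : G) * ((a 0 : G)⁻¹ * z * a 0) * (a' 0 : G)⁻¹) * t⁻¹ := by group
        rw [e6, e]
        group
      · refine ⟨(a' 0 : G) * (a 0 : G)⁻¹, hb, 1, one_ne_zero, -1, ?_⟩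
        have e : (a' 0 : G) * ((a 0 : G)⁻¹ * z * a 0) * (a' 0 : G)⁻¹ = (t⁻¹ * z * t)⁻¹ := by
          have e5 : (a 0 : G)⁻¹ * z * a 0 = (a' 0 : G)⁻¹ * (t⁻¹ * z * t)⁻¹ * a' 0 :=
            hA.symm.trans (hss.symm.trans hB)
          rw [e5]; group
        simp only [zpow_one]
        have e6 : t * ((a' 0 : G) * (a 0 : G)⁻¹) * z * (t * ((a' 0 : G) * (a 0 : G)⁻¹))⁻¹ =
            t * ((a' 0 : G) * ((a 0 : G)⁻¹ * z * a 0) * (a' 0 : G)⁻¹) * t⁻¹ := by group
        rw [e6, e]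
        group
      · refine ⟨(a' 0 : G) * (a 0 : G)⁻¹, hb, 1, one_ne_zero, -1, ?_⟩
        have e : (a' 0 : G) * ((a 0 : G)⁻¹ * z * a 0) * (a' 0 : G)⁻¹ = (t⁻¹ * z * t)⁻¹ := by
          have e5 : (a 0 : G)⁻¹ * z⁻¹ * a 0 = (a' 0 : G)⁻¹ * (t⁻¹ * z * t) * a' 0 :=
            hA.symm.trans (hss.symm.trans hB)
          have e7 : (a 0 : G)⁻¹ * z * a 0 = ((a 0 : G)⁻¹ * z⁻¹ * a 0)⁻¹ := by group
          rw [e7, e5]; group
        simp only [zpow_one]
        have e6 : t * ((a' 0 : G) * (a 0 : G)⁻¹) * z * (t * ((a' 0 : G) * (a 0 : G)⁻¹))⁻¹ =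
            t * ((a' 0 : G) * ((a 0 : G)⁻¹ * z * a 0) * (a' 0 : G)⁻¹) * t⁻¹ := by group
        rw [e6, e]
        group
      · refine ⟨(a' 0 : G) * (a 0 : G)⁻¹, hb, 1, one_ne_zero, 1, ?_⟩
        have e : (a' 0 : G) * ((a 0 : G)⁻¹ * z * a 0) * (a' 0 : G)⁻¹ = t⁻¹ * z * t := by
          have e5 : (a 0 : G)⁻¹ * z⁻¹ * a 0 = (a' 0 : G)⁻¹ * (t⁻¹ * z * t)⁻¹ * a' 0 :=
            hA.symm.trans (hss.symm.trans hB)
          have e7 : (a 0 : G)⁻¹ * z * a 0 = ((a 0 : G)⁻¹ * z⁻¹ * a 0)⁻¹ := by group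
          rw [e7, e5]; group
        simp only [zpow_one]
        have e6 : t * ((a' 0 : G) * (a 0 : G)⁻¹) * z * (t * ((a' 0 : G) * (a 0 : G)⁻¹))⁻¹ =
            t * ((a' 0 : G) * ((a 0 : G)⁻¹ * z * a 0) * (a' 0 : G)⁻¹) * t⁻¹ := by group
        rw [e6, e]
        group
    have hzε : z ^ ε ∈ ES G v (t • v) := by
      rw [hz]; exact ⟨ε, rfl⟩
    have hne : z ^ ε ≠ 1 := by
      intro e
      have h6 : z ^ ε.natAbs = 1 := by
        rcases Int.natAbs_eq ε with h | h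
        · rw [h, zpow_natCast] at e
          exact e
        · rw [h, _root_.zpow_neg, zpow_natCast, inv_eq_one] at e
          exact e
      exact hz1 _ (Int.natAbs_pos.2 hε) h6
    have h7 := h.mc.2 _ hzε hne (t * b) (by rw [hz]; exact hzz)
    have h8 := (mem_ES.1 h7).1
    rw [mul_smul, hb] at h8
    exact h.adj.ne h8.symm

end Pool.Agent.SuT
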