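import Pool.Agent.Lib.MP_305fdd_al.Su.Tr.Alg
import Pool.Agent.Lib.MP_305fdd_al.Su.Tr.Ax
import Pool.Agent.Lib.MP_305fdd_al.Su.Tr.Col
import Pool.Agent.Lib.MP_305fdd_al.Su.Tr.Blow
import Pool.Agent.Lib.MP_305fdd_al.Su.Tr.De1
import Pool.Agent.Lib.MP_305fdd_al.Su.Tr.De2
import Pool.Agent.Lib.MP_305fdd_al.Su.Tr.FS
import Pool.Agent.Lib.MP_305fdd_al.Su.Tr.NC
import Pool.Agent.Lib.MP_305fdd_al.Su.Tr.DefT
import Pool.Agent.Lib.MP_305fdd_al.Su.Up.Cross

/-!
# Surface groups, TREES block: the unconditional theorems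

Everything in this file holds without hypotheses: `FS'` (a freely indecomposable group which acts on
a tree with infinite cyclic edge groups is not a proper free product along the pieces, see `S_FS`),
`C1'`, `C2'` (the two crossing lemmas), `NC'` (the non-crossing theorem) and `DEF'` (the defect
theorem).
-/

namespace Pool.Agent.SuT

theorem FS' : S_FS := p_FS p_COL p_AX p_AL0 p_AL1 p_AL2 p_AL3 p_AL4

theorem C1' : S_C1 := Pool.Agent.SuUp.p_C1 FS'

theorem C2' : S_C2 := Pool.Agent.SuUp.p_C2 FS'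

theorem NC' : S_NC := p_NC p_COL p_AX C1' C2' p_DE0 p_DE1 p_DE2 p_DE3

theorem DEF' : S_DEF := p_DEF p_COL p_BLOW NC'

end Pool.Agent.SuT
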