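import Pool.Agent.Lib.MP_305fdd_al.Su.Tr.NC
import Pool.Agent.Lib.MP_305fdd_al.Fr.R.P_fgA

/-!
# MP_305fdd_al, surface groups, TREES block: collapse of a splitting to one edge; ellipticity
-/

set_option autoImplicit false

namespace Pool.Agent.SuT

open Matrix Polynomial Pool.Agent.SuUp Pool.Agent.FrS Pool.Agent.FrT

theorem MC.fg {G : Type} [Group G] {Z : Subgroup G} (h : MC Z) : Z.FG := by
  obtain ⟨⟨z, _, rfl⟩, _⟩ := h
  exact ⟨{z}, by simp [Subgroup.zpowers_eq_closure]⟩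

theorem fg_map' {G G' : Type} [Group G] [Group G'] {H : Subgroup G} (h : H.FG) (f : G →* G') :
    (H.map f).FG := by
  classical
  obtain ⟨S, hS⟩ := h
  refine ⟨S.image f, ?_⟩
  rw [← hS, Finset.coe_image, MonoidHom.map_closure]

section

variable {G : Type} [Group G] {V : Type} [MulAction G V] {X : SimpleGraph V}

theorem stab_smul (g : G) (x : V) : MulAction.stabilizer G (g • x) =
    (MulAction.stabilizer G x).map (MulAut.conj g).toMonoidHom := by
  ext a
  constructor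
  · intro ha
    rw [MulAction.mem_stabilizer_iff] at ha
    refine ⟨g⁻¹ * a * g, ?_, ?_⟩
    · show g⁻¹ * a * g ∈ MulAction.stabilizer G x
      rw [MulAction.mem_stabilizer_iff, mul_smul, mul_smul, ha, inv_smul_smul]
    · show g * (g⁻¹ * a * g) * g⁻¹ = a
      group
  · rintro ⟨b, hb, rfl⟩
    have hb' : b • x = x := hb
    show g * b * g⁻¹ ∈ _
    rw [MulAction.mem_stabilizer_iff, mul_smul, mul_smul, inv_smul_smul, hb']

/-- COLLAPSE of a splitting with one orbit of vertices to one edge -/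
theorem Spl.col (hCOL : S_COL) (hfg : Group.FG G) (h : Spl G X) (h1 : ∀ x y : V, ∃ g : G, g • x = y)
    {x y : V} (hxy : X.Adj x y) :
    ∃ (W : Type) (_ : MulAction G W) (Y : SimpleGraph W) (w : W) (t : G), Spl G Y ∧
      HT G Y w t ∧ ES G w (t • w) = ES G x y ∧
      ∀ Z : Subgroup G, Ess X Z x y → ¬ ∃ w' : W, ∀ g ∈ Z, g • w' = w' := by
  obtain ⟨W, iW, Y, κ, hTA, hsurj, hmap, hrch, hAdj, hHf, hES⟩ := hCOL G V X x y h.toTA hxy
  obtain ⟨t, ht⟩ := h1 x y
  have hκ : κ y = t • κ x := by rw [← ht, hmap]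
  have hYadj : Y.Adj (κ x) (t • κ x) := by
    rw [← hκ]
    exact (hAdj _ _).2 ⟨1, Or.inl ⟨one_smul _ _, one_smul _ _⟩⟩
  have hmc : MC (ES G (κ x) (t • κ x)) := by
    rw [← hκ, hES]
    exact h.mc x y hxy
  have hHT : HT G Y (κ x) t :=
    { toTA := hTA
      adj := hYadj
      one := by
        intro w w' hww
        obtain ⟨g, hg⟩ := (hAdj w w').1 hww
        rw [hκ] at hg
        refine ⟨g, ?_⟩
        rcases hg with hg | hg
        · exact Or.inl hg
        · exact Or.inr hg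
      mc := hmc }
  have hfgx : (MulAction.stabilizer G (κ x)).FG := by
    haveI := hfg
    have h2 := FrV.fg_hn hTA.act FrR.p_fgH hTA.tree (fun g => hTA.noinv g _ _ hYadj) hYadj t
      (Rch.refl Y (κ x) (t • κ x) (t • κ x)) hmc.fg
    rwa [hHT.oe.sst] at h2
  refine ⟨W, iW, Y, κ x, t, ?_, hHT, ?_, ?_⟩
  · refine { toTA := hTA, mc := ?_, fg := ?_, na := ?_ }
    · intro w w' hww
      obtain ⟨g, ⟨e1, e2⟩ | ⟨e1, e2⟩⟩ := (hAdj w w').1 hww
      · rw [← e1, ← e2, ES_smul, hκ]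
        exact hmc.conj g
      · rw [← e1, ← e2, ES_symm, ES_smul, hκ]
        exact hmc.conj g
    · intro w
      obtain ⟨x', rfl⟩ := hsurj w
      obtain ⟨g, rfl⟩ := h1 x x'
      rw [hmap, stab_smul]
      exact fg_map' hfgx _
    · intro w
      obtain ⟨x', rfl⟩ := hsurj w
      obtain ⟨a, ha, b, hb, hne⟩ := h.na x'
      have key : ∀ c ∈ MulAction.stabilizer G x', c ∈ MulAction.stabilizer G (κ x') := by
        intro c hc
        rw [MulAction.mem_stabilizer_iff] at hc ⊢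
        rw [← hmap, hc]
      exact ⟨a, key a ha, b, key b hb, hne⟩
  · rw [← hκ]
    exact hES
  · rintro Z hess ⟨w, hw⟩
    obtain ⟨x', rfl⟩ := hsurj w
    obtain ⟨⟨b, hb, h2⟩, ⟨c, hc, h3⟩⟩ := hess x'
    have h2' : κ (b • x') ∈ Hf Y (κ x) (κ y) := (hHf _).2 h2
    have h3' : κ (c • x') ∉ Hf Y (κ x) (κ y) := fun h => h3 ((hHf _).1 h)
    rw [hmap, hw b hb] at h2'
    rw [hmap, hw c hc] at h3'
    exact h3' h2'

/-- In a bad group the edge groups of a splitting are elliptic in every other splitting. -/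
theorem Bad.ell (hCOL : S_COL) (hNC : S_NC) (hfg : Group.FG G) {F : Type} [Field F]
    [Algebra (ZMod 2) F] {ρ : G →* SpecialLinearGroup (Fin 2) F} (hinf : Infinite F) (hN : Nsc ρ)
    (hFI : FI G) (hB : Bad G ρ) (h : Spl G X) {V' : Type} [MulAction G V'] {X' : SimpleGraph V'}
    (h' : Spl G X') {x y : V} (hxy : X.Adj x y) : ∃ p : V', ∀ z ∈ ES G x y, z • p = p := by
  by_contra hcon
  obtain ⟨u', v', hadj, hess⟩ := exists_ess h'.toTA (h.mc x y hxy).fg hcon
  obtain ⟨W, iW, Y, w, t, hS, hHT, hES, -⟩ := h.col hCOL hfg (hB.one V X h) hxy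
  obtain ⟨W', iW', Y', w', t', hS', hHT', hES', hnf⟩ := h'.col hCOL hfg (hB.one V' X' h') hadj
  apply hnf _ hess
  have h3 := hNC G W W' Y Y' w t w' t' F ρ hinf hN hFI hHT hHT' (hB.dfc W Y w t hS hHT) w (t • w)
    hHT.adj
  rw [hES] at h3
  exact h3

end

end Pool.Agent.SuT
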