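import Pool.Agent.Lib.MP_305fdd_al.Su.StmTree2

/-!
# MP_305fdd_al, surface groups, TREES block: algebra of `IsAm` and `IsHn` ([ST AL])
-/

set_option autoImplicit false

namespace Pool.Agent.SuT

open Matrix Polynomial Pool.Agent.SuUp Pool.Agent.FrS Pool.Agent.FrT

section tools

variable {G Q : Type} [Group G] [Group Q]

private theorem al_mono {H K : Subgroup G} (h : H ≤ K) {r : G → Q} (hr : MulOn K r) : MulOn H r :=
  fun x hx y hy => hr x (h hx) y (h hy)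

private theorem al_one {H : Subgroup G} {r : G → Q} (hr : MulOn H r) : r 1 = 1 := by
  have h := hr 1 H.one_mem 1 H.one_mem
  rw [one_mul] at h
  exact left_eq_mul.1 h

private theorem al_inv {H : Subgroup G} {r : G → Q} (hr : MulOn H r) {x : G} (hx : x ∈ H) :
    r x⁻¹ = (r x)⁻¹ := by
  have h := hr x hx x⁻¹ (H.inv_mem hx)
  rw [mul_inv_cancel, al_one hr] at h
  exact (inv_eq_of_mul_eq_one_right h.symm).symm

/-- three factors -/
private theorem al_mul3 {H : Subgroup G} {r : G → Q} (hr : MulOn H r) {x y z : G} (hx : x ∈ H)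
    (hy : y ∈ H) (hz : z ∈ H) : r (x * y * z) = r x * r y * r z := by
  rw [hr _ (H.mul_mem hx hy) _ hz, hr _ hx _ hy]

/-- conjugates -/
private theorem al_conj {H : Subgroup G} {r : G → Q} (hr : MulOn H r) {x y : G} (hx : x ∈ H)
    (hy : y ∈ H) : r (x * y * x⁻¹) = r x * r y * (r x)⁻¹ := by
  rw [al_mul3 hr hx hy (H.inv_mem hx), al_inv hr hx]

private theorem al_zpow {H : Subgroup G} {r : G → Q} (hr : MulOn H r) {x : G} (hx : x ∈ H)
    (k : ℤ) : r (x ^ k) = r x ^ k := by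
  let φ : H →* Q := ⟨⟨fun y => r y, al_one hr⟩, fun a b => hr a a.2 b b.2⟩
  have h := map_zpow φ ⟨x, hx⟩ k
  have h1 : φ (⟨x, hx⟩ ^ k) = r (x ^ k) := by
    show r (((⟨x, hx⟩ : H) ^ k : H) : G) = r (x ^ k)
    rw [SubgroupClass.coe_zpow]
  rw [h1] at h
  exact h

/-- the subgroup on which two multiplicative maps agree -/
private def al_eq {K : Subgroup G} {q q' : G → Q} (hq : MulOn K q) (hq' : MulOn K q') :
    Subgroup G where
  carrier := {x | x ∈ K ∧ q x = q' x}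
  mul_mem' := by
    rintro a b ⟨ha, ha'⟩ ⟨hb, hb'⟩
    exact ⟨K.mul_mem ha hb, by rw [hq a ha b hb, hq' a ha b hb, ha', hb']⟩
  one_mem' := ⟨K.one_mem, by rw [al_one hq, al_one hq']⟩
  inv_mem' := by
    rintro a ⟨ha, ha'⟩
    exact ⟨K.inv_mem ha, by rw [al_inv hq ha, al_inv hq' ha, ha']⟩

/-- two multiplicative maps which agree on `A` and on `B` agree on `A ⊔ B` -/
private theorem al_sup {K A B : Subgroup G} {q q' : G → Q} (hq : MulOn K q) (hq' : MulOn K q')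
    (hA : ∀ x ∈ A, x ∈ K ∧ q x = q' x) (hB : ∀ x ∈ B, x ∈ K ∧ q x = q' x) :
    ∀ x ∈ A ⊔ B, q x = q' x := by
  intro x hx
  have h : A ⊔ B ≤ al_eq hq hq' := sup_le hA hB
  exact (h hx).2

/-- the same with a cyclic subgroup -/
private theorem al_sup' {K A : Subgroup G} {t : G} {q q' : G → Q} (hq : MulOn K q)
    (hq' : MulOn K q') (hA : ∀ x ∈ A, x ∈ K ∧ q x = q' x) (ht : t ∈ K ∧ q t = q' t) :
    ∀ x ∈ A ⊔ Subgroup.zpowers t, q x = q' x := by
  intro x hx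
  have h1 : Subgroup.zpowers t ≤ al_eq hq hq' := Subgroup.zpowers_le.2 ht
  have h : A ⊔ Subgroup.zpowers t ≤ al_eq hq hq' := sup_le hA h1
  exact (h hx).2

end tools

theorem p_AL0 : S_AL0 := by
  intro G _ A
  constructor
  · intro P Q D h
    refine ⟨by rw [h.sup, sup_comm], h.le', h.le, ?_⟩
    intro R _ _ r r' hr hr' hd
    obtain ⟨q, h1, h2, h3⟩ := h.ext R r' r hr' hr (fun d hd' => (hd d hd').symm)
    exact ⟨q, h1, h3, h2⟩
  · intro P D s h
    have hsA : s ∈ A := by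
      rw [h.sup]
      exact Subgroup.mem_sup_right (Subgroup.mem_zpowers s)
    refine ⟨by rw [h.sup, Subgroup.zpowers_inv], ?_, ?_, ?_⟩
    · rintro x ⟨d, hd, rfl⟩
      have h1 := h.le' d hd
      simpa [MulAut.conj_apply] using h1
    · rintro x ⟨d, hd, rfl⟩
      have e : (s⁻¹)⁻¹ * (MulAut.conj s⁻¹).toMonoidHom d * s⁻¹ = d := by
        simp only [MulEquiv.coe_toMonoidHom, MulAut.conj_apply, inv_inv]
        group
      rw [e]
      exact h.le hd
    · intro R _ _ r t hr ht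
      obtain ⟨q, h1, h2, h3⟩ := h.ext R r t⁻¹ hr (fun d hd => by
        have h4 := ht ((MulAut.conj s⁻¹).toMonoidHom d) ⟨d, hd, rfl⟩
        have e1 : (s⁻¹)⁻¹ * (MulAut.conj s⁻¹).toMonoidHom d * s⁻¹ = d := by
          simp only [MulEquiv.coe_toMonoidHom, MulAut.conj_apply, inv_inv]
          group
        have e2 : (MulAut.conj s⁻¹).toMonoidHom d = s⁻¹ * d * s := by
          simp only [MulEquiv.coe_toMonoidHom, MulAut.conj_apply, inv_inv]
        rw [e1, e2] at h4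
        rw [h4]
        group)
      refine ⟨q, h1, h2, ?_⟩
      rw [al_inv h1 hsA, h3, inv_inv]

theorem p_AL1 : S_AL1 := by
  intro G _ A D P Q t a₁ a₂ hn ha h1 h2 hd1 hd2
  set t' := a₁⁻¹ * t * a₂ with ht'
  have hPA : P ≤ A := by rw [ha.sup]; exact le_sup_left
  have hQA : Q ≤ A := by rw [ha.sup]; exact le_sup_right
  refine ⟨?_, bot_le, bot_le, ?_⟩
  · symm
    rw [eq_top_iff, hn.sup]
    have hA : A ≤ Q ⊔ (P ⊔ Subgroup.zpowers t') := by
      rw [ha.sup]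
      exact sup_le (le_trans le_sup_left le_sup_right) le_sup_left
    refine sup_le hA (Subgroup.zpowers_le.2 ?_)
    have e : t = a₁ * t' * a₂⁻¹ := by rw [ht']; group
    rw [e]
    exact Subgroup.mul_mem _ (Subgroup.mul_mem _ (hA h1)
      (Subgroup.mem_sup_right (Subgroup.mem_sup_right (Subgroup.mem_zpowers t'))))
      (Subgroup.inv_mem _ (hA h2))
  · intro R _ _ r r' hr hr' _
    set K := P ⊔ Subgroup.zpowers t' with hK
    have hPK : P ≤ K := le_sup_left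
    have htK : t' ∈ K := Subgroup.mem_sup_right (Subgroup.mem_zpowers t')
    obtain ⟨qA, g1, g2, g3⟩ := ha.ext R r' r (al_mono hPK hr') hr (fun d hd => by
      rw [Subgroup.mem_bot.1 hd, al_one hr, al_one hr'])
    obtain ⟨q, k1, k2, k3⟩ := hn.ext R qA (qA a₁ * r' t' * (qA a₂)⁻¹) g1 (fun d hd => by
      have m1 := hd1 d hd
      have m2 := hd2 d hd
      have e1 : d = a₁ * (a₁⁻¹ * d * a₁) * a₁⁻¹ := by group
      have e2 : t⁻¹ * d * t = a₂ * (a₂⁻¹ * (t⁻¹ * d * t) * a₂) * a₂⁻¹ := by group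
      have e3 : a₁⁻¹ * d * a₁ = t' * (a₂⁻¹ * (t⁻¹ * d * t) * a₂) * t'⁻¹ := by
        rw [ht']; group
      have f1 : qA d = qA a₁ * r' (a₁⁻¹ * d * a₁) * (qA a₁)⁻¹ := by
        conv_lhs => rw [e1]
        rw [al_conj g1 h1 (hPA m1), g2 _ m1]
      have f2 : qA (t⁻¹ * d * t) =
          qA a₂ * r' (a₂⁻¹ * (t⁻¹ * d * t) * a₂) * (qA a₂)⁻¹ := by
        conv_lhs => rw [e2]
        rw [al_conj g1 h2 (hPA m2), g2 _ m2]
      have f3 : r' (a₁⁻¹ * d * a₁) =
          r' t' * r' (a₂⁻¹ * (t⁻¹ * d * t) * a₂) * (r' t')⁻¹ := by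
        conv_lhs => rw [e3]
        rw [al_conj hr' htK (hPK m2)]
      rw [f1, f2, f3]
      group)
    refine ⟨q, k1, fun x hx => by rw [k2 x (hQA hx), g3 x hx], ?_⟩
    refine al_sup' (K := K) (al_mono le_top k1) hr' (fun x hx => ⟨hPK hx, ?_⟩) ⟨htK, ?_⟩
    · rw [k2 x (hPA hx), g2 x hx]
    · have e : t' = a₁⁻¹ * t * a₂ := ht'
      have f : q t' = (q a₁)⁻¹ * q t * q a₂ := by
        conv_lhs => rw [e]
        rw [al_mul3 k1 (Subgroup.mem_top _) (Subgroup.mem_top _) (Subgroup.mem_top _),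
          al_inv k1 (Subgroup.mem_top _)]
      rw [f, k3, k2 a₁ h1, k2 a₂ h2]
      group

theorem p_AL2 : S_AL2 := by
  intro G _ A D P Q t a₁ a₂ hn ha h1 h2 hd1 hd2
  set t' := a₁⁻¹ * t * a₂ with ht'
  have hPA : P ≤ A := by rw [ha.sup]; exact le_sup_left
  have hQA : Q ≤ A := by rw [ha.sup]; exact le_sup_right
  set M := P ⊔ Q.map (MulAut.conj t').toMonoidHom with hM
  have hPM : P ≤ M := le_sup_left
  have hQM : ∀ x ∈ Q, t' * x * t'⁻¹ ∈ M := fun x hx =>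
    Subgroup.mem_sup_right ⟨x, hx, by simp [MulAut.conj_apply]⟩
  refine ⟨?_, bot_le, fun d hd => by
    rw [Subgroup.mem_bot.1 hd]
    simp, ?_⟩
  · symm
    rw [eq_top_iff, hn.sup]
    have htM : t' ∈ M ⊔ Subgroup.zpowers t' :=
      Subgroup.mem_sup_right (Subgroup.mem_zpowers t')
    have hA : A ≤ M ⊔ Subgroup.zpowers t' := by
      rw [ha.sup]
      refine sup_le (hPM.trans le_sup_left) (fun x hx => ?_)
      have e : x = t'⁻¹ * (t' * x * t'⁻¹) * t' := by group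
      rw [e]
      exact Subgroup.mul_mem _ (Subgroup.mul_mem _ (Subgroup.inv_mem _ htM)
        (Subgroup.mem_sup_left (hQM x hx))) htM
    refine sup_le hA (Subgroup.zpowers_le.2 ?_)
    have e : t = a₁ * t' * a₂⁻¹ := by rw [ht']; group
    rw [e]
    exact Subgroup.mul_mem _ (Subgroup.mul_mem _ (hA h1) htM) (Subgroup.inv_mem _ (hA h2))
  · intro R _ _ r τ hr _
    have hrQ : MulOn Q (fun x => τ⁻¹ * r (t' * x * t'⁻¹) * τ) := by
      intro x hx y hy
      have e : t' * (x * y) * t'⁻¹ = (t' * x * t'⁻¹) * (t' * y * t'⁻¹) := by group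
      beta_reduce
      rw [e, hr _ (hQM x hx) _ (hQM y hy)]
      group
    obtain ⟨qA, g1, g2, g3⟩ := ha.ext R r (fun x => τ⁻¹ * r (t' * x * t'⁻¹) * τ)
      (al_mono hPM hr) hrQ (fun d hd => by
      rw [Subgroup.mem_bot.1 hd, al_one hr, al_one hrQ])
    beta_reduce at g3
    obtain ⟨q, k1, k2, k3⟩ := hn.ext R qA (qA a₁ * τ * (qA a₂)⁻¹) g1 (fun d hd => by
      have m1 := hd1 d hd
      have m2 := hd2 d hd
      have e1 : d = a₁ * (a₁⁻¹ * d * a₁) * a₁⁻¹ := by group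
      have e2 : t⁻¹ * d * t = a₂ * (a₂⁻¹ * (t⁻¹ * d * t) * a₂) * a₂⁻¹ := by group
      have e3 : t' * (a₂⁻¹ * (t⁻¹ * d * t) * a₂) * t'⁻¹ = a₁⁻¹ * d * a₁ := by
        rw [ht']; group
      have f1 : qA d = qA a₁ * r (a₁⁻¹ * d * a₁) * (qA a₁)⁻¹ := by
        conv_lhs => rw [e1]
        rw [al_conj g1 h1 (hPA m1), g2 _ m1]
      have f2 : qA (t⁻¹ * d * t) =
          qA a₂ * (τ⁻¹ * r (a₁⁻¹ * d * a₁) * τ) * (qA a₂)⁻¹ := by
        conv_lhs => rw [e2]
        rw [al_conj g1 h2 (hQA m2), g3 _ m2, e3]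
      rw [f1, f2]
      group)
    have hqt : q t' = τ := by
      have e : t' = a₁⁻¹ * t * a₂ := ht'
      have f : q t' = (q a₁)⁻¹ * q t * q a₂ := by
        conv_lhs => rw [e]
        rw [al_mul3 k1 (Subgroup.mem_top _) (Subgroup.mem_top _) (Subgroup.mem_top _),
          al_inv k1 (Subgroup.mem_top _)]
      rw [f, k3, k2 a₁ h1, k2 a₂ h2]
      group
    refine ⟨q, k1, ?_, hqt⟩
    refine al_sup (K := M) (al_mono le_top k1) hr (fun x hx => ⟨hPM hx, ?_⟩) ?_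
    · rw [k2 x (hPA hx), g2 x hx]
    · rintro x ⟨y, hy, rfl⟩
      have e : (MulAut.conj t').toMonoidHom y = t' * y * t'⁻¹ := by
        simp [MulAut.conj_apply]
      rw [e]
      refine ⟨hQM y hy, ?_⟩
      rw [al_conj k1 (Subgroup.mem_top _) (Subgroup.mem_top _), hqt, k2 y (hQA hy), g3 y hy]
      group

theorem p_AL3 : S_AL3 := by
  intro G _ A D P s t a₁ a₂ hn ha h1 h2 hd1 hd2
  set t' := a₁⁻¹ * t * a₂ with ht'
  have hPA : P ≤ A := by rw [ha.sup]; exact le_sup_left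
  have hsA : s ∈ A := by
    rw [ha.sup]
    exact Subgroup.mem_sup_right (Subgroup.mem_zpowers s)
  set K := P ⊔ Subgroup.zpowers t' with hK
  have hPK : P ≤ K := le_sup_left
  have htK : t' ∈ K := Subgroup.mem_sup_right (Subgroup.mem_zpowers t')
  refine ⟨?_, bot_le, fun d hd => by
    rw [Subgroup.mem_bot.1 hd]
    simp, ?_⟩
  · symm
    rw [eq_top_iff, hn.sup]
    have hA : A ≤ K ⊔ Subgroup.zpowers s := by
      rw [ha.sup]
      exact sup_le (hPK.trans le_sup_left) le_sup_right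
    refine sup_le hA (Subgroup.zpowers_le.2 ?_)
    have e : t = a₁ * t' * a₂⁻¹ := by rw [ht']; group
    rw [e]
    exact Subgroup.mul_mem _ (Subgroup.mul_mem _ (hA h1) (Subgroup.mem_sup_left htK))
      (Subgroup.inv_mem _ (hA h2))
  · intro R _ _ r τ hr _
    obtain ⟨qA, g1, g2, g3⟩ := ha.ext R r τ (al_mono hPK hr) (fun d hd => by
      rw [Subgroup.mem_bot.1 hd]
      simp [al_one hr])
    obtain ⟨q, k1, k2, k3⟩ := hn.ext R qA (qA a₁ * r t' * (qA a₂)⁻¹) g1 (fun d hd => by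
      have m1 := hd1 d hd
      have m2 := hd2 d hd
      have e1 : d = a₁ * (a₁⁻¹ * d * a₁) * a₁⁻¹ := by group
      have e2 : t⁻¹ * d * t = a₂ * (a₂⁻¹ * (t⁻¹ * d * t) * a₂) * a₂⁻¹ := by group
      have e3 : a₁⁻¹ * d * a₁ = t' * (a₂⁻¹ * (t⁻¹ * d * t) * a₂) * t'⁻¹ := by
        rw [ht']; group
      have f1 : qA d = qA a₁ * r (a₁⁻¹ * d * a₁) * (qA a₁)⁻¹ := by
        conv_lhs => rw [e1]
        rw [al_conj g1 h1 (hPA m1), g2 _ m1]
      have f2 : qA (t⁻¹ * d * t) =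
          qA a₂ * r (a₂⁻¹ * (t⁻¹ * d * t) * a₂) * (qA a₂)⁻¹ := by
        conv_lhs => rw [e2]
        rw [al_conj g1 h2 (hPA m2), g2 _ m2]
      have f3 : r (a₁⁻¹ * d * a₁) =
          r t' * r (a₂⁻¹ * (t⁻¹ * d * t) * a₂) * (r t')⁻¹ := by
        conv_lhs => rw [e3]
        rw [al_conj hr htK (hPK m2)]
      rw [f1, f2, f3]
      group)
    refine ⟨q, k1, ?_, by rw [k2 s hsA, g3]⟩
    refine al_sup' (K := K) (al_mono le_top k1) hr (fun x hx => ⟨hPK hx, ?_⟩) ⟨htK, ?_⟩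
    · rw [k2 x (hPA hx), g2 x hx]
    · have e : t' = a₁⁻¹ * t * a₂ := ht'
      have f : q t' = (q a₁)⁻¹ * q t * q a₂ := by
        conv_lhs => rw [e]
        rw [al_mul3 k1 (Subgroup.mem_top _) (Subgroup.mem_top _) (Subgroup.mem_top _),
          al_inv k1 (Subgroup.mem_top _)]
      rw [f, k3, k2 a₁ h1, k2 a₂ h2]
      group

theorem p_AL4 : S_AL4 := by
  intro G _ A D P s t a₂ hn ha h2 hD hd2
  have hPA : P ≤ A := by rw [ha.sup]; exact le_sup_left
  have hsA : s ∈ A := by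
    rw [ha.sup]
    exact Subgroup.mem_sup_right (Subgroup.mem_zpowers s)
  have hsD : s ∈ D := by
    rw [hD]
    exact Subgroup.mem_zpowers s
  have hp2 : a₂⁻¹ * (t⁻¹ * s * t) * a₂ ∈ P := hd2 s hsD
  refine ⟨?_, bot_le, fun d hd => by
    rw [Subgroup.mem_bot.1 hd]
    simp, ?_⟩
  · symm
    rw [eq_top_iff, hn.sup]
    have ht : t * a₂ ∈ P ⊔ Subgroup.zpowers (t * a₂) :=
      Subgroup.mem_sup_right (Subgroup.mem_zpowers _)
    have hA : A ≤ P ⊔ Subgroup.zpowers (t * a₂) := by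
      rw [ha.sup]
      refine sup_le le_sup_left (Subgroup.zpowers_le.2 ?_)
      have e : s = (t * a₂) * (a₂⁻¹ * (t⁻¹ * s * t) * a₂) * (t * a₂)⁻¹ := by group
      rw [e]
      exact Subgroup.mul_mem _ (Subgroup.mul_mem _ ht (Subgroup.mem_sup_left hp2))
        (Subgroup.inv_mem _ ht)
    refine sup_le hA (Subgroup.zpowers_le.2 ?_)
    have e : (t * a₂) * a₂⁻¹ = t := by group
    have h3 := Subgroup.mul_mem _ ht (Subgroup.inv_mem _ (hA h2))
    rwa [e] at h3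
  · intro R _ _ r τ hr _
    obtain ⟨qA, g1, g2, g3⟩ := ha.ext R r (τ * r (a₂⁻¹ * (t⁻¹ * s * t) * a₂) * τ⁻¹) hr
      (fun d hd => by
      rw [Subgroup.mem_bot.1 hd]
      simp [al_one hr])
    obtain ⟨q, k1, k2, k3⟩ := hn.ext R qA (τ * (qA a₂)⁻¹) g1 (fun d hd => by
      have m2 := hd2 d hd
      have e2 : t⁻¹ * d * t = a₂ * (a₂⁻¹ * (t⁻¹ * d * t) * a₂) * a₂⁻¹ := by group
      have f2 : qA (t⁻¹ * d * t) =
          qA a₂ * r (a₂⁻¹ * (t⁻¹ * d * t) * a₂) * (qA a₂)⁻¹ := by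
        conv_lhs => rw [e2]
        rw [al_conj g1 h2 (hPA m2), g2 _ m2]
      rw [f2]
      rw [hD] at hd
      obtain ⟨k, rfl⟩ := Subgroup.mem_zpowers_iff.1 hd
      have e3 : a₂⁻¹ * (t⁻¹ * s ^ k * t) * a₂ = (a₂⁻¹ * (t⁻¹ * s * t) * a₂) ^ k := by
        have e4 : a₂⁻¹ * (t⁻¹ * s * t) * a₂ = (t * a₂)⁻¹ * s * ((t * a₂)⁻¹)⁻¹ := by group
        have e5 : a₂⁻¹ * (t⁻¹ * s ^ k * t) * a₂ = (t * a₂)⁻¹ * s ^ k * ((t * a₂)⁻¹)⁻¹ := by
          rw [inv_inv, _root_.mul_inv_rev]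
          simp only [mul_assoc]
        rw [e4, e5, conj_zpow]
      rw [e3, al_zpow hr hp2, al_zpow g1 hsA, g3, conj_zpow]
      group)
    refine ⟨q, k1, fun x hx => by rw [k2 x (hPA hx), g2 x hx], ?_⟩
    rw [k1 t (Subgroup.mem_top _) a₂ (Subgroup.mem_top _), k3, k2 a₂ h2]
    group

end Pool.Agent.SuT
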