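import Pool.Agent.Lib.MP_305fdd_al.Su.Tr.Set

/-!
# MP_305fdd_al, surface groups, TREES block: equivariant choices, homomorphisms to `ℤ/2`
-/

set_option autoImplicit false

namespace Pool.Agent.SuT

open Pool.Agent.SuUp Pool.Agent.FrT

section

variable {G : Type} [Group G] {V V' : Type} [MulAction G V] [MulAction G V'] {X : SimpleGraph V}

/-- equivariant choice of attaching points -/
theorem exists_phi [Nonempty V'] (hT : TA G X)
    (hf : ∀ x y : V, X.Adj x y → ∃ p : V', ∀ g ∈ ES G x y, g • p = p) :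
    ∃ φ : V → V → V', ∀ (g : G) (x y : V), X.Adj x y → φ (g • x) (g • y) = g • φ x y := by
  classical
  have hP : ∀ s : V × V, ∃ p : V', X.Adj s.1 s.2 → ∀ g ∈ ES G s.1 s.2, g • p = p := by
    intro s
    by_cases h : X.Adj s.1 s.2
    · obtain ⟨p, hp⟩ := hf _ _ h
      exact ⟨p, fun _ => hp⟩
    · exact ⟨Classical.arbitrary V', fun h' => absurd h' h⟩
  choose P hP using hP
  let rep : V × V → V × V := fun s => (Quotient.mk (MulAction.orbitRel G (V × V)) s).out
  have hrep : ∀ s, ∃ g : G, g • rep s = s := by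
    intro s
    have h1 : (MulAction.orbitRel G (V × V)).r (rep s) s := Quotient.mk_out s
    have h2 : rep s ∈ MulAction.orbit G s := h1
    obtain ⟨g, hg⟩ := h2
    refine ⟨g⁻¹, ?_⟩
    rw [inv_smul_eq_iff]
    exact hg.symm
  choose γ hγ using hrep
  have hrep' : ∀ (g : G) s, rep (g • s) = rep s := by
    intro g s
    have : (Quotient.mk (MulAction.orbitRel G (V × V)) (g • s)) =
        Quotient.mk (MulAction.orbitRel G (V × V)) s := by
      apply Quotient.sound
      exact ⟨g, rfl⟩
    show (Quotient.mk (MulAction.orbitRel G (V × V)) (g • s)).out = _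
    rw [this]
  refine ⟨fun x y => γ (x, y) • P (rep (x, y)), ?_⟩
  intro g x y hxy
  have hr : rep (g • x, g • y) = rep (x, y) := hrep' g (x, y)
  have h1 : γ (g • x, g • y) • rep (x, y) = (g • x, g • y) := by
    rw [← hr]; exact hγ _
  have h2 : γ (x, y) • rep (x, y) = (x, y) := hγ _
  have hadj : X.Adj (rep (x, y)).1 (rep (x, y)).2 := by
    have h3 := hT.act (γ (x, y))⁻¹ _ _ hxy
    have h4 : (γ (x, y))⁻¹ • (x, y) = rep (x, y) := by
      rw [inv_smul_eq_iff]
      exact h2.symm
    rw [← h4]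
    exact h3
  have hst : (γ (x, y))⁻¹ * g⁻¹ * γ (g • x, g • y) ∈ ES G (rep (x, y)).1 (rep (x, y)).2 := by
    have h5 : ((γ (x, y))⁻¹ * g⁻¹ * γ (g • x, g • y)) • rep (x, y) = rep (x, y) := by
      rw [mul_smul, h1, mul_smul]
      have h6 : g⁻¹ • ((g • x, g • y) : V × V) = (x, y) := by
        rw [inv_smul_eq_iff]
        rfl
      rw [h6, inv_smul_eq_iff]
      exact h2.symm
    rw [mem_ES]
    exact ⟨congrArg Prod.fst h5, congrArg Prod.snd h5⟩
  have h7 := hP (rep (x, y)) hadj _ hst
  show γ (g • x, g • y) • P (rep (g • x, g • y)) = g • γ (x, y) • P (rep (x, y))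
  rw [hr]
  have h8 : γ (g • x, g • y) = g * γ (x, y) * ((γ (x, y))⁻¹ * g⁻¹ * γ (g • x, g • y)) := by group
  rw [h8, mul_smul, h7, mul_smul]

open Classical in
/-- `θ` counts the crossings of the orbit of the edge `x y` modulo `2` -/
def IsTh (X : SimpleGraph V) (x y : V) (θ : G →* Multiplicative (ZMod 2)) : Prop :=
  ∃ P : V → ZMod 2, (∀ a b, X.Adj a b → P b = P a + if s(a, b) ∈ Orb G x y then 1 else 0) ∧
    ∀ (g : G) (a : V), P (g • a) = P a + Multiplicative.toAdd (θ g)

theorem mem_Orb_smul {x y a b : V} (g : G) :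
    s(g • a, g • b) ∈ Orb G x y ↔ s(a, b) ∈ Orb G x y := by
  constructor
  · rintro ⟨k, hk⟩
    refine ⟨g⁻¹ * k, ?_⟩
    rw [mul_smul, mul_smul]
    have := congrArg (Sym2.map (fun x => g⁻¹ • x)) hk
    simpa using this
  · rintro ⟨k, hk⟩
    refine ⟨g * k, ?_⟩
    rw [mul_smul, mul_smul]
    have := congrArg (Sym2.map (fun x => g • x)) hk
    simpa using this

theorem exists_th (hT : TA G X) (x y : V) : ∃ θ : G →* Multiplicative (ZMod 2), IsTh X x y θ := by
  classical
  obtain ⟨Q, hQ⟩ := potG (F := Multiplicative (ZMod 2)) hT.tree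
    (fun a b => Multiplicative.ofAdd (if s(a, b) ∈ Orb G x y then 1 else 0)) (by
      intro a b _
      have h1 : s(b, a) = s(a, b) := Sym2.eq_swap
      rw [h1, ← ofAdd_neg]
      congr 1
      split_ifs
      · decide
      · simp)
  let P : V → ZMod 2 := fun a => Multiplicative.toAdd (Q a)
  have hP : ∀ a b, X.Adj a b → P b = P a + if s(a, b) ∈ Orb G x y then 1 else 0 := by
    intro a b hab
    show Multiplicative.toAdd (Q b) = _
    rw [hQ a b hab]
    rfl
  have hc : ∀ (g : G) (a b : V), P (g • a) - P a = P (g • b) - P b := by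
    intro g a b
    obtain ⟨w⟩ := hT.tree.connected.preconnected a b
    induction w with
    | nil => rfl
    | @cons a b c hab w ih =>
      rw [← ih, hP a b hab, hP _ _ (hT.act g _ _ hab)]
      by_cases h : s(a, b) ∈ Orb G x y
      · rw [if_pos h, if_pos ((mem_Orb_smul g).2 h)]
        ring
      · rw [if_neg h, if_neg (fun h' => h ((mem_Orb_smul g).1 h'))]
        ring
  obtain ⟨v0⟩ := hT.tree.connected.nonempty
  let θ : G →* Multiplicative (ZMod 2) :=
    { toFun := fun g => Multiplicative.ofAdd (P (g • v0) - P v0)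
      map_one' := by
        rw [one_smul, sub_self]
        rfl
      map_mul' := by
        intro g h
        rw [← ofAdd_add]
        congr 1
        have h1 := hc g (h • v0) v0
        rw [mul_smul]
        rw [← h1]
        ring }
  refine ⟨θ, P, hP, ?_⟩
  intro g a
  have h1 := hc g a v0
  show P (g • a) = P a + (P (g • v0) - P v0)
  rw [← h1]
  ring

end

end Pool.Agent.SuT
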