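import Pool.Agent.Lib.MP_305fdd_al.Su.Tr.ColHT
import Pool.Agent.Lib.MP_305fdd_al.Su.Tr.Phi

/-!
# MP_305fdd_al, surface groups, TREES block: refinement of a splitting
-/

set_option autoImplicit false

namespace Pool.Agent.SuT

open Matrix Polynomial Pool.Agent.SuUp Pool.Agent.FrS Pool.Agent.FrT

section

variable {G : Type} [Group G] {V V' : Type} [MulAction G V] [MulAction G V'] {X : SimpleGraph V}
  {X' : SimpleGraph V'}

/-- The data of the vertex group `A` at `v₀` acting on the collapsed tree. -/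
structure AD (X' : SimpleGraph V') (A : Subgroup G) (y₁ y₂ : V') (WA : Type) [MulAction A WA]
    (YA : SimpleGraph WA) (κA : V' → WA) : Prop where
  ta : TA A YA
  adj : YA.Adj (κA y₁) (κA y₂)
  oe : OE A YA (κA y₁) (κA y₂)
  surj : ∀ w, ∃ x, κA x = w
  map : ∀ (a : A) x, κA ((a : G) • x) = a • κA x
  rch : ∀ x y, κA x = κA y ↔ Rch A X' y₁ y₂ x y
  es : ES A (κA y₁) (κA y₂) = ES A y₁ y₂
  n1 : ∃ a : A, a • κA y₁ ≠ κA y₁
  n2 : ∃ a : A, a • κA y₂ ≠ κA y₂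

theorem exists_AD (hCOL : S_COL) (hT : TA G X') (A : Subgroup G) {y₁ y₂ : V'}
    (hadj : X'.Adj y₁ y₂) (hess : Ess X' A y₁ y₂) :
    ∃ (WA : Type) (_ : MulAction A WA) (YA : SimpleGraph WA) (κA : V' → WA),
      AD X' A y₁ y₂ WA YA κA := by
  obtain ⟨W, iW, Y, κ, hTA, hsurj, hmap, hrch, hAdj, hHf, hES⟩ :=
    hCOL A V' X' y₁ y₂ (TA.sub hT A) hadj
  have hmap' : ∀ (a : A) x, κ ((a : G) • x) = a • κ x := fun a x => hmap a x
  have hYadj : Y.Adj (κ y₁) (κ y₂) := (hAdj _ _).2 ⟨1, Or.inl ⟨one_smul _ _, one_smul _ _⟩⟩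
  refine ⟨W, iW, Y, κ, hTA, hYadj, fun w w' hww => (hAdj w w').1 hww, hsurj, hmap', hrch, hES,
    ?_, ?_⟩
  · obtain ⟨⟨a, ha, h1⟩, _⟩ := hess y₁
    refine ⟨⟨a, ha⟩, fun he => ?_⟩
    rw [← hHf] at h1
    have h2 : κ (a • y₁) = (⟨a, ha⟩ : A) • κ y₁ := hmap' ⟨a, ha⟩ y₁
    rw [h2, he] at h1
    exact left_not_mem_Hf h1
  · obtain ⟨_, ⟨a, ha, h1⟩⟩ := hess y₂
    refine ⟨⟨a, ha⟩, fun he => ?_⟩
    rw [← hHf] at h1
    have h2 : κ (a • y₂) = (⟨a, ha⟩ : A) • κ y₂ := hmap' ⟨a, ha⟩ y₂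
    rw [h2, he] at h1
    exact h1 (right_mem_Hf hTA.tree hYadj)

section AD

variable {A : Subgroup G} {y₁ y₂ : V'} {WA : Type} [MulAction A WA] {YA : SimpleGraph WA}
  {κA : V' → WA}

theorem AD.map_es (hA : AD X' A y₁ y₂ WA YA κA) :
    (ES A (κA y₁) (κA y₂)).map A.subtype = A ⊓ ES G y₁ y₂ := by
  rw [hA.es]
  ext g
  constructor
  · rintro ⟨a, ha, rfl⟩
    have ha' := mem_ES.1 ha
    exact ⟨a.2, mem_ES.2 ha'⟩
  · rintro ⟨hg, hg'⟩
    exact ⟨⟨g, hg⟩, mem_ES.2 (mem_ES.1 hg'), rfl⟩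

theorem AD.isHn (hA : AD X' A y₁ y₂ WA YA κA) {s : A} (hs : s • κA y₁ = κA y₂) :
    IsHn A (St A (κA y₁)) (A ⊓ ES G y₁ y₂) (s : G) := by
  have := isHn_sub hA.ta hA.adj hA.oe s hs
  rwa [hA.map_es] at this

theorem AD.isAm (hA : AD X' A y₁ y₂ WA YA κA) (hs : ∀ s : A, s • κA y₁ ≠ κA y₂) :
    IsAm A (St A (κA y₁)) (St A (κA y₂)) (A ⊓ ES G y₁ y₂) := by
  have := isAm_sub hA.ta hA.adj hA.oe hs
  rwa [hA.map_es] at this

theorem AD.st1_ne (hA : AD X' A y₁ y₂ WA YA κA) : St A (κA y₁) ≠ A := by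
  intro h
  obtain ⟨a, ha⟩ := hA.n1
  apply ha
  rw [← mem_St, h]
  exact a.2

theorem AD.st2_ne (hA : AD X' A y₁ y₂ WA YA κA) : St A (κA y₂) ≠ A := by
  intro h
  obtain ⟨a, ha⟩ := hA.n2
  apply ha
  rw [← mem_St, h]
  exact a.2

/-- the vertex groups are finitely generated -/
theorem AD.fg (hA : AD X' A y₁ y₂ WA YA κA) (hfg : A.FG) (hD : (ES A (κA y₁) (κA y₂)).FG) :
    (St A (κA y₁)).FG ∧ (St A (κA y₂)).FG := by
  haveI : Group.FG A := (Group.fg_iff_subgroup_fg A).2 hfg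
  by_cases hs : ∃ s : A, s • κA y₁ = κA y₂
  · obtain ⟨s, hs⟩ := hs
    have h2 := FrV.fg_hn hA.ta.act FrR.p_fgH hA.ta.tree (fun g => hA.ta.noinv g _ _ hA.adj) hA.adj s
      (hA.oe.rch.2 hs) hD
    rw [hA.oe.sst] at h2
    refine ⟨fg_map' h2 _, ?_⟩
    rw [St, ← hs, stab_smul]
    exact fg_map' (fg_map' h2 _) _
  · push Not at hs
    have h2 := FrV.fg_am hA.ta.act FrR.p_fgA hA.ta.tree (fun g => hA.ta.noinv g _ _ hA.adj) hA.adj
      (fun g hg => hs g (hA.oe.rch.1 hg)) hD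
    rw [hA.oe.sst, hA.oe.sst] at h2
    exact ⟨fg_map' h2.1 _, fg_map' h2.2 _⟩

/-- the edge group is contained in both vertex groups -/
theorem AD.le (hA : AD X' A y₁ y₂ WA YA κA) :
    A ⊓ ES G y₁ y₂ ≤ St A (κA y₁) ∧ A ⊓ ES G y₁ y₂ ≤ St A (κA y₂) := by
  constructor
  · rintro g ⟨hg, hg'⟩
    have h1 := (mem_ES.1 (show g ∈ ES G y₁ y₂ from hg')).1
    have : ((⟨g, hg⟩ : A) : G) ∈ St A (κA y₁) := by
      rw [mem_St, ← hA.map]
      exact congrArg κA h1
    exact this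
  · rintro g ⟨hg, hg'⟩
    have h1 := (mem_ES.1 (show g ∈ ES G y₁ y₂ from hg')).2
    have : ((⟨g, hg⟩ : A) : G) ∈ St A (κA y₂) := by
      rw [mem_St, ← hA.map]
      exact congrArg κA h1
    exact this

private theorem st_eq {P D : Subgroup G} (hD : MC D) (hle : D ≤ P)
    (hc : ∀ a ∈ P, ∀ b ∈ P, a * b = b * a) : P ≤ D := by
  obtain ⟨⟨z, hz, hDz⟩, hm⟩ := hD
  have hzD : z ∈ D := by rw [hDz]; exact Subgroup.mem_zpowers z
  have hz1 : z ≠ 1 := by
    intro h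
    apply hz 1 one_pos
    rw [h, one_pow]
  intro c hcP
  apply hm z hzD hz1 c
  rw [hc c hcP z (hle hzD), mul_inv_cancel_right]
  exact hzD

/-- the vertex groups are not abelian -/
theorem AD.na (hA : AD X' A y₁ y₂ WA YA κA) (hD : MC (A ⊓ ES G y₁ y₂))
    (hna : ∃ a ∈ A, ∃ b ∈ A, a * b ≠ b * a) :
    (∃ a ∈ St A (κA y₁), ∃ b ∈ St A (κA y₁), a * b ≠ b * a) ∧
    (∃ a ∈ St A (κA y₂), ∃ b ∈ St A (κA y₂), a * b ≠ b * a) := by
  by_cases hs : ∃ s : A, s • κA y₁ = κA y₂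
  · obtain ⟨s, hs⟩ := hs
    have hHn := hA.isHn hs
    have h1 : ∃ a ∈ St A (κA y₁), ∃ b ∈ St A (κA y₁), a * b ≠ b * a := by
      by_contra hcon
      push Not at hcon
      have hle := st_eq hD hA.le.1 hcon
      have heq : St A (κA y₁) = A ⊓ ES G y₁ y₂ := le_antisymm hle hA.le.1
      obtain ⟨⟨z, hz, hDz⟩, hm⟩ := hD
      have hzD : z ∈ A ⊓ ES G y₁ y₂ := by rw [hDz]; exact Subgroup.mem_zpowers z
      have hz1 : z ≠ 1 := by
        intro h
        apply hz 1 one_pos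
        rw [h, one_pow]
      have h2 := hHn.le' z hzD
      rw [heq] at h2
      have h3 := hm z hzD hz1 (s : G)⁻¹ (by rw [inv_inv]; exact h2)
      have h4 : (s : G) ∈ A ⊓ ES G y₁ y₂ := by
        have := (A ⊓ ES G y₁ y₂).inv_mem h3
        rwa [inv_inv] at this
      have h5 : A ≤ A ⊓ ES G y₁ y₂ := by
        conv_lhs => rw [hHn.sup]
        rw [sup_le_iff]
        refine ⟨hle, ?_⟩
        rw [Subgroup.zpowers_le]
        exact h4
      obtain ⟨a, ha, b, hb, hne⟩ := hna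
      have ha' := h5 ha
      have hb' := h5 hb
      rw [hDz] at ha' hb'
      obtain ⟨m, rfl⟩ := ha'
      obtain ⟨n, rfl⟩ := hb'
      apply hne
      simp only
      rw [← _root_.zpow_add, ← _root_.zpow_add, add_comm]
    refine ⟨h1, ?_⟩
    obtain ⟨a, ha, b, hb, hne⟩ := h1
    obtain ⟨a', ha', rfl⟩ := ha
    obtain ⟨b', hb', rfl⟩ := hb
    have key : ∀ c : A, c • κA y₁ = κA y₁ → ((s * c * s⁻¹ : A) : G) ∈ St A (κA y₂) := by
      intro c hc
      rw [mem_St, ← hs, mul_smul, mul_smul, inv_smul_smul, hc]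
    refine ⟨_, key a' ha', _, key b' hb', ?_⟩
    intro he
    apply hne
    have e1 : ((s * a' * s⁻¹ : A) : G) * ((s * b' * s⁻¹ : A) : G) =
        (s : G) * ((a' : G) * (b' : G)) * (s : G)⁻¹ := by
      simp only [Subgroup.coe_mul, InvMemClass.coe_inv]
      group
    have e2 : ((s * b' * s⁻¹ : A) : G) * ((s * a' * s⁻¹ : A) : G) =
        (s : G) * ((b' : G) * (a' : G)) * (s : G)⁻¹ := by
      simp only [Subgroup.coe_mul, InvMemClass.coe_inv]
      group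
    rw [e1, e2] at he
    exact mul_left_cancel (mul_right_cancel he)
  · push Not at hs
    have hAm := hA.isAm hs
    constructor
    · by_contra hcon
      push Not at hcon
      have hle := st_eq hD hA.le.1 hcon
      have h5 := hAm.sup
      rw [sup_eq_right.2 (hle.trans hA.le.2)] at h5
      exact hA.st2_ne h5.symm
    · by_contra hcon
      push Not at hcon
      have hle := st_eq hD hA.le.2 hcon
      have h5 := hAm.sup
      rw [sup_eq_left.2 (hle.trans hA.le.1)] at h5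
      exact hA.st1_ne h5.symm

end AD

/-- an element which fixes two vertices fixes the first edge between them -/
theorem fix_first (hT : TA G X) {d : G} {a b c : V} (ha : d • a = a) (hb : d • b = b)
    (hac : X.Adj a c) (hbc : b ∈ Hf X a c) : d • c = c := by
  have h1 : X.Adj a (d • c) := by
    have := hT.act d _ _ hac
    rwa [ha] at this
  have h2 : b ∈ Hf X a (d • c) := by
    have := (smul_mem_Hf hT.act hT.tree d (u := a) (v := c) (x := b)).2 hbc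
    rwa [ha, hb] at this
  exact first_unique hT.tree h1 hac h2 hbc

/-- an edge group which meets a vertex group nontrivially is contained in it -/
theorem Spl.es_le (h : Spl G X) {v : V} {E : Subgroup G} (hE : MC E) {d : G} (hdE : d ∈ E)
    (hd : d ≠ 1) (hdv : d • v = v) : ∀ g ∈ E, g • v = v := by
  intro g hg
  by_contra hne
  have hcomm : g * d = d * g := by
    obtain ⟨⟨z, _, rfl⟩, _⟩ := hE
    obtain ⟨m, rfl⟩ := hdE
    obtain ⟨n, rfl⟩ := hg
    simp only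
    rw [← _root_.zpow_add, ← _root_.zpow_add, add_comm]
  obtain ⟨c, hc, hgc⟩ := first_edge h.tree (fun e => hne e.symm : v ≠ g • v)
  have h1 : d • g • v = g • v := by
    rw [← mul_smul, ← hcomm, mul_smul, hdv]
  have h2 := fix_first h.toTA hdv h1 hc hgc
  have h3 : d ∈ ES G v c := mem_ES.2 ⟨hdv, h2⟩
  have h4 := (h.mc v c hc).2 d h3 hd g (by rw [hcomm, mul_inv_cancel_right]; exact h3)
  exact hne (mem_ES.1 h4).1

end

end Pool.Agent.SuT
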