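import Pool.Agent.Lib.MP_305fdd_al.Su.Tr.Ref

/-!
# MP_305fdd_al, surface groups, TREES block: the refined splitting
-/

set_option autoImplicit false

namespace Pool.Agent.SuT

open Matrix Polynomial Pool.Agent.SuUp Pool.Agent.FrS Pool.Agent.FrT

section

variable {G : Type} [Group G] {V V' : Type} [MulAction G V] [MulAction G V'] {X : SimpleGraph V}
  {X' : SimpleGraph V'}

/-- The blown up tree. -/
structure BU (X : SimpleGraph V) (X' : SimpleGraph V') (φ : V → V → V') (v₀ : V) (y₁ y₂ : V')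
    (W : Type) [MulAction G W] (Y : SimpleGraph W) (κ : V → V' → W) (p : W → V) : Prop where
  ta : TA G Y
  surj : ∀ w, ∃ v y, κ v y = w
  pk : ∀ v y, p (κ v y) = v
  map : ∀ (g : G) v y, κ (g • v) (g • y) = g • κ v y
  pmap : ∀ (g : G) w, p (g • w) = g • p w
  rch : ∀ y y', κ v₀ y = κ v₀ y' ↔ Rch (MulAction.stabilizer G v₀) X' y₁ y₂ y y'
  adj : ∀ w w', Y.Adj w w' ↔
        (∃ x y, X.Adj x y ∧ κ x (φ x y) = w ∧ κ y (φ y x) = w') ∨
        (∃ g : G, (g • κ v₀ y₁ = w ∧ g • κ v₀ y₂ = w') ∨ (g • κ v₀ y₁ = w' ∧ g • κ v₀ y₂ = w))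

variable {φ : V → V → V'} {v₀ : V} {y₁ y₂ : V'} {W : Type} [MulAction G W] {Y : SimpleGraph W}
  {κ : V → V' → W} {p : W → V} {WA : Type} [MulAction (MulAction.stabilizer G v₀) WA]
  {YA : SimpleGraph WA} {κA : V' → WA}

theorem BU.c1 (hB : BU (G := G) X X' φ v₀ y₁ y₂ W Y κ p)
    (hA : AD X' (MulAction.stabilizer G v₀) y₁ y₂ WA YA κA) (y y' : V') :
    κ v₀ y = κ v₀ y' ↔ κA y = κA y' := by
  rw [hB.rch, hA.rch]

theorem BU.c3 (hB : BU (G := G) X X' φ v₀ y₁ y₂ W Y κ p) (a : MulAction.stabilizer G v₀) (y : V') :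
    κ v₀ ((a : G) • y) = (a : G) • κ v₀ y := by
  rw [← hB.map, MulAction.mem_stabilizer_iff.1 a.2]

theorem BU.c2 (hB : BU (G := G) X X' φ v₀ y₁ y₂ W Y κ p)
    (hA : AD X' (MulAction.stabilizer G v₀) y₁ y₂ WA YA κA) {g : G} {y y' : V'}
    (h : g • κ v₀ y = κ v₀ y') :
    ∃ hg : g ∈ MulAction.stabilizer G v₀, (⟨g, hg⟩ : MulAction.stabilizer G v₀) • κA y = κA y' := by
  have h1 := congrArg p h
  rw [hB.pmap, hB.pk, hB.pk] at h1
  refine ⟨h1, ?_⟩
  rw [← hA.map, ← hB.c1 hA]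
  have h2 := hB.c3 (⟨g, h1⟩ : MulAction.stabilizer G v₀) y
  exact h2.trans h

theorem BU.stab (hB : BU (G := G) X X' φ v₀ y₁ y₂ W Y κ p)
    (hA : AD X' (MulAction.stabilizer G v₀) y₁ y₂ WA YA κA) (y : V') :
    MulAction.stabilizer G (κ v₀ y) = St (MulAction.stabilizer G v₀) (κA y) := by
  ext g
  constructor
  · intro hg
    obtain ⟨h1, h2⟩ := hB.c2 hA (MulAction.mem_stabilizer_iff.1 hg)
    exact ⟨⟨g, h1⟩, h2, rfl⟩
  · rintro ⟨a, ha, rfl⟩
    have ha' : a • κA y = κA y := ha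
    show (a : G) • κ v₀ y = κ v₀ y
    rw [← hB.c3, hB.c1 hA, hA.map, ha']

theorem BU.es (hB : BU (G := G) X X' φ v₀ y₁ y₂ W Y κ p)
    (hA : AD X' (MulAction.stabilizer G v₀) y₁ y₂ WA YA κA) :
    ES G (κ v₀ y₁) (κ v₀ y₂) = MulAction.stabilizer G v₀ ⊓ ES G y₁ y₂ := by
  rw [← hA.map_es]
  ext g
  constructor
  · intro hg
    rw [mem_ES] at hg
    obtain ⟨h1, h2⟩ := hB.c2 hA hg.1
    obtain ⟨h1', h2'⟩ := hB.c2 hA hg.2
    exact ⟨⟨g, h1⟩, mem_ES.2 ⟨h2, h2'⟩, rfl⟩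
  · rintro ⟨a, ha, rfl⟩
    have ha' := mem_ES.1 ha
    rw [mem_ES]
    constructor
    · show (a : G) • κ v₀ y₁ = κ v₀ y₁
      rw [← hB.c3, hB.c1 hA, hA.map, ha'.1]
    · show (a : G) • κ v₀ y₂ = κ v₀ y₂
      rw [← hB.c3, hB.c1 hA, hA.map, ha'.2]

theorem BU.es_old (hB : BU (G := G) X X' φ v₀ y₁ y₂ W Y κ p)
    (hφ : ∀ (g : G) (x y : V), X.Adj x y → φ (g • x) (g • y) = g • φ x y) {x y : V}
    (hxy : X.Adj x y) : ES G (κ x (φ x y)) (κ y (φ y x)) = ES G x y := by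
  ext g
  constructor
  · intro hg
    rw [mem_ES] at hg
    have h1 := congrArg p hg.1
    have h2 := congrArg p hg.2
    rw [hB.pmap, hB.pk] at h1 h2
    exact mem_ES.2 ⟨h1, h2⟩
  · intro hg
    rw [mem_ES] at hg
    have h1 := hφ g x y hxy
    have h2 := hφ g y x hxy.symm
    rw [hg.1, hg.2] at h1 h2
    rw [mem_ES]
    constructor
    · rw [← hB.map, hg.1, ← h1]
    · rw [← hB.map, hg.2, ← h2]

theorem BU.adj₀ (hB : BU (G := G) X X' φ v₀ y₁ y₂ W Y κ p) : Y.Adj (κ v₀ y₁) (κ v₀ y₂) :=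
  (hB.adj _ _).2 (Or.inr ⟨1, Or.inl ⟨one_smul _ _, one_smul _ _⟩⟩)

/-- every vertex is a translate of one of the two base vertices -/
theorem BU.vert (hB : BU (G := G) X X' φ v₀ y₁ y₂ W Y κ p)
    (hA : AD X' (MulAction.stabilizer G v₀) y₁ y₂ WA YA κA)
    (h1 : ∀ x y : V, ∃ g : G, g • x = y) (w : W) :
    ∃ g : G, g • κ v₀ y₁ = w ∨ g • κ v₀ y₂ = w := by
  obtain ⟨v, y, rfl⟩ := hB.surj w
  obtain ⟨g, rfl⟩ := h1 v₀ v
  have e : κ (g • v₀) y = g • κ v₀ (g⁻¹ • y) := by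
    rw [← hB.map, smul_inv_smul]
  obtain ⟨a, ha | ha⟩ := hA.oe.vert hA.ta hA.adj (κA (g⁻¹ • y))
  · refine ⟨g * a, Or.inl ?_⟩
    rw [← hA.map, ← hB.c1 hA, hB.c3] at ha
    rw [mul_smul, ha, e]
  · refine ⟨g * a, Or.inr ?_⟩
    rw [← hA.map, ← hB.c1 hA, hB.c3] at ha
    rw [mul_smul, ha, e]

/-- the new edge group is not trivial -/
theorem BU.ne_bot (hFI : FI G) (hB : BU (G := G) X X' φ v₀ y₁ y₂ W Y κ p)
    (hA : AD X' (MulAction.stabilizer G v₀) y₁ y₂ WA YA κA) :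
    MulAction.stabilizer G v₀ ⊓ ES G y₁ y₂ ≠ ⊥ := by
  intro hbot
  have hes := hB.es hA
  rw [hbot] at hes
  have hHn : ∀ t : G, Rch G Y (κ v₀ y₁) (κ v₀ y₂) (t • κ v₀ y₁) (κ v₀ y₂) → False := by
    intro t ht
    have h1 := FrV.isHn hB.ta.act (MonoidHom.id G) (fac_of_inj _ Function.injective_id) hB.ta.tree
      (fun g => hB.ta.noinv g _ _ hB.adj₀) hB.adj₀ t ht
    have h2 : (MonoidHom.id G).range = ⊤ := MonoidHom.range_eq_top.2 Function.surjective_id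
    rw [h2, SC_eq, Subgroup.map_id, Subgroup.map_id, hes] at h1
    exact hFI.2 ⟨_, _, h1⟩
  by_cases hs : ∃ s : MulAction.stabilizer G v₀, s • κA y₁ = κA y₂
  · obtain ⟨s, hs⟩ := hs
    apply hHn (s : G)
    have h1 : (s : G) • κ v₀ y₁ = κ v₀ y₂ := by
      rw [← hB.c3, hB.c1 hA, hA.map, hs]
    rw [h1]
    exact Rch.refl _ _ _ _
  · push Not at hs
    have hAm := hA.isAm hs
    rw [hbot] at hAm
    have hP : St (MulAction.stabilizer G v₀) (κA y₁) ≠ ⊥ := by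
      intro h
      have h5 := hAm.sup
      rw [h, bot_sup_eq] at h5
      exact hA.st2_ne h5.symm
    have hQ : St (MulAction.stabilizer G v₀) (κA y₂) ≠ ⊥ := by
      intro h
      have h5 := hAm.sup
      rw [h, sup_bot_eq] at h5
      exact hA.st1_ne h5.symm
    have h1 := FrV.isAm hB.ta.act (MonoidHom.id G) (fac_of_inj _ Function.injective_id) hB.ta.tree
      (fun g => hB.ta.noinv g _ _ hB.adj₀) hB.adj₀ (fun g hg => hHn g hg)
    have h2 : (MonoidHom.id G).range = ⊤ := MonoidHom.range_eq_top.2 Function.surjective_id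
    rw [h2, SC_eq, Subgroup.map_id, Subgroup.map_id, Subgroup.map_id, hes] at h1
    refine hFI.1 ⟨_, _, h1, ?_, ?_⟩
    · intro h
      apply hP
      rw [eq_bot_iff, ← h, ← hB.stab hA]
      intro g hg
      rw [mem_Sst, MulAction.mem_stabilizer_iff.1 hg]
      exact Rch.refl _ _ _ _
    · intro h
      apply hQ
      rw [eq_bot_iff, ← h, ← hB.stab hA]
      intro g hg
      rw [mem_Sst, MulAction.mem_stabilizer_iff.1 hg]
      exact Rch.refl _ _ _ _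

/-- the new edge group is the edge group of `X'` -/
theorem BU.mc (hFI : FI G) (h : Spl G X) (h' : MC (ES G y₁ y₂))
    (hB : BU (G := G) X X' φ v₀ y₁ y₂ W Y κ p)
    (hA : AD X' (MulAction.stabilizer G v₀) y₁ y₂ WA YA κA) :
    MC (MulAction.stabilizer G v₀ ⊓ ES G y₁ y₂) := by
  have hne := hB.ne_bot hFI hA
  obtain ⟨d, hd, hd1⟩ : ∃ d : G, d ∈ MulAction.stabilizer G v₀ ⊓ ES G y₁ y₂ ∧ d ≠ 1 := by
    by_contra hcon
    push Not at hcon
    exact hne (eq_bot_iff.2 fun d hd => Subgroup.mem_bot.2 (hcon d hd))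
  have h1 := h.es_le h' hd.2 hd1 (MulAction.mem_stabilizer_iff.1 hd.1)
  have h2 : MulAction.stabilizer G v₀ ⊓ ES G y₁ y₂ = ES G y₁ y₂ :=
    inf_eq_right.2 (fun g hg => h1 g hg)
  rw [h2]
  exact h'

/-- the blown up tree is a splitting -/
theorem BU.spl (hFI : FI G) (h : Spl G X) (h1 : ∀ x y : V, ∃ g : G, g • x = y)
    (h' : MC (ES G y₁ y₂))
    (hφ : ∀ (g : G) (x y : V), X.Adj x y → φ (g • x) (g • y) = g • φ x y)
    (hB : BU (G := G) X X' φ v₀ y₁ y₂ W Y κ p)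
    (hA : AD X' (MulAction.stabilizer G v₀) y₁ y₂ WA YA κA) : Spl G Y := by
  have hmc := hB.mc hFI h h' hA
  refine { toTA := hB.ta, mc := ?_, fg := ?_, na := ?_ }
  · intro w w' hww
    rcases (hB.adj w w').1 hww with ⟨x, y, hxy, rfl, rfl⟩ | ⟨g, ⟨rfl, rfl⟩ | ⟨rfl, rfl⟩⟩
    · rw [hB.es_old hφ hxy]
      exact h.mc x y hxy
    · rw [ES_smul, hB.es hA]
      exact hmc.conj g
    · rw [ES_symm, ES_smul, hB.es hA]
      exact hmc.conj g
  · have hDA : (ES (MulAction.stabilizer G v₀) (κA y₁) (κA y₂)).FG := by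
      obtain ⟨⟨z, _, hz⟩, _⟩ := hmc
      have hzD : z ∈ MulAction.stabilizer G v₀ ⊓ ES G y₁ y₂ := by
        rw [hz]; exact Subgroup.mem_zpowers z
      have e : ES (MulAction.stabilizer G v₀) (κA y₁) (κA y₂) =
          Subgroup.zpowers (⟨z, hzD.1⟩ : MulAction.stabilizer G v₀) := by
        apply Subgroup.map_injective (MulAction.stabilizer G v₀).subtype_injective
        rw [hA.map_es, hz, MonoidHom.map_zpowers]
        rfl
      rw [e]
      exact ⟨{⟨z, hzD.1⟩}, by simp [Subgroup.zpowers_eq_closure]⟩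
    obtain ⟨f1, f2⟩ := hA.fg (h.fg v₀) hDA
    intro w
    obtain ⟨g, rfl | rfl⟩ := hB.vert hA h1 w
    · rw [stab_smul, hB.stab hA]
      exact fg_map' f1 _
    · rw [stab_smul, hB.stab hA]
      exact fg_map' f2 _
  · obtain ⟨n1, n2⟩ := hA.na hmc (h.na v₀)
    have key : ∀ (g : G) (w : W), (∃ a ∈ MulAction.stabilizer G w, ∃ b ∈ MulAction.stabilizer G w,
        a * b ≠ b * a) → ∃ a ∈ MulAction.stabilizer G (g • w),
        ∃ b ∈ MulAction.stabilizer G (g • w), a * b ≠ b * a := by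
      rintro g w ⟨a, ha, b, hb, hne⟩
      rw [stab_smul]
      refine ⟨_, ⟨a, ha, rfl⟩, _, ⟨b, hb, rfl⟩, ?_⟩
      intro he
      apply hne
      rw [← map_mul, ← map_mul] at he
      exact (MulAut.conj g).injective he
    intro w
    obtain ⟨g, rfl | rfl⟩ := hB.vert hA h1 w
    · apply key
      rw [hB.stab hA]
      exact n1
    · apply key
      rw [hB.stab hA]
      exact n2

/-- the old homomorphisms -/
theorem BU.th_old (hB : BU (G := G) X X' φ v₀ y₁ y₂ W Y κ p)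
    (hφ : ∀ (g : G) (x y : V), X.Adj x y → φ (g • x) (g • y) = g • φ x y) {x y : V}
    (hxy : X.Adj x y) {θ : G →* Multiplicative (ZMod 2)} (hθ : IsTh X x y θ) :
    IsTh Y (κ x (φ x y)) (κ y (φ y x)) θ := by
  classical
  obtain ⟨P, hP1, hP2⟩ := hθ
  have horb : ∀ a b : V, X.Adj a b →
      (s(κ a (φ a b), κ b (φ b a)) ∈ Orb G (κ x (φ x y)) (κ y (φ y x)) ↔
        s(a, b) ∈ Orb G x y) := by
    intro a b hab
    constructor
    · rintro ⟨g, hg⟩
      refine ⟨g, ?_⟩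
      have := congrArg (Sym2.map p) hg
      simpa [hB.pk, hB.pmap] using this
    · rintro ⟨g, hg⟩
      refine ⟨g, ?_⟩
      rw [Sym2.eq_iff] at hg ⊢
      rcases hg with ⟨e1, e2⟩ | ⟨e1, e2⟩
      · left
        subst e1 e2
        rw [hφ g x y hxy, hφ g y x hxy.symm, hB.map, hB.map]
        exact ⟨rfl, rfl⟩
      · right
        subst e1 e2
        rw [hφ g x y hxy, hφ g y x hxy.symm, hB.map, hB.map]
        exact ⟨rfl, rfl⟩
  refine ⟨fun w => P (p w), ?_, ?_⟩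
  · intro w w' hww
    rcases (hB.adj w w').1 hww with ⟨a, b, hab, rfl, rfl⟩ | hf
    · simp only [hB.pk]
      rw [hP1 a b hab]
      by_cases h : s(a, b) ∈ Orb G x y
      · rw [if_pos h, if_pos ((horb a b hab).2 h)]
      · rw [if_neg h, if_neg (fun h' => h ((horb a b hab).1 h'))]
    · have hpw : p w = p w' := by
        obtain ⟨g, ⟨rfl, rfl⟩ | ⟨rfl, rfl⟩⟩ := hf
        · rw [hB.pmap, hB.pmap, hB.pk, hB.pk]
        · rw [hB.pmap, hB.pmap, hB.pk, hB.pk]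
      have hno : s(w, w') ∉ Orb G (κ x (φ x y)) (κ y (φ y x)) := by
        rintro ⟨g, hg⟩
        have h2 := congrArg (Sym2.map p) hg
        simp only [Sym2.map_mk, hB.pmap, hB.pk] at h2
        have h3 : g • x = g • y := by
          rw [hpw] at h2
          rw [Sym2.eq_iff] at h2
          rcases h2 with ⟨e1, e2⟩ | ⟨e1, e2⟩
          · exact e1.symm.trans e2
          · exact e2.symm.trans e1
        exact hxy.ne (smul_left_cancel g h3)
      rw [if_neg hno, add_zero]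
      show P (p w') = P (p w)
      rw [hpw]
  · intro g w
    show P (p (g • w)) = _
    rw [hB.pmap]
    exact hP2 g (p w)

/-- the new homomorphism is new, if there is one orbit of vertices -/
theorem BU.th_new (hB : BU (G := G) X X' φ v₀ y₁ y₂ W Y κ p)
    (hone : ∀ w w' : W, ∃ g : G, g • w = w') {θ : G →* Multiplicative (ZMod 2)}
    (hθ : IsTh Y (κ v₀ y₁) (κ v₀ y₂) θ) {x y : V} : ¬ IsTh X x y θ := by
  classical
  rintro ⟨P, hP1, hP2⟩
  obtain ⟨Q, hQ1, hQ2⟩ := hθ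
  obtain ⟨t, ht⟩ := hone (κ v₀ y₁) (κ v₀ y₂)
  have h1 := hQ1 _ _ hB.adj₀
  have h2 : s(κ v₀ y₁, κ v₀ y₂) ∈ Orb G (κ v₀ y₁) (κ v₀ y₂) :=
    ⟨1, by rw [one_smul, one_smul]⟩
  rw [if_pos h2, ← ht, hQ2 t] at h1
  have h3 : Multiplicative.toAdd (θ t) = 1 := add_left_cancel h1
  have h4 : t • v₀ = v₀ := by
    have := congrArg p ht
    rw [hB.pmap, hB.pk, hB.pk] at this
    exact this
  have h5 := hP2 t v₀
  rw [h4, h3] at h5
  have h6 : (1 : ZMod 2) = 0 := by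
    have : P v₀ + 0 = P v₀ + 1 := by rw [add_zero]; exact h5
    exact (add_left_cancel this).symm
  exact one_ne_zero h6

end

/-- REFINEMENT: if the vertex group at `v₀` has an essential edge in another splitting, then there is a
splitting with more homomorphisms to `ℤ/2`. -/
theorem Bad.refine (hCOL : S_COL) (hBLOW : S_BLOW) (hNC : S_NC) {G : Type} [Group G]
    (hfg : Group.FG G) {F : Type} [Field F]
    [Algebra (ZMod 2) F] {ρ : G →* SpecialLinearGroup (Fin 2) F} (hinf : Infinite F) (hN : Nsc ρ)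
    (hFI : FI G) (hB : Bad G ρ) {V V' : Type} [MulAction G V] [MulAction G V']
    {X : SimpleGraph V} {X' : SimpleGraph V'} (h : Spl G X) (h' : Spl G X') (v₀ : V) (y₁ y₂ : V')
    (hadj : X'.Adj y₁ y₂) (hess : Ess X' (MulAction.stabilizer G v₀) y₁ y₂) :
    ∃ (W : Type) (_ : MulAction G W) (Y : SimpleGraph W), Spl G Y ∧
      (∀ θ : G →* Multiplicative (ZMod 2), (∃ x y, X.Adj x y ∧ IsTh X x y θ) →
        ∃ x y, Y.Adj x y ∧ IsTh Y x y θ) ∧
      ∃ θ : G →* Multiplicative (ZMod 2), (∃ x y, Y.Adj x y ∧ IsTh Y x y θ) ∧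
        ¬ ∃ x y, X.Adj x y ∧ IsTh X x y θ := by
  haveI : Nonempty V' := h'.tree.connected.nonempty
  obtain ⟨φ, hφ⟩ := exists_phi (V' := V') h.toTA (fun x y hxy =>
    hB.ell hCOL hNC hfg hinf hN hFI h h' hxy)
  obtain ⟨WA, iWA, YA, κA, hA⟩ := exists_AD hCOL h'.toTA (MulAction.stabilizer G v₀) hadj hess
  obtain ⟨W, iW, Y, κ, p, b1, b2, b3, b4, b5, b6, b7⟩ :=
    hBLOW G V V' X X' h.toTA h'.toTA φ hφ v₀ y₁ y₂ hadj
  have hBU : BU (G := G) X X' φ v₀ y₁ y₂ W Y κ p := ⟨b1, b2, b3, b4, b5, b6, b7⟩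
  have hS := hBU.spl hFI h (hB.one V X h) (h'.mc y₁ y₂ hadj) hφ hA
  refine ⟨W, iW, Y, hS, ?_, ?_⟩
  · rintro θ ⟨x, y, hxy, hθ⟩
    exact ⟨_, _, (b7 _ _).2 (Or.inl ⟨x, y, hxy, rfl, rfl⟩), hBU.th_old hφ hxy hθ⟩
  · obtain ⟨θ, hθ⟩ := exists_th hS.toTA (κ v₀ y₁) (κ v₀ y₂)
    refine ⟨θ, ⟨_, _, hBU.adj₀, hθ⟩, ?_⟩
    rintro ⟨x, y, _, hθ'⟩
    exact hBU.th_new (hB.one W Y hS) hθ hθ'

end Pool.Agent.SuT
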