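import Pool.Agent.Lib.MP_305fdd_al.Su.Tr.Set

/-!
# MP_305fdd_al, surface groups, TREES block: a vertex group acting on the other tree, collapsed
-/

set_option autoImplicit false

namespace Pool.Agent.SuT

open Matrix Polynomial Pool.Agent.SuUp Pool.Agent.FrS Pool.Agent.FrT

/-- The result of the collapse for a subgroup `A` whose edge stabiliser is trivial. -/
structure CT {G : Type} [Group G] {V' : Type} [MulAction G V'] (X' : SimpleGraph V') (A : Subgroup G)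
    (u' v' : V') (W : Type) [MulAction A W] (Y : SimpleGraph W) (κ : V' → W) : Prop where
  ta : TA A Y
  adj : Y.Adj (κ u') (κ v')
  oe : OE A Y (κ u') (κ v')
  map : ∀ (a : A) x, κ ((a : G) • x) = a • κ x
  es : ES A (κ u') (κ v') = ⊥
  ess : ∀ (Z : Subgroup A) (a : A), Ess Y Z (a • κ u') (a • κ v') →
    Ess X' (Z.map A.subtype) ((a : G) • u') ((a : G) • v')
  nu : ∀ a : A, (a : G) • u' ∈ Hf X' u' v' → a • κ u' ≠ κ u'
  nv : ∀ a : A, (a : G) • v' ∉ Hf X' u' v' → a • κ v' ≠ κ v'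
  nf : ∀ (Z : Subgroup A), Ess X' (Z.map A.subtype) u' v' → ¬ ∃ w : W, ∀ a ∈ Z, a • w = w

theorem TA.sub {G : Type} [Group G] {V : Type} [MulAction G V] {X : SimpleGraph V} (h : TA G X)
    (A : Subgroup G) : TA A X where
  tree := h.tree
  act g x y hxy := h.act (g : G) x y hxy
  noinv g x y hxy := h.noinv (g : G) x y hxy

theorem exists_CT (hCOL : S_COL) {G : Type} [Group G] {V' : Type} [MulAction G V']
    {X' : SimpleGraph V'} (hT : TA G X') (A : Subgroup G) {u' v' : V'} (hadj : X'.Adj u' v')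
    (htriv : A ⊓ ES G u' v' = ⊥) :
    ∃ (W : Type) (_ : MulAction A W) (Y : SimpleGraph W) (κ : V' → W), CT X' A u' v' W Y κ := by
  obtain ⟨W, iW, Y, κ, hTA, hsurj, hmap, hrch, hAdj, hHf, hES⟩ :=
    hCOL A V' X' u' v' (TA.sub hT A) hadj
  have hmap' : ∀ (a : A) x, κ ((a : G) • x) = a • κ x := fun a x => hmap a x
  have hYadj : Y.Adj (κ u') (κ v') := (hAdj _ _).2 ⟨1, Or.inl ⟨one_smul _ _, one_smul _ _⟩⟩
  have hHf' : ∀ (a : A) (x : V'), κ x ∈ Hf Y (a • κ u') (a • κ v') ↔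
      x ∈ Hf X' ((a : G) • u') ((a : G) • v') := by
    intro a x
    rw [mem_Hf_smul hTA.act hTA.tree, mem_Hf_smul hT.act hT.tree, ← hmap a⁻¹ x, hHf]
    rfl
  refine ⟨W, iW, Y, κ, hTA, hYadj, fun w w' hww => (hAdj w w').1 hww, hmap', ?_, ?_, ?_, ?_, ?_⟩
  · rw [hES, eq_bot_iff]
    intro a ha
    rw [mem_ES] at ha
    have h1 : (a : G) ∈ A ⊓ ES G u' v' := ⟨a.2, mem_ES.2 ha⟩
    rw [htriv, Subgroup.mem_bot] at h1
    rw [Subgroup.mem_bot]
    exact Subtype.ext h1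
  · intro Z a hess x
    obtain ⟨⟨b, hb, h1⟩, ⟨c, hc, h2⟩⟩ := hess (κ x)
    rw [← hmap' b x, hHf'] at h1
    rw [← hmap' c x, hHf'] at h2
    exact ⟨⟨(b : G), ⟨b, hb, rfl⟩, h1⟩, ⟨(c : G), ⟨c, hc, rfl⟩, h2⟩⟩
  · intro a ha he
    rw [← hHf, hmap' a u', he] at ha
    exact left_not_mem_Hf ha
  · intro a ha he
    rw [← hHf, hmap' a v', he] at ha
    exact ha (right_mem_Hf hTA.tree hYadj)
  · rintro Z hess ⟨w, hw⟩
    obtain ⟨x, rfl⟩ := hsurj w
    obtain ⟨⟨_, ⟨b, hb, rfl⟩, h1⟩, ⟨_, ⟨c, hc, rfl⟩, h2⟩⟩ := hess x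
    have h1' : κ ((b : G) • x) ∈ Hf Y (κ u') (κ v') := (hHf _).2 h1
    have h2' : κ ((c : G) • x) ∉ Hf Y (κ u') (κ v') := fun h => h2 ((hHf _).1 h)
    rw [hmap', hw b hb] at h1'
    rw [hmap', hw c hc] at h2'
    exact h2' h1'

section

variable {G : Type} [Group G] {V V' : Type} [MulAction G V] [MulAction G V'] {X : SimpleGraph V}
  {X' : SimpleGraph V'} {v : V} {t : G} {u' v' : V'} {W : Type}
  [MulAction (MulAction.stabilizer G v) W] {Y : SimpleGraph W} {κ : V' → W}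

/-- An element `x` of `A` without fixed vertex in the collapsed tree crosses the orbit of the edge:
`l` edges, in different `⟨x⟩`-orbits. -/
theorem CT.cross (hAX : S_AX) {A : Subgroup G} [MulAction A W] (h : CT X' A u' v' W Y κ)
    (hT : TA G X') (hadj : X'.Adj u' v') (x : A)
    (hx : ¬ ∃ w : W, x • w = w) :
    ∃ (l : ℕ) (a : ℕ → A) (p : ℕ → W), 0 < l ∧ x • p 0 = p l ∧
      (∀ i < l, (a i • κ u' = p i ∧ a i • κ v' = p (i + 1)) ∨
        (a i • κ u' = p (i + 1) ∧ a i • κ v' = p i)) ∧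
      (∀ i < l, Y.Adj (p i) (p (i + 1))) ∧
      (∀ i < l, Ess X' (Subgroup.zpowers (((a i)⁻¹ * x * a i : A) : G)) u' v') ∧
      ∀ i < l, ∀ j < l, i ≠ j → ¬ (a j * (a i)⁻¹ ∈ Subgroup.zpowers x) := by
  obtain ⟨l, p, hl, hp, hess, hdis⟩ := hAX A W Y x h.ta hx
  have h1 : ∀ i, ∃ a : A, i < l → (a • κ u' = p i ∧ a • κ v' = p (i + 1)) ∨
      (a • κ u' = p (i + 1) ∧ a • κ v' = p i) := by
    intro i
    by_cases hi : i < l
    · obtain ⟨a, ha⟩ := h.oe _ _ (hess i hi).1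
      exact ⟨a, fun _ => ha⟩
    · exact ⟨1, fun hi' => absurd hi' hi⟩
  choose a ha using h1
  refine ⟨l, a, p, hl, hp, ha, fun i hi => (hess i hi).1, ?_, ?_⟩
  · intro i hi
    have h2 := (hess i hi).2
    have h3 : Ess Y (Subgroup.zpowers x) (a i • κ u') (a i • κ v') := by
      rcases ha i hi with ⟨e1, e2⟩ | ⟨e1, e2⟩
      · rw [e1, e2]; exact h2
      · rw [e1, e2]; exact h2.symm h.ta.tree (hess i hi).1
    have h4 := h.ess _ _ h3
    have h5 := h4.conj hT ((a i : G)⁻¹)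
      (E' := Subgroup.zpowers (((a i)⁻¹ * x * a i : A) : G)) (by
        rintro _ ⟨b, ⟨n, rfl⟩, rfl⟩
        refine ⟨n, ?_⟩
        simp only [Subgroup.coe_mul, InvMemClass.coe_inv, Subgroup.subtype_apply,
          Subgroup.coe_zpow, inv_inv]
        rw [show ((a i : G)⁻¹ * (x : G) * (a i : G)) = (a i : G)⁻¹ * (x : G) * ((a i : G)⁻¹)⁻¹ by
          rw [inv_inv], conj_zpow, inv_inv])
    rw [inv_smul_smul, inv_smul_smul] at h5
    exact h5
  · intro i hi j hj hij hk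
    have h2 := hdis i hi j hj hij _ hk
    have e : ∀ w : W, (a j * (a i)⁻¹) • a i • w = a j • w := by
      intro w
      rw [mul_smul, inv_smul_smul]
    rcases ha i hi with ⟨e1, e2⟩ | ⟨e1, e2⟩
    · rw [← e1, ← e2, e, e] at h2
      rcases ha j hj with ⟨f1, f2⟩ | ⟨f1, f2⟩
      · exact h2.1 ⟨f1, f2⟩
      · exact h2.2 ⟨f1, f2⟩
    · rw [← e1, ← e2, e, e] at h2
      rcases ha j hj with ⟨f1, f2⟩ | ⟨f1, f2⟩
      · exact h2.2 ⟨f2, f1⟩
      · exact h2.1 ⟨f2, f1⟩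

end

end Pool.Agent.SuT
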